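import Mathlib
import Pool.Agent.Lib.MP_daa227_pr.Mom

/-!
# MP_daa227_pr: infinite order. Definitions.

`Z d n ω` is the partition function of length `n` (in units of `w` charges), pinned at both ends, at
distance `d` below the critical point.
-/

namespace Pool.Agent.IOrd

open MeasureTheory ProbabilityTheory Finset Filter
open MP_daa227_pr (shift seqLaw ExpMom DepOn mom)

noncomputable section

/-- the properties of the pinned partition functions -/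
structure Sys (w : ℕ) (μ : Measure ℝ) (Z : ℝ → ℕ → (ℕ → ℝ) → ℝ) : Prop where
  meas : ∀ d n, Measurable (Z d n)
  pos : ∀ d n ω, 0 < Z d n ω
  zero : ∀ d ω, Z d 0 ω = 1
  dep : ∀ d n, DepOn (w * n) (Z d n)
  mul_le : ∀ d m n ω, Z d m ω * Z d n (shift (w * m) ω) ≤ Z d (m + n) ω
  mono : ∀ d d' n ω, d ≤ d' → Z d n ω ≤ Z d' n ω
  conv : ∀ d t n ω, 0 ≤ d → 0 ≤ t → t ≤ 1 → Z (t * d) n ω ≤ Z 0 n ω ^ (1 - t) * Z d n ω ^ t
  lip : ∀ d n ω, 0 ≤ d → Z d n ω ≤ Real.exp (2 * n * d) * Z 0 n ω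
  logint : ∀ d n, Integrable (fun ω => Real.log (Z d n ω)) (seqLaw μ)
  fin : ∀ s, 0 ≤ s → s ≤ 1 → ∀ d n, mom μ s (Z d n) ≠ ⊤

/-- the fractional moment of order `s` -/
def aS (μ : Measure ℝ) (Z : ℝ → ℕ → (ℕ → ℝ) → ℝ) (s d : ℝ) (n : ℕ) : ℝ :=
  (mom μ s (Z d n)).toReal

/-- the self-convolution -/
def cv (u : ℕ → ℝ) (n : ℕ) : ℝ := ∑ x ∈ range (n + 1), u x * u (n - x)

/-- derivative bound and decomposition at an intermediate time, exponent `s` -/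
def Bds (μ : Measure ℝ) (Z : ℝ → ℕ → (ℕ → ℝ) → ℝ) (s : ℝ) : Prop :=
  ∃ (d₀ C : ℝ) (R : ℕ), 0 < d₀ ∧ 1 ≤ C ∧ ∀ d, 0 ≤ d → d ≤ d₀ →
      (∀ n, ∃ n' ≤ n + R, aS μ Z s d n ≤ aS μ Z s 0 n + d * C * cv (aS μ Z s d) n') ∧
      (∀ m N, m < N → aS μ Z s d N ≤
        C * (∑ f ∈ range (m + R + 1), aS μ Z s d f) * ∑ j ∈ range (N - m + R), aS μ Z s d j)

/-- the exponential growth rate of a sequence -/
def Gr (u : ℕ → ℝ) : ℝ := sInf {θ : ℝ | 0 ≤ θ ∧ ∀ n : ℕ, u n ≤ Real.exp (θ * n)}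

/-- a good block of length `l` with gain `L` (at the critical point) -/
def Far (Z : ℝ → ℕ → (ℕ → ℝ) → ℝ) (l : ℕ) (L : ℝ) : Set (ℕ → ℝ) := {ω | L ≤ Real.log (Z 0 l ω)}

/-- its indicator -/
def ind (A : Set (ℕ → ℝ)) (ω : ℕ → ℝ) : ENNReal := A.indicator (fun _ => 1) ω

end

end Pool.Agent.IOrd
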