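import Mathlib
import Pool.Agent.Lib.MP_daa227_pr_IO.Defs

/-!
# MP_daa227_pr: infinite order. Basic properties of the fractional moments.
-/

namespace Pool.Agent.IOrd

open MeasureTheory ProbabilityTheory Finset Filter Topology
open MP_daa227_pr (shift seqLaw ExpMom DepOn mom)

noncomputable section

variable {μ : Measure ℝ} [IsProbabilityMeasure μ] {Z : ℝ → ℕ → (ℕ → ℝ) → ℝ} {w : ℕ}


theorem aS_nonneg (μ : Measure ℝ) (Z : ℝ → ℕ → (ℕ → ℝ) → ℝ) (s d : ℝ) (n : ℕ) :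
    0 ≤ aS μ Z s d n := ENNReal.toReal_nonneg

theorem aS_zero (hZ : Sys w μ Z) (s d : ℝ) : aS μ Z s d 0 = 1 := by
  unfold aS
  have e : Z d 0 = fun _ => 1 := funext (hZ.zero d)
  rw [e, MP_daa227_pr.mom_const]
  simp

/-- supermultiplicativity: `hZ.mul_le`, `MP_daa227_pr.mom_mul_shift`, `MP_daa227_pr.mom_mono` -/
theorem aS_mul (hZ : Sys w μ Z) {s : ℝ} (hs0 : 0 ≤ s) (hs1 : s ≤ 1) (d : ℝ) (m n : ℕ) :
    aS μ Z s d m * aS μ Z s d n ≤ aS μ Z s d (m + n) := by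
  unfold aS
  rw [← ENNReal.toReal_mul, ← MP_daa227_pr.mom_mul_shift hs0 (hZ.meas d m) (hZ.meas d n)
    (hZ.dep d m) (fun ω => (hZ.pos d m ω).le)]
  exact ENNReal.toReal_mono (hZ.fin s hs0 hs1 d (m + n))
    (MP_daa227_pr.mom_mono hs0 (fun ω => hZ.mul_le d m n ω))

theorem aS_pow (hZ : Sys w μ Z) {s : ℝ} (hs0 : 0 ≤ s) (hs1 : s ≤ 1) (d : ℝ) (n k : ℕ) :
    aS μ Z s d n ^ k ≤ aS μ Z s d (k * n) := by
  induction k with
  | zero =>
    rw [pow_zero, zero_mul, aS_zero hZ]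
  | succ k ih =>
    rw [pow_succ, Nat.succ_mul]
    exact (mul_le_mul_of_nonneg_right ih (aS_nonneg μ Z s d n)).trans
      (aS_mul hZ hs0 hs1 d (k * n) n)

theorem aS_mono (hZ : Sys w μ Z) {s : ℝ} (hs0 : 0 ≤ s) (hs1 : s ≤ 1) {d d' : ℝ} (hd : d ≤ d')
    (n : ℕ) : aS μ Z s d n ≤ aS μ Z s d' n :=
  ENNReal.toReal_mono (hZ.fin s hs0 hs1 d' n)
    (MP_daa227_pr.mom_mono hs0 (fun ω => hZ.mono d d' n ω hd))

/-- `Z_d ^ s ≤ exp (2 n d s) Z_0 ^ s` -/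
theorem aS_lip (hZ : Sys w μ Z) {s : ℝ} (hs0 : 0 ≤ s) (hs1 : s ≤ 1) {d : ℝ} (hd : 0 ≤ d)
    (n : ℕ) : aS μ Z s d n ≤ Real.exp (2 * n * d) * aS μ Z s 0 n := by
  have hE : (0:ℝ) < Real.exp (2 * n * d) := Real.exp_pos _
  have h1E : (1:ℝ) ≤ Real.exp (2 * n * d) := Real.one_le_exp (by positivity)
  have h1 : mom μ s (Z d n) ≤ ENNReal.ofReal (Real.exp (2 * n * d)) ^ s * mom μ s (Z 0 n) := by
    rw [← MP_daa227_pr.mom_const_mul hs0 hE.le (hZ.meas 0 n)]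
    exact MP_daa227_pr.mom_mono hs0 (fun ω => hZ.lip d n ω hd)
  have h2 : ENNReal.ofReal (Real.exp (2 * n * d)) ^ s ≤
      ENNReal.ofReal (Real.exp (2 * n * d)) := by
    have h3 : (1:ENNReal) ≤ ENNReal.ofReal (Real.exp (2 * n * d)) := by
      rw [← ENNReal.ofReal_one]
      exact ENNReal.ofReal_le_ofReal h1E
    calc ENNReal.ofReal (Real.exp (2 * n * d)) ^ s
        ≤ ENNReal.ofReal (Real.exp (2 * n * d)) ^ (1:ℝ) :=
          ENNReal.rpow_le_rpow_of_exponent_le h3 hs1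
      _ = _ := ENNReal.rpow_one _
  have h4 : mom μ s (Z d n) ≤ ENNReal.ofReal (Real.exp (2 * n * d)) * mom μ s (Z 0 n) :=
    h1.trans (mul_le_mul_left h2 _)
  unfold aS
  have h5 := ENNReal.toReal_mono
    (ENNReal.mul_ne_top ENNReal.ofReal_ne_top (hZ.fin s hs0 hs1 0 n)) h4
  rwa [ENNReal.toReal_mul, ENNReal.toReal_ofReal hE.le] at h5

/-- Lyapunov: `E Z ^ s ≤ (E Z ^ s') ^ (s / s') ≤ 1` -/
theorem aS_lyap (hZ : Sys w μ Z) {s s' : ℝ} (hs0 : 0 < s) (hss : s ≤ s') (hs1 : s' ≤ 1) (n : ℕ)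
    (h : aS μ Z s' 0 n ≤ 1) : aS μ Z s 0 n ≤ 1 := by
  have hs' : 0 < s' := lt_of_lt_of_le hs0 hss
  have hfin := hZ.fin s' hs'.le hs1 0 n
  have hle : mom μ s' (Z 0 n) ≤ 1 := by
    have h1 : (mom μ s' (Z 0 n)).toReal ≤ 1 := h
    have h2 := (ENNReal.toReal_le_toReal hfin ENNReal.one_ne_top).1 (by simpa using h1)
    exact h2
  have hr0 : 0 < s / s' := div_pos hs0 hs'
  have hr1 : s / s' ≤ 1 := (div_le_one hs').2 hss
  have hkey := MP_daa227_pr.mom_le_rpow (μ := μ) hr0 hr1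
    (F := fun ω => Z 0 n ω ^ s') ((hZ.meas 0 n).pow_const s')
    (fun ω => Real.rpow_nonneg (hZ.pos 0 n ω).le _)
  have e1 : mom μ (s / s') (fun ω => Z 0 n ω ^ s') = mom μ s (Z 0 n) := by
    unfold mom
    refine lintegral_congr fun ω => ?_
    rw [← ENNReal.ofReal_rpow_of_pos (hZ.pos 0 n ω), ← ENNReal.rpow_mul]
    congr 1
    field_simp
  have e2 : mom μ 1 (fun ω => Z 0 n ω ^ s') = mom μ s' (Z 0 n) := by
    unfold mom
    refine lintegral_congr fun ω => ?_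
    rw [← ENNReal.ofReal_rpow_of_pos (hZ.pos 0 n ω), ENNReal.rpow_one]
  rw [e1, e2] at hkey
  have h3 : mom μ s (Z 0 n) ≤ 1 := hkey.trans (ENNReal.rpow_le_one hle hr0.le)
  unfold aS
  have h4 := ENNReal.toReal_mono ENNReal.one_ne_top h3
  simpa using h4

/-- Jensen: `MP_daa227_pr.exp_le_mom` -/
theorem aS_jensen (hZ : Sys w μ Z) {s : ℝ} (hs0 : 0 ≤ s) (hs1 : s ≤ 1) (d : ℝ) (n : ℕ) :
    Real.exp (s * ∫ ω, Real.log (Z d n ω) ∂seqLaw μ) ≤ aS μ Z s d n := by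
  have h1 := MP_daa227_pr.exp_le_mom (μ := μ) hs0 (hZ.meas d n) (hZ.pos d n) (hZ.logint d n)
  have h2 := ENNReal.toReal_mono (hZ.fin s hs0 hs1 d n) h1
  rwa [ENNReal.toReal_ofReal (Real.exp_pos _).le] at h2

end

end Pool.Agent.IOrd
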