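import Mathlib
import Pool.Agent.Lib.MP_daa227_pr_IO.Defs
import Pool.Agent.Lib.MP_daa227_pr_OT.Sup
import Pool.Agent.Lib.MP_daa227_pr_OT.Strict
import Pool.Agent.Lib.MP_daa227_pr_OTP.Sup

/-!
# MP_daa227_pr: infinite order. The copolymer and the pinning model: definitions.
-/

namespace Pool.Agent.IOrd

open MeasureTheory ProbabilityTheory Finset Filter Topology
open MP_daa227_pr (shift seqLaw ExpMom DepOn mom)
open Pool.Agent.OT (Zr gW KerOK en lmg)
open Pool.Agent.OTP (Zp KerP LP)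

noncomputable section

/-- the copolymer at distance `d` below `hc` -/
def Zc (a b : ℕ → ℝ) (β hc : ℝ) : ℝ → ℕ → (ℕ → ℝ) → ℝ := fun d n ω => Zr a b n (en β (hc - d) ω)

/-- the weight of a negative excursion -/
def bW (b : ℕ → ℝ) (k : ℕ) (θ : ℕ → ℝ) : ℝ := b k * Real.exp (∑ i ∈ range (2 * k), θ i)

/-- pinning at distance `d` below `hc` -/
def Zq (K : ℕ → ℝ) (β hc : ℝ) : ℝ → ℕ → (ℕ → ℝ) → ℝ := fun d n ω => Zp K n (en β (hc - d) ω)

end

end Pool.Agent.IOrd
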