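import Mathlib
import Pool.Agent.Lib.MP_daa227_pr_IO.CopDefs

/-!
# MP_daa227_pr: infinite order. The copolymer is a system.
-/

namespace Pool.Agent.IOrd

open MeasureTheory ProbabilityTheory Finset Filter Topology
open MP_daa227_pr (shift seqLaw ExpMom DepOn mom)
open Pool.Agent.OT (Zr gW KerOK en lmg)

noncomputable section

variable {a b : ℕ → ℝ}

namespace CopSys

/-- Hoelder for finite sums -/
theorem holder {ι : Type*} (s : Finset ι) {x y : ι → ℝ} {t : ℝ} (ht0 : 0 ≤ t) (ht1 : t ≤ 1)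
    (hx : ∀ i ∈ s, 0 ≤ x i) (hy : ∀ i ∈ s, 0 ≤ y i) (hX : 0 < ∑ i ∈ s, x i)
    (hY : 0 < ∑ i ∈ s, y i) :
    ∑ i ∈ s, x i ^ (1 - t) * y i ^ t ≤ (∑ i ∈ s, x i) ^ (1 - t) * (∑ i ∈ s, y i) ^ t := by
  obtain ⟨X, hXd⟩ : ∃ X, X = ∑ i ∈ s, x i := ⟨_, rfl⟩
  obtain ⟨Y, hYd⟩ : ∃ Y, Y = ∑ i ∈ s, y i := ⟨_, rfl⟩
  rw [← hXd] at hX ⊢
  rw [← hYd] at hY ⊢
  have hP : 0 < X ^ (1 - t) * Y ^ t :=
    mul_pos (Real.rpow_pos_of_pos hX _) (Real.rpow_pos_of_pos hY _)
  have h1 : ∀ i ∈ s, x i ^ (1 - t) * y i ^ t ≤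
      X ^ (1 - t) * Y ^ t * ((1 - t) * (x i / X) + t * (y i / Y)) := by
    intro i hi
    have h2 := Real.geom_mean_le_arith_mean2_weighted (sub_nonneg.2 ht1) ht0
      (div_nonneg (hx i hi) hX.le) (div_nonneg (hy i hi) hY.le) (by ring)
    rw [Real.div_rpow (hx i hi) hX.le, Real.div_rpow (hy i hi) hY.le, div_mul_div_comm,
      div_le_iff₀ hP] at h2
    linarith
  refine (Finset.sum_le_sum h1).trans (le_of_eq ?_)
  rw [← Finset.mul_sum, Finset.sum_add_distrib, ← Finset.mul_sum, ← Finset.mul_sum,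
    ← Finset.sum_div, ← Finset.sum_div, ← hXd, ← hYd, div_self hX.ne', div_self hY.ne']
  ring

/-- one exponential -/
theorem pow_exp {A t u v : ℝ} (hA : 0 < A) :
    (A * Real.exp u) ^ (1 - t) * (A * Real.exp v) ^ t = A * Real.exp ((1 - t) * u + t * v) := by
  rw [Real.mul_rpow hA.le (Real.exp_pos _).le, Real.mul_rpow hA.le (Real.exp_pos _).le,
    ← Real.exp_mul, ← Real.exp_mul, Real.exp_add]
  have h : A ^ (1 - t) * A ^ t = A := by
    rw [← Real.rpow_add hA]
    simp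
  calc A ^ (1 - t) * Real.exp (u * (1 - t)) * (A ^ t * Real.exp (v * t))
      = (A ^ (1 - t) * A ^ t) * (Real.exp (u * (1 - t)) * Real.exp (v * t)) := by ring
    _ = A * (Real.exp ((1 - t) * u) * Real.exp (t * v)) := by
      rw [h, mul_comm u, mul_comm v]

theorem gW_conv (hK : KerOK a b) {k : ℕ} (hk : 1 ≤ k) {t c : ℝ} (ht0 : 0 ≤ t) (ht1 : t ≤ 1)
    (θ : ℕ → ℝ) : gW a b k (fun i => θ i + t * c) ≤
      gW a b k θ ^ (1 - t) * gW a b k (fun i => θ i + c) ^ t := by
  have ha := hK.a_pos k hk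
  have hb := hK.b_pos k hk
  have h := holder (univ : Finset (Fin 2)) (t := t)
    (x := ![a k * Real.exp (θ (2 * k - 1)), b k * Real.exp (∑ i ∈ range (2 * k), θ i)])
    (y := ![a k * Real.exp (θ (2 * k - 1) + c),
      b k * Real.exp (∑ i ∈ range (2 * k), (θ i + c))]) ht0 ht1
    (by
      intro i _
      fin_cases i
      · exact (mul_pos ha (Real.exp_pos _)).le
      · exact (mul_pos hb (Real.exp_pos _)).le)
    (by
      intro i _
      fin_cases i
      · exact (mul_pos ha (Real.exp_pos _)).le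
      · exact (mul_pos hb (Real.exp_pos _)).le)
    (by
      rw [Fin.sum_univ_two]
      exact add_pos (mul_pos ha (Real.exp_pos _)) (mul_pos hb (Real.exp_pos _)))
    (by
      rw [Fin.sum_univ_two]
      exact add_pos (mul_pos ha (Real.exp_pos _)) (mul_pos hb (Real.exp_pos _)))
  rw [Fin.sum_univ_two, Fin.sum_univ_two, Fin.sum_univ_two] at h
  simp only [Matrix.cons_val_zero, Matrix.cons_val_one] at h
  rw [pow_exp ha, pow_exp hb] at h
  unfold gW
  refine le_trans (le_of_eq ?_) h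
  congr 3
  · ring
  · rw [Finset.sum_add_distrib, Finset.sum_add_distrib]
    simp only [Finset.sum_const, nsmul_eq_mul]
    ring

end CopSys

/-- log-convexity in the energies: induction on `n` with `D.Zr_succ`, and Hoelder for finite sums
`∑ x_k ^ (1 - t) y_k ^ t ≤ (∑ x_k) ^ (1 - t) (∑ y_k) ^ t` (also for the two terms of `gW`) -/
theorem Zr_conv (hK : KerOK a b) (n : ℕ) {t c : ℝ} (ht0 : 0 ≤ t) (ht1 : t ≤ 1) (θ : ℕ → ℝ) :
    Zr a b n (fun i => θ i + t * c) ≤
      Zr a b n θ ^ (1 - t) * Zr a b n (fun i => θ i + c) ^ t := by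
  induction n using Nat.strong_induction_on generalizing θ with
  | _ n ih =>
    rcases n with _ | n
    · rw [Pool.Agent.OT.D.Zr_zero, Pool.Agent.OT.D.Zr_zero, Pool.Agent.OT.D.Zr_zero,
        Real.one_rpow, Real.one_rpow, mul_one]
    · rw [Pool.Agent.OT.D.Zr_succ, Pool.Agent.OT.D.Zr_succ, Pool.Agent.OT.D.Zr_succ]
      have hp1 : ∀ k ∈ range (n + 1), 0 <
          gW a b (k + 1) θ * Zr a b (n - k) (shift (2 * (k + 1)) θ) := fun k _ =>
        mul_pos (Pool.Agent.OT.D.gW_pos hK (by omega) _) (Pool.Agent.OT.Zr_pos hK _ _)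
      have hp2 : ∀ k ∈ range (n + 1), 0 < gW a b (k + 1) (fun i => θ i + c) *
          Zr a b (n - k) (shift (2 * (k + 1)) (fun i => θ i + c)) := fun k _ =>
        mul_pos (Pool.Agent.OT.D.gW_pos hK (by omega) _) (Pool.Agent.OT.Zr_pos hK _ _)
      refine le_trans (Finset.sum_le_sum fun k hk => ?_) (CopSys.holder (range (n + 1)) ht0 ht1
        (fun k hk => (hp1 k hk).le) (fun k hk => (hp2 k hk).le)
        (Finset.sum_pos hp1 ⟨0, mem_range.2 (Nat.succ_pos _)⟩)
        (Finset.sum_pos hp2 ⟨0, mem_range.2 (Nat.succ_pos _)⟩))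
      have g1 := CopSys.gW_conv hK (k := k + 1) (by omega) (c := c) ht0 ht1 θ
      have g2 := ih (n - k) (by omega) (shift (2 * (k + 1)) θ)
      have g3 : (0 : ℝ) ≤ Zr a b (n - k) (shift (2 * (k + 1)) (fun i => θ i + t * c)) :=
        (Pool.Agent.OT.Zr_pos hK _ _).le
      have g4 : (0 : ℝ) ≤ gW a b (k + 1) θ := (Pool.Agent.OT.D.gW_pos hK (by omega) _).le
      have g5 : (0 : ℝ) ≤ gW a b (k + 1) (fun i => θ i + c) :=
        (Pool.Agent.OT.D.gW_pos hK (by omega) _).le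
      refine (mul_le_mul g1 g2 g3
        (mul_nonneg (Real.rpow_nonneg g4 _) (Real.rpow_nonneg g5 _))).trans (le_of_eq ?_)
      rw [Real.mul_rpow g4 (Pool.Agent.OT.Zr_pos hK _ _).le,
        Real.mul_rpow g5 (Pool.Agent.OT.Zr_pos hK _ _).le]
      have e1 : shift (2 * (k + 1)) (fun i => θ i + c) =
          fun i => shift (2 * (k + 1)) θ i + c := rfl
      rw [e1]
      ring

/-- `OT.SupAux.good_Zr`, field `ratio` -/
theorem Zr_lip (hK : KerOK a b) (n : ℕ) {c : ℝ} (hc : 0 ≤ c) (θ : ℕ → ℝ) :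
    Zr a b n (fun i => θ i + c) ≤ Real.exp (2 * n * c) * Zr a b n θ := by
  have h := (Pool.Agent.OT.SupAux.good_Zr hK n).ratio (fun i => θ i + c) θ
  have h1 : ∑ i ∈ range (2 * n), |θ i + c - θ i| = 2 * n * c := by
    have h2 : ∀ i ∈ range (2 * n), |θ i + c - θ i| = c := by
      intro i _
      rw [add_sub_cancel_left, abs_of_nonneg hc]
    rw [Finset.sum_congr rfl h2, Finset.sum_const, card_range, nsmul_eq_mul]
    push_cast
    ring
  rwa [h1, one_mul] at h

/-- `OT.Zr_pos`, `OT.D.Zr_zero`, `OT.Zr_congr`, `OT.Zr_mul_le`, `OT.X1.shift_en`, `OT.SupAux.Zr_mono`,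
`OT.SupAux.good_Zen`, `OT.integrable_logZr`, `MP_daa227_pr.mom_le_exp` -/
theorem cop_sys (hK : KerOK a b) (μ : Measure ℝ) [IsProbabilityMeasure μ] (hμ : ExpMom μ)
    (β hc : ℝ) : Sys 2 μ (Zc a b β hc) where
  meas := fun d n => (Pool.Agent.OT.SupAux.good_Zen hK β (hc - d) n).meas
  pos := fun d n ω => Pool.Agent.OT.Zr_pos hK n _
  zero := fun d ω => Pool.Agent.OT.D.Zr_zero a b _
  dep := fun d n => (Pool.Agent.OT.SupAux.good_Zen hK β (hc - d) n).depOn
  mul_le := fun d m n ω => Pool.Agent.OT.Zr_mul_le hK m n (en β (hc - d) ω)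
  mono := fun d d' n ω hd => Pool.Agent.OT.SupAux.Zr_mono hK n fun i => by
    unfold en
    linarith
  conv := fun d t n ω hd ht0 ht1 => by
    have h := Zr_conv hK n ht0 ht1 (c := d) (en β hc ω)
    have e1 : (fun i => en β hc ω i + t * d) = en β (hc - t * d) ω := by
      funext i
      unfold en
      ring
    have e2 : (fun i => en β hc ω i + d) = en β (hc - d) ω := by
      funext i
      unfold en
      ring
    rw [e1, e2] at h
    unfold Zc
    rwa [sub_zero]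
  lip := fun d n ω hd => by
    have h := Zr_lip hK n hd (en β hc ω)
    have e2 : (fun i => en β hc ω i + d) = en β (hc - d) ω := by
      funext i
      unfold en
      ring
    rw [e2] at h
    unfold Zc
    rwa [sub_zero]
  logint := fun d n => Pool.Agent.OT.integrable_logZr hK μ hμ β (hc - d) n
  fin := fun s hs0 hs1 d n => ne_top_of_le_ne_top ENNReal.ofReal_ne_top
    (MP_daa227_pr.mom_le_exp hμ hs0 hs1 (Pool.Agent.OT.SupAux.good_Zen hK β (hc - d) n)
      (fun ω => Pool.Agent.OT.Zr_pos hK n _))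

end

end Pool.Agent.IOrd
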