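import Mathlib
import Pool.Agent.Lib.MP_daa227_pr_IO.Defs

/-!
# MP_daa227_pr: infinite order. The growth rate.
-/

namespace Pool.Agent.IOrd

open MeasureTheory ProbabilityTheory Finset Filter Topology
open MP_daa227_pr (shift seqLaw ExpMom DepOn mom)

noncomputable section


/-- apply the hypothesis at `k * n`: `u n ^ k ≤ u (k n) ≤ C exp (θ k n)`, take `k`-th roots and let
`k → ∞` -/
theorem le_exp_of_super {u : ℕ → ℝ} (h0 : ∀ n, 0 ≤ u n) (hm : ∀ m n, u m * u n ≤ u (m + n))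
    {C θ : ℝ} (h : ∀ n : ℕ, u n ≤ C * Real.exp (θ * n)) (n : ℕ) : u n ≤ Real.exp (θ * n) := by
  have hpow : ∀ k : ℕ, u n ^ (k + 1) ≤ u ((k + 1) * n) := by
    intro k
    induction k with
    | zero => simp
    | succ k ih =>
      calc u n ^ (k + 1 + 1) = u n ^ (k + 1) * u n := pow_succ _ _
        _ ≤ u ((k + 1) * n) * u n := mul_le_mul_of_nonneg_right ih (h0 n)
        _ ≤ u ((k + 1) * n + n) := hm _ _
        _ = u ((k + 1 + 1) * n) := by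
          congr 1
          ring
  by_contra hc
  rw [not_le] at hc
  have he : 0 < Real.exp (θ * n) := Real.exp_pos _
  have hr : 1 < u n / Real.exp (θ * n) := (one_lt_div he).mpr hc
  obtain ⟨k, hk⟩ := pow_unbounded_of_one_lt C hr
  have h1 : u n ^ (k + 1) ≤ C * Real.exp (θ * ((k + 1) * n : ℕ)) := (hpow k).trans (h _)
  have h2 : Real.exp (θ * ((k + 1) * n : ℕ)) = Real.exp (θ * n) ^ (k + 1) := by
    rw [← Real.exp_nat_mul]
    congr 1
    push_cast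
    ring
  rw [h2] at h1
  have h3 : (u n / Real.exp (θ * n)) ^ (k + 1) ≤ C := by
    rw [div_pow]
    exact (div_le_iff₀ (pow_pos he _)).mpr h1
  have h4 : (u n / Real.exp (θ * n)) ^ k ≤ (u n / Real.exp (θ * n)) ^ (k + 1) :=
    pow_le_pow_right₀ hr.le (Nat.le_succ k)
  linarith

theorem Gr_spec {u : ℕ → ℝ} (h : ∃ θ, 0 ≤ θ ∧ ∀ n : ℕ, u n ≤ Real.exp (θ * n)) :
    0 ≤ Gr u ∧ ∀ n : ℕ, u n ≤ Real.exp (Gr u * n) := by
  obtain ⟨θ₀, hθ₀, hb⟩ := h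
  have hne : {θ : ℝ | 0 ≤ θ ∧ ∀ n : ℕ, u n ≤ Real.exp (θ * n)}.Nonempty := ⟨θ₀, hθ₀, hb⟩
  refine ⟨le_csInf hne fun θ hθ => hθ.1, fun n => ?_⟩
  rcases Nat.eq_zero_or_pos n with hn | hn
  · have h1 := hb n
    rw [hn, Nat.cast_zero, mul_zero] at h1 ⊢
    exact h1
  · rcases le_or_gt (u n) 0 with hu | hu
    · exact hu.trans (Real.exp_pos _).le
    · have hn' : (0 : ℝ) < n := Nat.cast_pos.mpr hn
      have h1 : Real.log (u n) / n ≤ Gr u := by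
        refine le_csInf hne fun θ hθ => ?_
        rw [div_le_iff₀ hn']
        exact (Real.log_le_iff_le_exp hu).mpr (hθ.2 n)
      rw [div_le_iff₀ hn'] at h1
      exact (Real.log_le_iff_le_exp hu).mp h1

theorem Gr_le {u : ℕ → ℝ} {θ : ℝ} (h0 : 0 ≤ θ) (h : ∀ n : ℕ, u n ≤ Real.exp (θ * n)) :
    Gr u ≤ θ := by
  exact csInf_le ⟨0, fun θ hθ => hθ.1⟩ ⟨h0, h⟩

theorem Gr_mono {u v : ℕ → ℝ} (h : ∃ θ, 0 ≤ θ ∧ ∀ n : ℕ, v n ≤ Real.exp (θ * n))
    (huv : ∀ n, u n ≤ v n) : Gr u ≤ Gr v := by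
  obtain ⟨h1, h2⟩ := Gr_spec h
  exact Gr_le h1 fun n => (huv n).trans (h2 n)

end

end Pool.Agent.IOrd
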