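import Mathlib
import Pool.Agent.Lib.MP_daa227_pr_IO.CopDefs
import Pool.Agent.Lib.MP_daa227_pr_IO.CopSys
import Pool.Agent.Lib.MP_daa227_pr_IO.Basic
import Pool.Agent.Lib.MP_daa227_pr_IO.Growth
import Pool.Agent.Lib.MP_daa227_pr_OT.Hop

/-!
# MP_daa227_pr: infinite order. The copolymer: a small and a large moment at the critical point.
-/

namespace Pool.Agent.IOrd

open MeasureTheory ProbabilityTheory Finset Filter Topology
open MP_daa227_pr (shift seqLaw ExpMom DepOn mom)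
open Pool.Agent.OT (Zr gW KerOK en lmg)

noncomputable section

variable {a b : ℕ → ℝ}

namespace CopH

/-- logarithms are dominated by small linear functions -/
lemma log_lin {A θ : ℝ} (hA : 0 < A) (hθ : 0 < θ) {x : ℝ} (hx : 0 < x) :
    A * Real.log x ≤ θ * x + A * Real.log (A / θ) := by
  have h1 : Real.log x = Real.log (θ * x / A) + Real.log (A / θ) := by
    rw [← Real.log_mul (by positivity) (by positivity)]
    congr 1
    field_simp
  have h2 : Real.log (θ * x / A) ≤ θ * x / A - 1 := Real.log_le_sub_one_of_pos (by positivity)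
  rw [h1, mul_add]
  have h3 : A * Real.log (θ * x / A) ≤ A * (θ * x / A - 1) := mul_le_mul_of_nonneg_left h2 hA.le
  have h4 : A * (θ * x / A - 1) = θ * x - A := by field_simp
  linarith

/-- a supermultiplicative sequence of polynomial growth is at most one -/
lemma le_one_of_super {u : ℕ → ℝ} (h0 : ∀ n, 0 ≤ u n) (hz : u 0 = 1)
    (hm : ∀ m n, u m * u n ≤ u (m + n)) {A C : ℝ} (hA : 0 < A) (hC : 0 ≤ C)
    (h : ∀ n : ℕ, 1 ≤ n → u n ≤ C * Real.exp (A * Real.log n)) (n : ℕ) : u n ≤ 1 := by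
  by_contra hcon
  rw [not_le] at hcon
  have hl : 0 < Real.log (u n) := Real.log_pos hcon
  have hn0 : (0:ℝ) ≤ n := Nat.cast_nonneg n
  set θ : ℝ := Real.log (u n) / (2 * (n + 1)) with hθ
  have hθ0 : 0 < θ := by positivity
  have hb : ∀ m : ℕ, u m ≤ (C * Real.exp (A * Real.log (A / θ)) + 1) * Real.exp (θ * m) := by
    intro m
    rcases Nat.eq_zero_or_pos m with hm0 | hm0
    · rw [hm0, hz, Nat.cast_zero, mul_zero, Real.exp_zero, mul_one]
      have : 0 ≤ C * Real.exp (A * Real.log (A / θ)) := by positivity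
      linarith
    · have hm1 : (0:ℝ) < m := by exact_mod_cast hm0
      have h1 := log_lin hA hθ0 hm1
      calc u m ≤ C * Real.exp (A * Real.log m) := h m hm0
        _ ≤ C * Real.exp (θ * m + A * Real.log (A / θ)) :=
            mul_le_mul_of_nonneg_left (Real.exp_le_exp.2 h1) hC
        _ = C * Real.exp (A * Real.log (A / θ)) * Real.exp (θ * m) := by
            rw [Real.exp_add]; ring
        _ ≤ _ := by
            refine mul_le_mul_of_nonneg_right ?_ (Real.exp_pos _).le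
            linarith
  have h2 := le_exp_of_super h0 hm hb n
  have h3 : Real.log (u n) ≤ θ * n := (Real.log_le_iff_le_exp (by linarith)).2 h2
  rw [hθ, div_mul_eq_mul_div, le_div_iff₀ (by positivity)] at h3
  nlinarith

end CopH

/-- `OT.hop` at `h = hc`: `log E Z_n ^ γ ≤ A (1 + log n)`; take `s₀ = min γ 1` (Lyapunov) and use
`aS_pow`: `a_n ^ k ≤ a_{k n} ≤ exp (A (1 + log (k n)))` for all `k`, so `a_n ≤ 1`. -/
theorem cop_h0 (hK : KerOK a b) (μ : Measure ℝ) [IsProbabilityMeasure μ] (hμ : ExpMom μ) {β : ℝ}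
    (hβ : 0 < β) {hc : ℝ} (h0 : ∀ n, ∫ ω, Real.log (Zr a b n (en β hc ω)) ∂seqLaw μ ≤ 0) :
    ∃ s₀, 0 < s₀ ∧ s₀ ≤ 1 ∧ ∀ n, aS μ (Zc a b β hc) s₀ 0 n ≤ 1 := by
  have hZ := cop_sys hK μ hμ β hc
  obtain ⟨γ, A, hγ, hA, hb⟩ := Pool.Agent.OT.hop hK μ hμ hβ hc h0
  refine ⟨min γ 1, lt_min hγ one_pos, min_le_right _ _, ?_⟩
  have hs0 : 0 ≤ min γ 1 := (lt_min hγ one_pos).le
  have hs1 : min γ 1 ≤ 1 := min_le_right _ _
  have hA1 : 0 < A + 1 := by linarith
  refine CopH.le_one_of_super (fun n => aS_nonneg _ _ _ _ n) (aS_zero hZ _ _)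
    (fun m n => aS_mul hZ hs0 hs1 0 m n) hA1 (C := 1 + Real.exp A) (by positivity) ?_
  intro n hn
  have hn1 : (1:ℝ) ≤ n := by exact_mod_cast hn
  have hlog : 0 ≤ Real.log n := Real.log_nonneg hn1
  obtain ⟨hint, hlg⟩ := hb n hn
  have hZe : Zc a b β hc 0 n = fun ω => Zr a b n (en β hc ω) := by
    funext ω
    unfold Zc
    rw [sub_zero]
  have hpos : ∀ ω : ℕ → ℝ, 0 < Zr a b n (en β hc ω) := fun ω =>
    Pool.Agent.OT.Zr_pos hK n _
  -- the moment of order `γ`
  have hI : ∫ ω, Zr a b n (en β hc ω) ^ γ ∂seqLaw μ ≤ Real.exp (A * (1 + Real.log n)) := by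
    rcases le_or_gt (∫ ω, Zr a b n (en β hc ω) ^ γ ∂seqLaw μ) 0 with h | h
    · exact h.trans (Real.exp_pos _).le
    · exact (Real.log_le_iff_le_exp h).1 hlg
  have hI0 : 0 ≤ ∫ ω, Zr a b n (en β hc ω) ^ γ ∂seqLaw μ :=
    integral_nonneg fun ω => Real.rpow_nonneg (hpos ω).le _
  have h3 : mom μ (min γ 1) (Zc a b β hc 0 n) ≤
      ENNReal.ofReal (1 + Real.exp (A * (1 + Real.log n))) := by
    rw [ENNReal.ofReal_add zero_le_one (Real.exp_pos _).le, ENNReal.ofReal_one, hZe]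
    unfold mom
    have h4 : ∀ ω : ℕ → ℝ, ENNReal.ofReal (Zr a b n (en β hc ω)) ^ (min γ 1) ≤
        1 + ENNReal.ofReal (Zr a b n (en β hc ω) ^ γ) := by
      intro ω
      rw [ENNReal.ofReal_rpow_of_pos (hpos ω)]
      rcases le_or_gt (Zr a b n (en β hc ω)) 1 with h | h
      · refine le_trans ?_ le_self_add
        rw [← ENNReal.ofReal_one]
        exact ENNReal.ofReal_le_ofReal (Real.rpow_le_one (hpos ω).le h hs0)
      · refine le_trans ?_ le_add_self
        exact ENNReal.ofReal_le_ofReal (Real.rpow_le_rpow_of_exponent_le h.le (min_le_left _ _))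
    refine (lintegral_mono h4).trans ?_
    rw [lintegral_add_left measurable_const]
    refine add_le_add (by simp) ?_
    rw [← ofReal_integral_eq_lintegral_ofReal hint
      (ae_of_all _ fun ω => Real.rpow_nonneg (hpos ω).le _)]
    exact ENNReal.ofReal_le_ofReal hI
  have h5 : aS μ (Zc a b β hc) (min γ 1) 0 n ≤ 1 + Real.exp (A * (1 + Real.log n)) :=
    ENNReal.toReal_le_of_le_ofReal (by positivity) h3
  have h6 : Real.exp (A * (1 + Real.log n)) = Real.exp A * Real.exp (A * Real.log n) := by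
    rw [← Real.exp_add]; congr 1; ring
  have h7 : Real.exp (A * Real.log n) ≤ Real.exp ((A + 1) * Real.log n) :=
    Real.exp_le_exp.2 (by nlinarith)
  have h8 : 1 ≤ Real.exp ((A + 1) * Real.log n) := Real.one_le_exp (by positivity)
  have h9 : Real.exp A * Real.exp (A * Real.log n) ≤
      Real.exp A * Real.exp ((A + 1) * Real.log n) :=
    mul_le_mul_of_nonneg_left h7 (Real.exp_pos _).le
  rw [h6] at h5
  calc _ ≤ _ := h5
    _ ≤ Real.exp ((A + 1) * Real.log n) + Real.exp A * Real.exp ((A + 1) * Real.log n) :=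
        add_le_add h8 h9
    _ = _ := by ring

/-- `E Z_n ≥ b_n exp (2 n (lmg β - hc))` and `b_n ≥ c n ^ (-e)` -/
theorem cop_h1 (hK : KerOK a b) (μ : Measure ℝ) [IsProbabilityMeasure μ] (hμ : ExpMom μ) {β hc : ℝ}
    (h : hc < lmg μ β) : ∃ n, 1 < aS μ (Zc a b β hc) 1 0 n := by
  have hZ := cop_sys hK μ hμ β hc
  obtain ⟨c', e, hc', he, hlow⟩ := Pool.Agent.OT.SupAux.log_low hK.b_low
  have hT := Pool.Agent.OT.SupAux.tendsto_log_div c' e
  have hδ : 0 < lmg μ β - hc := by linarith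
  obtain ⟨n, hn1, hn2⟩ := ((hT.eventually_const_lt (u := -(lmg μ β - hc)) (by linarith)).and
    (eventually_ge_atTop 1)).exists
  refine ⟨n, ?_⟩
  have hn0 : (0:ℝ) < n := by exact_mod_cast hn2
  rw [lt_div_iff₀ (by positivity)] at hn1
  have hb0 : 0 < b n := hK.b_pos n hn2
  have hZe : Zc a b β hc 0 n = fun ω => Zr a b n (en β hc ω) := by
    funext ω
    unfold Zc
    rw [sub_zero]
  have h1 : ENNReal.ofReal (b n * Real.exp (lmg μ β - hc) ^ (2 * n)) ≤
      mom μ 1 (Zc a b β hc 0 n) := by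
    rw [hZe]
    refine le_trans (le_of_eq ?_) (MP_daa227_pr.mom_mono zero_le_one
      (fun ω => Pool.Agent.OT.SupAux.b_le_Zr hK hn2 (en β hc ω)))
    rw [MP_daa227_pr.mom_const_mul zero_le_one hb0.le
      (Finset.measurable_sum _ fun i _ => Pool.Agent.OT.X1.meas_en β hc i).exp,
      Pool.Agent.OT.X1.mom_block hμ β hc zero_le_one, Pool.Agent.OT.X1.qq_eq hμ, one_mul, one_mul,
      ENNReal.rpow_one, ENNReal.ofReal_mul hb0.le, ENNReal.ofReal_pow (Real.exp_pos _).le]
  have h2 := ENNReal.toReal_mono (hZ.fin 1 zero_le_one le_rfl 0 n) h1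
  rw [ENNReal.toReal_ofReal (by positivity)] at h2
  refine lt_of_lt_of_le ?_ h2
  rw [← Real.log_pos_iff (by positivity), Real.log_mul hb0.ne' (by positivity), Real.log_pow,
    Real.log_exp]
  have h3 := hlow n hn2
  push_cast
  linarith

end

end Pool.Agent.IOrd
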