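import Mathlib
import Pool.Agent.Lib.MP_daa227_pr_IO.Defs

/-!
# MP_daa227_pr: infinite order. Small up to a long length implies small.
-/

namespace Pool.Agent.IOrd

open MeasureTheory ProbabilityTheory Finset Filter Topology
open MP_daa227_pr (shift seqLaw ExpMom DepOn mom)

noncomputable section


/-- Strong induction. `N ≤ m₀`: clear. `N > m₀`: use `hS` with `m = m₀ - R`, so that
`range (m + R + 1) = range (m₀ + 1)` and `∑ u f ≤ 2 (m₀ + 1)`, and
`range (N - m + R) = range (N - m₀ + 2 R)`, whose elements `j` are `< N` (`2 R < m₀`), so `u j ≤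
2 exp (g / 2 * j)` and the geometric sum is at most
`2 exp (g / 2 * (N - m₀ + 2 R)) / (exp (g / 2) - 1)`; conclude with `hm`. -/
theorem crowd {u : ℕ → ℝ} (h0 : ∀ n, 0 ≤ u n) {C g : ℝ} (hC : 0 ≤ C) (hg : 0 < g) {m₀ R : ℕ}
    (hR : 2 * R < m₀)
    (hS : ∀ m N, m < N → u N ≤ C * (∑ f ∈ range (m + R + 1), u f) * ∑ j ∈ range (N - m + R), u j)
    (h2 : ∀ i ≤ m₀, u i ≤ 2)
    (hm : 2 * C * (m₀ + 1) * Real.exp (-(g / 2 * (m₀ - 2 * R))) ≤ Real.exp (g / 2) - 1) (N : ℕ) :
    u N ≤ 2 * Real.exp (g / 2 * N) := by
  induction N using Nat.strong_induction_on with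
  | _ N ih =>
    rcases le_or_gt N m₀ with hN | hN
    · have h1 : (1 : ℝ) ≤ Real.exp (g / 2 * N) := Real.one_le_exp (by positivity)
      linarith [h2 N hN]
    · have h1 := hS (m₀ - R) N (by omega)
      have e1 : m₀ - R + R + 1 = m₀ + 1 := by omega
      have e2 : N - (m₀ - R) + R = N - m₀ + 2 * R := by omega
      rw [e1, e2] at h1
      set M := N - m₀ + 2 * R with hM
      have hMN : M < N := by omega
      set x := Real.exp (g / 2) with hx
      have hx1 : 1 < x := Real.one_lt_exp_iff.2 (by positivity)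
      have s1 : ∑ f ∈ range (m₀ + 1), u f ≤ 2 * (m₀ + 1) := by
        have h3 : ∑ f ∈ range (m₀ + 1), u f ≤ ∑ f ∈ range (m₀ + 1), (2 : ℝ) :=
          Finset.sum_le_sum fun i hi => h2 i (by
            have := Finset.mem_range.1 hi
            omega)
        rw [Finset.sum_const, Finset.card_range, nsmul_eq_mul] at h3
        push_cast at h3
        linarith
      have s2 : ∑ j ∈ range M, u j ≤ 2 * x ^ M / (x - 1) := by
        have h3 : ∑ j ∈ range M, u j ≤ ∑ j ∈ range M, 2 * x ^ j := by
          refine Finset.sum_le_sum fun j hj => ?_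
          have h4 := ih j (by
            have := Finset.mem_range.1 hj
            omega)
          have h5 : Real.exp (g / 2 * j) = x ^ j := by
            rw [hx, ← Real.exp_nat_mul]
            congr 1
            ring
          rwa [h5] at h4
        rw [← Finset.mul_sum, geom_sum_eq hx1.ne'] at h3
        refine h3.trans ?_
        rw [← mul_div_assoc]
        have h6 : 0 < x - 1 := by linarith
        gcongr
        linarith
      have p1 : 0 ≤ ∑ j ∈ range M, u j := Finset.sum_nonneg fun j _ => h0 j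
      have p2 : 0 ≤ ∑ f ∈ range (m₀ + 1), u f := Finset.sum_nonneg fun j _ => h0 j
      have h6 : 0 < x - 1 := by linarith
      have h7 : u N ≤ C * (2 * (m₀ + 1)) * (2 * x ^ M / (x - 1)) := by
        refine h1.trans ?_
        gcongr
      have h8 : x ^ M = Real.exp (g / 2 * N) * Real.exp (-(g / 2 * (m₀ - 2 * R))) := by
        rw [hx, ← Real.exp_nat_mul, ← Real.exp_add]
        congr 1
        have h9 : (M : ℝ) = N - m₀ + 2 * R := by
          rw [hM]
          push_cast [Nat.cast_sub hN.le]
          ring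
        rw [h9]
        ring
      refine h7.trans ?_
      have h10 : C * (2 * (m₀ + 1)) * (2 * x ^ M / (x - 1)) =
          2 * Real.exp (g / 2 * N) *
            ((2 * C * (m₀ + 1) * Real.exp (-(g / 2 * (m₀ - 2 * R)))) / (x - 1)) := by
        rw [h8]
        ring
      rw [h10]
      have h11 : (2 * C * (m₀ + 1) * Real.exp (-(g / 2 * (m₀ - 2 * R)))) / (x - 1) ≤ 1 := by
        rw [div_le_one h6]
        exact hm
      have h12 : 0 ≤ 2 * Real.exp (g / 2 * N) := by positivity
      calc _ ≤ 2 * Real.exp (g / 2 * N) * 1 := mul_le_mul_of_nonneg_left h11 h12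
        _ = _ := mul_one _

end

end Pool.Agent.IOrd
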