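import Mathlib
import Pool.Agent.Lib.MP_daa227_pr_IO.Defs
import Pool.Agent.Lib.MP_daa227_pr_IO.Basic

/-!
# MP_daa227_pr: infinite order. The choice of the exponents.
-/

namespace Pool.Agent.IOrd

open MeasureTheory ProbabilityTheory Finset Filter Topology
open MP_daa227_pr (shift seqLaw ExpMom DepOn mom)

noncomputable section

variable {μ : Measure ℝ} [IsProbabilityMeasure μ] {Z : ℝ → ℕ → (ℕ → ℝ) → ℝ} {w : ℕ}


/-- Let `η > 0` be small, `(1 + η) ^ 3 (1 - ε) ≤ 1`. Let `k ≥ 1` be minimal such that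
`s₀ (1 + η) ^ k > 1` or `∃ n, 1 < aS (s₀ (1 + η) ^ k) 0 n`. `s₂ = s₀ (1 + η) ^ (k - 1)`,
`s'' = min 1 (s₀ (1 + η) ^ k)`, `s' = s₂ (1 + η) ^ 2`, `s = s₂ / (1 + η)`, `s₁` between `s` and `s₂`. -/
theorem exponents (hZ : Sys w μ Z) (h0 : ∃ s₀, 0 < s₀ ∧ s₀ ≤ 1 ∧ ∀ n, aS μ Z s₀ 0 n ≤ 1)
    (h1 : ∃ n, 1 < aS μ Z 1 0 n) {ε : ℝ} (hε : 0 < ε) :
    ∃ s s₁ s₂ s'' s' : ℝ, 0 < s ∧ s < s₁ ∧ s₁ < s₂ ∧ s₂ ≤ 1 ∧ (∀ n, aS μ Z s₂ 0 n ≤ 1) ∧
      0 < s'' ∧ s'' ≤ 1 ∧ s'' < s' ∧ s < s' ∧ (∃ n, 1 < aS μ Z s'' 0 n) ∧ 1 - s / s' ≤ ε := by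
  classical
  obtain ⟨s₀, hs₀, hs₀1, hP⟩ := h0
  obtain ⟨η, hη, hη1, hηε⟩ : ∃ η : ℝ, 0 < η ∧ η ≤ 1 ∧ 7 * η ≤ ε :=
    ⟨min 1 (ε / 7), lt_min one_pos (by positivity), min_le_left _ _, by
      have := min_le_right 1 (ε / 7)
      linarith⟩
  have hb : 1 < 1 + η := by linarith
  have hcube : (1 - ε) * (1 + η) ^ 3 ≤ 1 := by
    rcases le_or_gt ε 1 with h | h
    · have e1 : (1 + η) ^ 3 ≤ 1 + 7 * η := by nlinarith [mul_nonneg hη.le (sub_nonneg.mpr hη1)]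
      have e2 : (1 - ε) * (1 + η) ^ 3 ≤ (1 - ε) * (1 + 7 * η) :=
        mul_le_mul_of_nonneg_left e1 (by linarith)
      nlinarith [mul_pos hη hε]
    · have e1 : (1 - ε) * (1 + η) ^ 3 ≤ 0 :=
        mul_nonpos_of_nonpos_of_nonneg (by linarith) (by positivity)
      linarith
  let Q : ℕ → Prop := fun k =>
    1 < s₀ * (1 + η) ^ (k + 1) ∨ ∃ n, 1 < aS μ Z (s₀ * (1 + η) ^ (k + 1)) 0 n
  have hex : ∃ k, Q k := by
    obtain ⟨k, hk⟩ := pow_unbounded_of_one_lt (1 / s₀) hb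
    refine ⟨k, Or.inl ?_⟩
    have e1 : 1 < s₀ * (1 + η) ^ k := by
      rw [div_lt_iff₀ hs₀] at hk
      linarith
    have e2 : (1 + η) ^ k ≤ (1 + η) ^ (k + 1) := pow_le_pow_right₀ hb.le (Nat.le_succ k)
    have e3 := mul_le_mul_of_nonneg_left e2 hs₀.le
    linarith
  obtain ⟨k, hQ, hmin⟩ : ∃ k, Q k ∧ ∀ j < k, ¬ Q j :=
    ⟨Nat.find hex, Nat.find_spec hex, fun j hj => Nat.find_min hex hj⟩
  set s₂ : ℝ := s₀ * (1 + η) ^ k with hs₂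
  have hs₂pos : 0 < s₂ := by positivity
  have hs₂' : s₂ ≤ 1 ∧ ∀ n, aS μ Z s₂ 0 n ≤ 1 := by
    rcases Nat.eq_zero_or_pos k with hk | hk
    · have e1 : s₂ = s₀ := by rw [hs₂, hk, pow_zero, mul_one]
      rw [e1]
      exact ⟨hs₀1, hP⟩
    · have e1 := hmin (k - 1) (by omega)
      have e2 : k - 1 + 1 = k := by omega
      simp only [Q, e2, not_or, not_lt, not_exists] at e1
      exact e1
  have hstep : s₀ * (1 + η) ^ (k + 1) = s₂ * (1 + η) := by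
    rw [hs₂, pow_succ]
    ring
  have hgt : s₂ < s₂ * (1 + η) := by nlinarith
  have hgt2 : s₂ * (1 + η) < s₂ * (1 + η) ^ 2 := by nlinarith
  have hlt : s₂ / (1 + η) < s₂ := by
    rw [div_lt_iff₀ (by linarith)]
    exact hgt
  have hs''le : min 1 (s₂ * (1 + η)) < s₂ * (1 + η) ^ 2 :=
    lt_of_le_of_lt (min_le_right _ _) hgt2
  have hbad : ∃ n, 1 < aS μ Z (min 1 (s₂ * (1 + η))) 0 n := by
    rcases le_or_gt 1 (s₂ * (1 + η)) with h | h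
    · rw [min_eq_left h]
      exact h1
    · rw [min_eq_right h.le]
      have e1 : Q k := hQ
      simp only [Q, hstep] at e1
      rcases e1 with e1 | e1
      · linarith
      · exact e1
  refine ⟨s₂ / (1 + η), (s₂ / (1 + η) + s₂) / 2, s₂, min 1 (s₂ * (1 + η)), s₂ * (1 + η) ^ 2,
    by positivity, by linarith, by linarith, hs₂'.1, hs₂'.2,
    lt_min one_pos (by positivity), min_le_left _ _, hs''le, by linarith, hbad, ?_⟩
  have hp : (0 : ℝ) < (1 + η) ^ 3 := by positivity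
  have hq : s₂ / (1 + η) / (s₂ * (1 + η) ^ 2) = 1 / (1 + η) ^ 3 := by
    field_simp
  rw [hq]
  have h5 : 1 - ε ≤ 1 / (1 + η) ^ 3 := by
    rw [le_div_iff₀ hp]
    exact hcube
  linarith

end

end Pool.Agent.IOrd
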