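import Mathlib
import Pool.Agent.Lib.MP_daa227_pr_IO.Defs

/-!
# MP_daa227_pr: infinite order. A good level.
-/

namespace Pool.Agent.IOrd

open MeasureTheory ProbabilityTheory Finset Filter Topology
open MP_daa227_pr (shift seqLaw ExpMom DepOn mom)

noncomputable section

namespace GoodLevel

theorem delta {q s c t₀ : ℝ} (hq : 0 < q) (hs : 0 < s) (hc0 : 0 < c) (ht : 0 < t₀) :
    ∃ δ : ℝ, 0 < δ ∧ δ ≤ t₀ ^ 2 ∧ δ ≤ 1 ∧ 2 * δ ^ q ≤ s * c ^ (4 * q) := by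
  have hE : 0 < s * c ^ (4 * q) / 2 := by positivity
  refine ⟨min (t₀ ^ 2) (min 1 ((s * c ^ (4 * q) / 2) ^ q⁻¹)), ?_, min_le_left _ _,
    (min_le_right _ _).trans (min_le_left _ _), ?_⟩
  · exact lt_min (by positivity) (lt_min one_pos (Real.rpow_pos_of_pos hE _))
  · have h1 : min (t₀ ^ 2) (min 1 ((s * c ^ (4 * q) / 2) ^ q⁻¹)) ≤
        (s * c ^ (4 * q) / 2) ^ q⁻¹ := (min_le_right _ _).trans (min_le_right _ _)
    have h0 : 0 ≤ min (t₀ ^ 2) (min 1 ((s * c ^ (4 * q) / 2) ^ q⁻¹)) :=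
      le_min (by positivity) (le_min zero_le_one (Real.rpow_nonneg hE.le _))
    have h2 := Real.rpow_le_rpow h0 h1 hq.le
    rw [Real.rpow_inv_rpow hE.le hq.ne'] at h2
    linarith

end GoodLevel

/-- Proof. For `K ≥ 2`, `hfail` and `hF` give `d'` with `K d' ^ q < F d' ≤ 2 d'`, so `d' > 0`, `q > 1` and
`d' ^ (q - 1) < 2 / K`: `d'` is as small as we want (with `K ≥ 1` we also have
`s d' ^ q ≤ s F d' ≤ G d'`). Put `t_k = d' / c ^ k` and let `n` be maximal with `t_n ≤ √d'`, so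
`t_n > c √d'`. If `G (t_{k+1}) > c ^ (-4q) G (t_k)` for all `k < n`, then
`2 ≥ 2 t_n ≥ G (t_n) ≥ c ^ (-4 q n) G d' = (t_n / d') ^ (4q) G d' ≥ (c d' ^ (-1/2)) ^ (4q) s d' ^ q
= s c ^ (4q) d' ^ (-q)`, false for small `d'`. So some `k < n` works, `d = t_k`: `d' ≤ d ≤ √d' < t₀`,
`d / c = t_{k+1} ≤ t_n ≤ 1`, `s d ^ (2q) ≤ s d' ^ q ≤ G d' ≤ G d`. -/
theorem good_level {G F : ℝ → ℝ} {q s c : ℝ} (hq : 0 < q) (hs : 0 < s) (hc0 : 0 < c) (hc1 : c < 1)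
    (hmono : ∀ d d', 0 ≤ d → d ≤ d' → G d ≤ G d') (hG : ∀ d, 0 ≤ d → G d ≤ 2 * d)
    (hFG : ∀ d, 0 ≤ d → s * F d ≤ G d) (hF : ∀ d, 0 ≤ d → F d ≤ 2 * d)
    (hfail : ∀ K : ℝ, ∃ d, 0 ≤ d ∧ d ≤ 1 ∧ K * d ^ q < F d) (t₀ : ℝ) (ht : 0 < t₀) :
    ∃ d, 0 < d ∧ d < t₀ ∧ d / c ≤ 1 ∧ s * d ^ (2 * q) ≤ G d ∧
      G (d / c) ≤ c ^ (-(4 * q)) * G d := by
  obtain ⟨δ, hδ0, hδt, hδ1, hδE⟩ := GoodLevel.delta (t₀ := t₀) hq hs hc0 ht
  have hδq : 0 < δ ^ q := Real.rpow_pos_of_pos hδ0 q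
  obtain ⟨d', hd0, hd1, hd⟩ := hfail (2 / δ ^ q + 1)
  have hdpos : 0 < d' := by
    rcases hd0.lt_or_eq with h | h
    · exact h
    · exfalso
      rw [← h, Real.zero_rpow hq.ne', mul_zero] at hd
      have := hF 0 le_rfl
      linarith
  have hdq : 0 < d' ^ q := Real.rpow_pos_of_pos hdpos q
  have hlt : d' < δ := by
    by_contra hge
    have hge' : δ ≤ d' := not_lt.1 hge
    have h1 : δ ^ q ≤ d' ^ q := Real.rpow_le_rpow hδ0.le hge' hq.le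
    have h2 : 2 ≤ 2 / δ ^ q * d' ^ q := by
      rw [div_mul_eq_mul_div, le_div_iff₀ hδq]
      linarith
    have h3 := hF d' hd0
    nlinarith
  have hsG : s * d' ^ q ≤ G d' := by
    have h1 : d' ^ q ≤ F d' := by
      have h2 : 0 ≤ 2 / δ ^ q * d' ^ q := by positivity
      nlinarith
    exact (mul_le_mul_of_nonneg_left h1 hs.le).trans (hFG d' hd0)
  have hr0 : 0 < √d' := Real.sqrt_pos.2 hdpos
  have hr2 : √d' * √d' = d' := Real.mul_self_sqrt hd0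
  have hrt : √d' < t₀ := by
    have h1 : √d' < √(t₀ ^ 2) := Real.sqrt_lt_sqrt hd0 (lt_of_lt_of_le hlt hδt)
    rwa [Real.sqrt_sq ht.le] at h1
  have hr1 : √d' ≤ 1 := Real.sqrt_le_one.2 hd1
  have hrq : √d' ^ (4 * q) = (d' ^ q) ^ (2:ℕ) := by
    have h1 : √d' ^ (4 * q) = (√d' ^ (2:ℝ)) ^ (2 * q) := by
      rw [← Real.rpow_mul hr0.le]
      congr 1
      ring
    have h2 : √d' ^ (2:ℝ) = d' := by
      rw [Real.rpow_two, Real.sq_sqrt hd0]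
    rw [h1, h2, ← Real.rpow_natCast, ← Real.rpow_mul hd0]
    congr 1
    push_cast
    ring
  have hrq2 : √d' ^ (2 * q) = d' ^ q := by
    have h1 : √d' ^ (2 * q) = (√d' ^ (2:ℝ)) ^ q := Real.rpow_mul hr0.le _ _
    rw [h1, Real.rpow_two, Real.sq_sqrt hd0]
  by_contra hno
  have hy1 : 1 < c⁻¹ := (one_lt_inv₀ hc0).2 hc1
  have hy0 : 0 < c⁻¹ := inv_pos.2 hc0
  have hcy : c ^ (-(4 * q)) = c⁻¹ ^ (4 * q) := by
    rw [Real.rpow_neg hc0.le, Real.inv_rpow hc0.le]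
  have claim : ∀ k : ℕ, d' * c⁻¹ ^ k ≤ √d' →
      (c⁻¹ ^ k) ^ (4 * q) * (s * d' ^ q) ≤ G (d' * c⁻¹ ^ k) := by
    intro k
    induction k with
    | zero =>
      intro _
      rw [pow_zero, Real.one_rpow, one_mul, mul_one]
      exact hsG
    | succ k ih =>
      intro hk
      have hyk : 0 < c⁻¹ ^ k := pow_pos hy0 k
      have e1 : d' * c⁻¹ ^ (k + 1) = d' * c⁻¹ ^ k / c := by
        rw [pow_succ, div_eq_mul_inv]
        ring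
      have h1 : d' * c⁻¹ ^ k ≤ d' * c⁻¹ ^ (k + 1) :=
        mul_le_mul_of_nonneg_left (pow_le_pow_right₀ hy1.le (Nat.le_succ k)) hd0
      have h2 : d' * c⁻¹ ^ k ≤ √d' := h1.trans hk
      have h3 : 0 < d' * c⁻¹ ^ k := mul_pos hdpos hyk
      have h4 : d' ≤ d' * c⁻¹ ^ k := le_mul_of_one_le_right hd0 (one_le_pow₀ hy1.le)
      have h5 : s * (d' * c⁻¹ ^ k) ^ (2 * q) ≤ G (d' * c⁻¹ ^ k) := by
        have h6 : (d' * c⁻¹ ^ k) ^ (2 * q) ≤ √d' ^ (2 * q) :=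
          Real.rpow_le_rpow h3.le h2 (by positivity)
        rw [hrq2] at h6
        exact ((mul_le_mul_of_nonneg_left h6 hs.le).trans hsG).trans (hmono _ _ hd0 h4)
      have h7 : ¬ G (d' * c⁻¹ ^ k / c) ≤ c ^ (-(4 * q)) * G (d' * c⁻¹ ^ k) := by
        intro h8
        refine hno ⟨d' * c⁻¹ ^ k, h3, lt_of_le_of_lt h2 hrt, ?_, h5, h8⟩
        rw [← e1]
        exact hk.trans hr1
      have h9 := (not_le.1 h7).le
      have h10 : (c⁻¹ ^ (k + 1)) ^ (4 * q) = c ^ (-(4 * q)) * (c⁻¹ ^ k) ^ (4 * q) := by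
        rw [hcy, pow_succ, Real.mul_rpow hyk.le hy0.le, mul_comm]
      rw [h10, mul_assoc, e1]
      exact (mul_le_mul_of_nonneg_left (ih h2) (Real.rpow_nonneg hc0.le _)).trans h9
  have hx : 1 ≤ (√d')⁻¹ := (one_le_inv₀ hr0).2 hr1
  obtain ⟨n, hn1, hn2⟩ := exists_nat_pow_near hx hy1
  have htn : d' * c⁻¹ ^ n ≤ √d' := by
    calc d' * c⁻¹ ^ n ≤ d' * (√d')⁻¹ := mul_le_mul_of_nonneg_left hn1 hd0
      _ = √d' := by
        rw [← div_eq_mul_inv, div_eq_iff hr0.ne', hr2]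
  have h1 := claim n htn
  have h2 : G (d' * c⁻¹ ^ n) ≤ 2 := by
    have h3 : 0 ≤ d' * c⁻¹ ^ n := by positivity
    have h4 := hG _ h3
    linarith
  have h5 : c * (√d')⁻¹ ≤ c⁻¹ ^ n := by
    rw [pow_succ] at hn2
    have h6 : c * (√d')⁻¹ ≤ c * (c⁻¹ ^ n * c⁻¹) := mul_le_mul_of_nonneg_left hn2.le hc0.le
    have h7 : c * (c⁻¹ ^ n * c⁻¹) = c⁻¹ ^ n := by
      field_simp
    rwa [h7] at h6
  have h8 : (c * (√d')⁻¹) ^ (4 * q) ≤ (c⁻¹ ^ n) ^ (4 * q) :=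
    Real.rpow_le_rpow (by positivity) h5 (by positivity)
  have h9 : (c * (√d')⁻¹) ^ (4 * q) = c ^ (4 * q) * ((d' ^ q) ^ (2:ℕ))⁻¹ := by
    rw [Real.mul_rpow hc0.le (by positivity), Real.inv_rpow hr0.le, hrq]
  rw [h9] at h8
  have h10 : c ^ (4 * q) * ((d' ^ q) ^ (2:ℕ))⁻¹ * (s * d' ^ q) ≤ 2 :=
    (mul_le_mul_of_nonneg_right h8 (by positivity)).trans (h1.trans h2)
  have h11 : c ^ (4 * q) * ((d' ^ q) ^ (2:ℕ))⁻¹ * (s * d' ^ q) = s * c ^ (4 * q) / d' ^ q := by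
    field_simp
  rw [h11, div_le_iff₀ hdq] at h10
  have h12 : d' ^ q < δ ^ q := Real.rpow_lt_rpow hd0 hlt hq
  linarith

end

end Pool.Agent.IOrd
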