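import Mathlib
import Pool.Agent.Lib.MP_daa227_pr_IO.Defs

/-!
# MP_daa227_pr: infinite order. Level transfer.
-/

namespace Pool.Agent.IOrd

open MeasureTheory ProbabilityTheory Finset Filter Topology
open MP_daa227_pr (shift seqLaw ExpMom DepOn mom)

noncomputable section

variable {μ : Measure ℝ} [IsProbabilityMeasure μ] {Z : ℝ → ℕ → (ℕ → ℝ) → ℝ} {w : ℕ}

theorem level_const {s s₁ s₂ : ℝ} (hs : 0 < s) (h1 : s < s₁) (h2 : s₁ < s₂) :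
    0 < s * (s₂ - s₁) / (s₁ * (s₂ - s)) ∧ s * (s₂ - s₁) / (s₁ * (s₂ - s)) < 1 := by
  have hs1 : 0 < s₁ := hs.trans h1
  have hp : 0 < s₁ * (s₂ - s) := mul_pos hs1 (by linarith)
  refine ⟨div_pos (mul_pos hs (by linarith)) hp, ?_⟩
  rw [div_lt_one hp]
  nlinarith [mul_pos (sub_pos.2 h1) (hs1.trans h2)]

namespace LevelT

omit [IsProbabilityMeasure μ] in
/-- Hoelder for fractional moments -/
theorem mom_holder {F G H : (ℕ → ℝ) → ℝ} (hF : Measurable F) (hG : Measurable G)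
    (hF0 : ∀ ω, 0 < F ω) (hG0 : ∀ ω, 0 < G ω) {s s₁ s₂ c p q : ℝ} (hs1 : 0 ≤ s₁)
    (hpq : p.HolderConjugate q) (hp : (1 - c) * s₁ * p = s₂) (hq : c * s₁ * q = s)
    (hH : ∀ ω, H ω ≤ F ω ^ (1 - c) * G ω ^ c) :
    mom μ s₁ H ≤ mom μ s₂ F ^ (1 / p) * mom μ s G ^ (1 / q) := by
  have h1 := ENNReal.lintegral_mul_le_Lp_mul_Lq (seqLaw μ) hpq
    (f := fun ω => ENNReal.ofReal (F ω) ^ ((1 - c) * s₁))
    (g := fun ω => ENNReal.ofReal (G ω) ^ (c * s₁))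
    ((hF.ennreal_ofReal).pow_const _).aemeasurable ((hG.ennreal_ofReal).pow_const _).aemeasurable
  have e1 : ∀ ω, (ENNReal.ofReal (F ω) ^ ((1 - c) * s₁)) ^ p = ENNReal.ofReal (F ω) ^ s₂ := by
    intro ω
    rw [← ENNReal.rpow_mul, hp]
  have e2 : ∀ ω, (ENNReal.ofReal (G ω) ^ (c * s₁)) ^ q = ENNReal.ofReal (G ω) ^ s := by
    intro ω
    rw [← ENNReal.rpow_mul, hq]
  simp only [e1, e2] at h1
  refine le_trans ?_ h1
  unfold mom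
  apply lintegral_mono
  intro ω
  have h2 : ENNReal.ofReal (H ω) ≤ ENNReal.ofReal (F ω) ^ (1 - c) * ENNReal.ofReal (G ω) ^ c := by
    rw [ENNReal.ofReal_rpow_of_pos (hF0 ω), ENNReal.ofReal_rpow_of_pos (hG0 ω),
      ← ENNReal.ofReal_mul (Real.rpow_nonneg (hF0 ω).le _)]
    exact ENNReal.ofReal_le_ofReal (hH ω)
  calc ENNReal.ofReal (H ω) ^ s₁
      ≤ (ENNReal.ofReal (F ω) ^ (1 - c) * ENNReal.ofReal (G ω) ^ c) ^ s₁ :=
        ENNReal.rpow_le_rpow h2 hs1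
    _ = ENNReal.ofReal (F ω) ^ ((1 - c) * s₁) * ENNReal.ofReal (G ω) ^ (c * s₁) := by
        rw [ENNReal.mul_rpow_of_nonneg _ _ hs1, ← ENNReal.rpow_mul, ← ENNReal.rpow_mul]

end LevelT

/-- level transfer (Hoelder): with `c = s (s₂ - s₁) / (s₁ (s₂ - s))` in `(0, 1)`,
`Z_{c d} ^ s₁ ≤ Z_0 ^ ((1 - c) s₁) Z_d ^ (c s₁)` (`hZ.conv`), Hoelder with the exponents
`P = s₂ / ((1 - c) s₁)` and its conjugate `P' = (s₂ - s) / (s₂ - s₁)`, `c s₁ P' = s`, gives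
`E Z_{c d} ^ s₁ ≤ (E Z_0 ^ s₂) ^ (1 / P) (E Z_d ^ s) ^ (1 / P')`. -/
theorem aS_level (hZ : Sys w μ Z) {s s₁ s₂ : ℝ} (hs : 0 < s) (h1 : s < s₁) (h2 : s₁ < s₂)
    (h3 : s₂ ≤ 1) {d : ℝ} (hd : 0 ≤ d) (n : ℕ) (h : aS μ Z s₂ 0 n ≤ 1) :
    aS μ Z s₁ (s * (s₂ - s₁) / (s₁ * (s₂ - s)) * d) n ≤ max 1 (aS μ Z s d n) := by
  obtain ⟨hc0, hc1⟩ := level_const hs h1 h2
  have hs1 : 0 < s₁ := hs.trans h1
  have ha : s₁ - s ≠ 0 := by linarith
  have hb : s₂ - s₁ ≠ 0 := by linarith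
  have hab : s₂ - s ≠ 0 := by linarith
  have hpq : ((s₂ - s) / (s₁ - s)).HolderConjugate ((s₂ - s) / (s₂ - s₁)) := by
    rw [Real.holderConjugate_iff]
    refine ⟨?_, ?_⟩
    · rw [one_lt_div (by linarith)]
      linarith
    · rw [inv_div, inv_div]
      field_simp
      ring
  have hp : (1 - s * (s₂ - s₁) / (s₁ * (s₂ - s))) * s₁ * ((s₂ - s) / (s₁ - s)) = s₂ := by
    field_simp
    ring
  have hq : s * (s₂ - s₁) / (s₁ * (s₂ - s)) * s₁ * ((s₂ - s) / (s₂ - s₁)) = s := by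
    field_simp
  have key := LevelT.mom_holder (μ := μ) (hZ.meas 0 n) (hZ.meas d n) (hZ.pos 0 n) (hZ.pos d n)
    hs1.le hpq hp hq (fun ω => hZ.conv d _ n ω hd hc0.le hc1.le)
  have hf2 := hZ.fin s₂ (by linarith) h3 0 n
  have hf := hZ.fin s hs.le (by linarith) d n
  have h4 : mom μ s₂ (Z 0 n) ≤ 1 := by
    have h5 : ENNReal.ofReal (mom μ s₂ (Z 0 n)).toReal ≤ ENNReal.ofReal 1 :=
      ENNReal.ofReal_le_ofReal h
    rwa [ENNReal.ofReal_toReal hf2, ENNReal.ofReal_one] at h5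
  have h5 : mom μ s₂ (Z 0 n) ^ (1 / ((s₂ - s) / (s₁ - s))) ≤ 1 :=
    ENNReal.rpow_le_one h4 (one_div_nonneg.2 hpq.nonneg)
  have h6 : mom μ s (Z d n) ^ (1 / ((s₂ - s) / (s₂ - s₁))) ≤ max 1 (mom μ s (Z d n)) := by
    calc mom μ s (Z d n) ^ (1 / ((s₂ - s) / (s₂ - s₁)))
        ≤ (max 1 (mom μ s (Z d n))) ^ (1 / ((s₂ - s) / (s₂ - s₁))) :=
          ENNReal.rpow_le_rpow (le_max_right _ _) (one_div_nonneg.2 hpq.symm.nonneg)
      _ ≤ (max 1 (mom μ s (Z d n))) ^ (1 : ℝ) := by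
          apply ENNReal.rpow_le_rpow_of_exponent_le (le_max_left _ _)
          rw [div_le_one hpq.symm.pos]
          exact hpq.symm.lt.le
      _ = _ := ENNReal.rpow_one _
  have h7 : mom μ s₁ (Z (s * (s₂ - s₁) / (s₁ * (s₂ - s)) * d) n) ≤ max 1 (mom μ s (Z d n)) := by
    refine key.trans ?_
    calc _ ≤ 1 * max 1 (mom μ s (Z d n)) := mul_le_mul' h5 h6
      _ = _ := one_mul _
  have h8 : max 1 (mom μ s (Z d n)) ≠ ⊤ := by
    rw [Ne, max_eq_top]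
    rintro (h9 | h9)
    · exact ENNReal.one_ne_top h9
    · exact hf h9
  have h9 := ENNReal.toReal_mono h8 h7
  rw [ENNReal.toReal_max ENNReal.one_ne_top hf, ENNReal.toReal_one] at h9
  exact h9

end

end Pool.Agent.IOrd
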