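import Mathlib
import Pool.Agent.Lib.MP_daa227_pr_IO.Defs

/-!
# MP_daa227_pr: infinite order. Choice of the length.
-/

namespace Pool.Agent.IOrd

open MeasureTheory ProbabilityTheory Finset Filter Topology
open MP_daa227_pr (shift seqLaw ExpMom DepOn mom)

noncomputable section

namespace Choice

/-- the maximum of `u i`, `i ≤ n` -/
def top (u : ℕ → ℝ) (n : ℕ) : ℝ := (range (n + 1)).sup' ⟨0, by simp⟩ u

lemma le_top (u : ℕ → ℝ) {i n : ℕ} (h : i ≤ n) : u i ≤ top u n :=
  le_sup' u (mem_range.2 (Nat.lt_succ_of_le h))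

lemma exists_top (u : ℕ → ℝ) (n : ℕ) : ∃ i ≤ n, u i = top u n := by
  obtain ⟨i, hi, h⟩ := exists_mem_eq_sup' (s := range (n + 1)) ⟨0, by simp⟩ u
  exact ⟨i, Nat.lt_succ_iff.1 (mem_range.1 hi), h.symm⟩

lemma top_mono (u : ℕ → ℝ) {m n : ℕ} (h : m ≤ n) : top u m ≤ top u n := by
  obtain ⟨i, hi, h1⟩ := exists_top u m
  rw [← h1]
  exact le_top u (hi.trans h)

end Choice

/-- Let `A n = max_{i ≤ n} u i`. If `A (m₀ + (j + 1) l) > e A (m₀ + j l)` for all `j < J` then
`2 e ^ J < A (m₀ + J l) ≤ exp (g (m₀ + J l)) ≤ exp (g m₀ + J / 2)`, so `J < 2 g m₀`, contradiction.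
So some `j < J` has `A (m + l) ≤ e A m` with `m = m₀ + j l`; `i₀` is a point of `[0, m]` where
`u` is maximal. -/
theorem choice {u : ℕ → ℝ} {g : ℝ} (hg : 0 < g) (hu : ∀ n : ℕ, u n ≤ Real.exp (g * n)) {m₀ l J : ℕ}
    (h2 : ∃ i ≤ m₀, 2 < u i) (hl : g * l ≤ 1 / 2) (hJ : 2 * g * m₀ + 1 ≤ J) (hJl : J * l ≤ m₀) :
    ∃ m i₀ : ℕ, i₀ ≤ m ∧ m + l ≤ 2 * m₀ ∧ 2 < u i₀ ∧ ∀ i ≤ m + l, u i ≤ Real.exp 1 * u i₀ := by
  have hA0 : 2 < Choice.top u m₀ := by
    obtain ⟨i, hi, h⟩ := h2
    exact h.trans_le (Choice.le_top u hi)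
  have key : ∃ j < J, Choice.top u (m₀ + (j + 1) * l) ≤ Real.exp 1 * Choice.top u (m₀ + j * l) := by
    by_contra hcon
    push Not at hcon
    have h1 : ∀ j ≤ J, 2 * Real.exp j < Choice.top u (m₀ + j * l) := by
      intro j
      induction j with
      | zero =>
        intro _
        simpa using hA0
      | succ j ih =>
        intro hj
        have h3 := ih (Nat.le_of_succ_le hj)
        have h4 := hcon j hj
        have h5 : Real.exp ((j + 1 : ℕ) : ℝ) = Real.exp 1 * Real.exp j := by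
          rw [← Real.exp_add]
          congr 1
          push_cast
          ring
        have h6 := mul_lt_mul_of_pos_left h3 (Real.exp_pos 1)
        rw [h5]
        linarith
    have h3 := h1 J le_rfl
    obtain ⟨i, hi, h4⟩ := Choice.exists_top u (m₀ + J * l)
    have h5 := hu i
    have hi' : (i : ℝ) ≤ m₀ + J * l := by exact_mod_cast hi
    have h6 : Real.exp (g * i) ≤ Real.exp (g * m₀ + J * (g * l)) := by
      apply Real.exp_le_exp.2
      have := mul_le_mul_of_nonneg_left hi' hg.le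
      linarith
    have h7 : Real.exp (g * m₀ + J * (g * l)) ≤ Real.exp (g * m₀ + J / 2) := by
      apply Real.exp_le_exp.2
      have := mul_le_mul_of_nonneg_left hl (Nat.cast_nonneg (α := ℝ) J)
      linarith
    have h8 : Real.exp (J : ℝ) < Real.exp (g * m₀ + J / 2) := by
      have h9 := Real.exp_pos (J : ℝ)
      linarith
    have h9 := Real.exp_lt_exp.1 h8
    linarith
  obtain ⟨j, hj, h3⟩ := key
  obtain ⟨i₀, hi₀, h4⟩ := Choice.exists_top u (m₀ + j * l)
  have h5 : m₀ + j * l + l = m₀ + (j + 1) * l := by ring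
  refine ⟨m₀ + j * l, i₀, hi₀, ?_, ?_, ?_⟩
  · have h6 : (j + 1) * l ≤ J * l := Nat.mul_le_mul_right l hj
    rw [h5]
    omega
  · rw [h4]
    exact hA0.trans_le (Choice.top_mono u (Nat.le_add_right _ _))
  · intro i hi
    rw [h4]
    rw [h5] at hi
    exact (Choice.le_top u hi).trans h3

end

end Pool.Agent.IOrd
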