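import Mathlib
import Pool.Agent.Lib.MP_daa227_pr_IO.Defs

/-!
# MP_daa227_pr: infinite order. The numbers, second part.
-/

namespace Pool.Agent.IOrd

open MeasureTheory ProbabilityTheory Finset Filter Topology
open MP_daa227_pr (shift seqLaw ExpMom DepOn mom)

noncomputable section


namespace NumB

theorem tend (A B E : ℝ) :
    Tendsto (fun x : ℝ => (A + B * x + E * x ^ 2) * Real.exp (-x)) atTop (𝓝 0) := by
  have h0 := (Real.tendsto_pow_mul_exp_neg_atTop_nhds_zero 0).const_mul A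
  have h1 := (Real.tendsto_pow_mul_exp_neg_atTop_nhds_zero 1).const_mul B
  have h2 := (Real.tendsto_pow_mul_exp_neg_atTop_nhds_zero 2).const_mul E
  have h3 := (h0.add h1).add h2
  simp only [mul_zero, add_zero] at h3
  refine h3.congr fun x => ?_
  ring

end NumB

/-- All inequalities hold for small `g`, because
`8 log (1 / g) / g ≤ m₀ ≤ 8 log (1 / g) / g + 1`. -/
theorem small_g {C D : ℝ} (hC : 0 ≤ C) (hD : 0 ≤ D) (R l₀ : ℕ) :
    ∃ g₀ : ℝ, 0 < g₀ ∧ g₀ ≤ 1 ∧ ∀ (g : ℝ) (m₀ : ℕ), 0 < g → g < g₀ →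
      m₀ = ⌈8 * Real.log (1 / g) / g⌉₊ →
      2 * R < m₀ ∧ Real.log (2 * m₀) ≤ 2 * Real.log (1 / g) ∧ g * m₀ ≤ 8 * Real.log (1 / g) + 1 ∧
      2 * C * (m₀ + 1) * Real.exp (-(g / 2 * (m₀ - 2 * R))) ≤ Real.exp (g / 2) - 1 ∧
      ∀ l : ℕ, (l : ℝ) ≤ l₀ * (1 + D * Real.log (2 * m₀)) →
        g * (l + R : ℕ) ≤ 1 / 2 ∧ (⌈2 * g * m₀⌉₊ + 1) * (l + R) ≤ m₀ := by
  have k1 := (NumB.tend 2 16 0).eventually_le_const (u := 1) one_pos
  have k2 := (NumB.tend (8 * C * Real.exp R) (32 * C * Real.exp R) 0).eventually_le_const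
    (u := 1) one_pos
  have k3 := (NumB.tend (l₀ + R) (2 * l₀ * D) 0).eventually_le_const (u := 1 / 2) one_half_pos
  have k4 := (NumB.tend (4 * (l₀ + R)) (16 * (l₀ + R) + 8 * l₀ * D)
    (32 * l₀ * D)).eventually_le_const (u := 8) (by norm_num)
  obtain ⟨X, hX⟩ := eventually_atTop.1
    ((((k1.and k2).and k3).and k4).and (eventually_ge_atTop (R + 1 : ℝ)))
  refine ⟨min 1 (Real.exp (-X)), lt_min one_pos (Real.exp_pos _), min_le_left _ _, ?_⟩
  intro g m₀ hg hg₀ hm₀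
  have hg1 : g < 1 := hg₀.trans_le (min_le_left _ _)
  have hgX : g < Real.exp (-X) := hg₀.trans_le (min_le_right _ _)
  set x := Real.log (1 / g) with hx
  have hx' : x = -Real.log g := by rw [hx, one_div, Real.log_inv]
  have hgx : Real.exp (-x) = g := by rw [hx', neg_neg, Real.exp_log hg]
  have hXx : X ≤ x := by
    rw [hx']
    have h1 : Real.log g ≤ -X := (Real.log_le_iff_le_exp hg).2 hgX.le
    linarith
  obtain ⟨⟨⟨⟨c1, c2⟩, c3⟩, c4⟩, c5⟩ := hX x hXx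
  rw [hgx] at c1 c2 c3 c4
  have hR0 : (0 : ℝ) ≤ R := Nat.cast_nonneg R
  have hl0 : (0 : ℝ) ≤ l₀ := Nat.cast_nonneg l₀
  have hx1 : 1 ≤ x := by linarith
  have hx0 : 0 < x := by linarith
  -- the size of `m₀`
  have m1 : 8 * x / g ≤ m₀ := by
    rw [hm₀]
    exact Nat.le_ceil _
  have m2 : (m₀ : ℝ) < 8 * x / g + 1 := by
    rw [hm₀]
    exact Nat.ceil_lt_add_one (by positivity)
  have m1' : 8 * x ≤ g * m₀ := by
    rw [div_le_iff₀ hg] at m1
    linarith
  have m2' : g * m₀ ≤ 8 * x + g := by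
    have h1 : g * m₀ ≤ g * (8 * x / g + 1) := mul_le_mul_of_nonneg_left m2.le hg.le
    have h2 : g * (8 * x / g + 1) = 8 * x + g := by
      field_simp
    linarith
  have m3 : g * m₀ ≤ 8 * x + 1 := by linarith
  have m4 : 8 * x ≤ m₀ := by
    have h1 : g * m₀ ≤ 1 * m₀ := mul_le_mul_of_nonneg_right hg1.le (Nat.cast_nonneg _)
    linarith
  have m0 : (0 : ℝ) < m₀ := by linarith
  have hlog : Real.log (2 * m₀) ≤ 2 * x := by
    rw [Real.log_le_iff_le_exp (by positivity)]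
    have h1 : Real.exp (2 * x) = 1 / g ^ 2 := by
      rw [← hgx, ← Real.exp_nat_mul, one_div, ← Real.exp_neg]
      congr 1
      push_cast
      ring
    rw [h1, le_div_iff₀ (by positivity)]
    have h2 : 2 * (m₀ : ℝ) * g ^ 2 = 2 * (g * m₀) * g := by ring
    rw [h2]
    have h3 : 2 * (g * m₀) * g ≤ 2 * (8 * x + 1) * g :=
      mul_le_mul_of_nonneg_right (by linarith) hg.le
    nlinarith
  refine ⟨?_, hlog, m3, ?_, ?_⟩
  · have h1 : (2 * R : ℝ) < m₀ := by linarith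
    exact_mod_cast h1
  · have h1 : g / 2 ≤ Real.exp (g / 2) - 1 := by
      have := Real.add_one_le_exp (g / 2)
      linarith
    refine le_trans ?_ h1
    have h2 : Real.exp (-(g / 2 * (m₀ - 2 * R))) ≤ g ^ 4 * Real.exp R := by
      rw [← hgx, ← Real.exp_nat_mul, ← Real.exp_add, Real.exp_le_exp, hgx]
      push_cast
      have h3 : g * R ≤ 1 * R := mul_le_mul_of_nonneg_right hg1.le hR0
      linarith
    have h4 : 2 * C * (m₀ + 1) * Real.exp (-(g / 2 * (m₀ - 2 * R))) ≤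
        2 * C * (m₀ + 1) * (g ^ 4 * Real.exp R) :=
      mul_le_mul_of_nonneg_left h2 (by positivity)
    refine h4.trans ?_
    have h5 : 2 * C * (m₀ + 1) * (g ^ 4 * Real.exp R) =
        (2 * C * Real.exp R * g ^ 3) * (g * m₀ + g) := by ring
    have h6 : (2 * C * Real.exp R * g ^ 3) * (g * m₀ + g) ≤
        (2 * C * Real.exp R * g ^ 3) * (8 * x + 2) :=
      mul_le_mul_of_nonneg_left (by linarith) (by positivity)
    have h7 : (2 * C * Real.exp R * g ^ 3) * (8 * x + 2) =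
        g ^ 2 / 2 * ((8 * C * Real.exp R + 32 * C * Real.exp R * x + 0 * x ^ 2) * g) := by ring
    have h8 : g ^ 2 / 2 * ((8 * C * Real.exp R + 32 * C * Real.exp R * x + 0 * x ^ 2) * g) ≤
        g ^ 2 / 2 * 1 := mul_le_mul_of_nonneg_left c2 (by positivity)
    have h9 : g ^ 2 ≤ g := by nlinarith
    linarith
  · intro l hl
    have h1 : (l : ℝ) + R ≤ (l₀ + R) + 2 * l₀ * D * x := by
      have h2 : (l₀ : ℝ) * (D * Real.log (2 * m₀)) ≤ l₀ * (D * (2 * x)) := by gcongr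
      linarith
    constructor
    · push_cast
      have h3 : g * ((l : ℝ) + R) ≤ g * ((l₀ + R) + 2 * l₀ * D * x) :=
        mul_le_mul_of_nonneg_left h1 hg.le
      linarith
    · have h4 : (⌈2 * g * m₀⌉₊ : ℝ) ≤ 2 * g * m₀ + 1 := (Nat.ceil_lt_add_one (by positivity)).le
      have h5 : (⌈2 * g * m₀⌉₊ : ℝ) + 1 ≤ 16 * x + 4 := by linarith
      have h6 : ((⌈2 * g * m₀⌉₊ : ℝ) + 1) * ((l : ℝ) + R) ≤
          (16 * x + 4) * ((l₀ + R) + 2 * l₀ * D * x) := by gcongr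
      have h7 : (16 * x + 4) * ((l₀ + R) + 2 * l₀ * D * x) * g ≤ 8 := by
        have h8 : (16 * x + 4) * ((l₀ + R) + 2 * l₀ * D * x) * g =
          (4 * (l₀ + R) + (16 * (l₀ + R) + 8 * l₀ * D) * x + 32 * l₀ * D * x ^ 2) * g := by ring
        rw [h8]
        exact c4
      have h9 : (16 * x + 4) * ((l₀ + R) + 2 * l₀ * D * x) ≤ m₀ := by
        have h10 : (16 * x + 4) * ((l₀ + R) + 2 * l₀ * D * x) * g ≤ m₀ * g := by linarith
        exact le_of_mul_le_mul_right h10 hg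
      have h11 : ((⌈2 * g * m₀⌉₊ : ℝ) + 1) * ((l : ℝ) + R) ≤ m₀ := h6.trans h9
      exact_mod_cast h11

end

end Pool.Agent.IOrd
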