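import Mathlib
import Pool.Agent.Lib.MP_daa227_pr_IO.Defs

/-!
# MP_daa227_pr: infinite order. Planting.
-/

namespace Pool.Agent.IOrd

open MeasureTheory ProbabilityTheory Finset Filter Topology
open MP_daa227_pr (shift seqLaw ExpMom DepOn mom)

noncomputable section

variable {μ : Measure ℝ} [IsProbabilityMeasure μ] {Z : ℝ → ℕ → (ℕ → ℝ) → ℝ} {w : ℕ}


/-- On `shift (w x) ω ∈ Far Z l L`: `Z_d (n + l) ω ≥ Z_d x ω * Z_d l (shift (w x) ω) *
Z_d (n - x) (shift (w (x + l)) ω)` and `Z_d l ≥ Z_0 l ≥ exp L`; the three parts are independent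
(`MP_daa227_pr.lintegral_mul_shift` twice; the first factor depends on the first `w x` charges, the
indicator on the next `w l`). -/
theorem plant (hZ : Sys w μ Z) {s d : ℝ} (hs0 : 0 ≤ s) (hs1 : s ≤ 1) (hd : 0 ≤ d) (l : ℕ) (L : ℝ)
    {n x : ℕ} (hx : x ≤ n) :
    mom μ s (Z d x) * (ENNReal.ofReal (Real.exp (s * L)) * seqLaw μ (Far Z l L)) *
        mom μ s (Z d (n - x)) ≤
      ∫⁻ ω, ENNReal.ofReal (Z d (n + l) ω) ^ s * ind (Far Z l L) (shift (w * x) ω) ∂seqLaw μ := by
  have hFm : MeasurableSet (Far Z l L) := measurableSet_le measurable_const (hZ.meas 0 l).log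
  have hiM : Measurable (ind (Far Z l L)) := measurable_const.indicator hFm
  have hiD : DepOn (w * l) (ind (Far Z l L)) := by
    intro ω ω' hω
    have h : (ω ∈ Far Z l L) = (ω' ∈ Far Z l L) := by
      unfold Far
      rw [Set.mem_ofPred_eq, Set.mem_ofPred_eq, hZ.dep 0 l ω ω' hω]
    unfold ind
    by_cases h1 : ω ∈ Far Z l L
    · rw [Set.indicator_of_mem h1, Set.indicator_of_mem (h ▸ h1)]
    · rw [Set.indicator_of_notMem h1, Set.indicator_of_notMem (h ▸ h1)]
  have hA : Measurable fun ω => ENNReal.ofReal (Z d x ω) ^ s :=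
    MP_daa227_pr.measurable_momf (hZ.meas d x)
  have hC : Measurable fun ω => ENNReal.ofReal (Z d (n - x) ω) ^ s :=
    MP_daa227_pr.measurable_momf (hZ.meas d (n - x))
  have hB : Measurable fun ω => ENNReal.ofReal (Real.exp (s * L)) * ind (Far Z l L) ω :=
    measurable_const.mul hiM
  have hY : Measurable fun ω => ENNReal.ofReal (Real.exp (s * L)) * ind (Far Z l L) ω *
      ENNReal.ofReal (Z d (n - x) (shift (w * l) ω)) ^ s :=
    hB.mul (hC.comp (MP_daa227_pr.measurable_shift _))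
  have h1 := MP_daa227_pr.lintegral_mul_shift μ hY (w * x) hA
    (fun ω ω' hω => by rw [hZ.dep d x ω ω' hω])
  have h2 := MP_daa227_pr.lintegral_mul_shift μ hC (w * l) hB
    (fun ω ω' hω => by rw [hiD ω ω' hω])
  have h3 : ∫⁻ ω, ENNReal.ofReal (Real.exp (s * L)) * ind (Far Z l L) ω ∂seqLaw μ =
      ENNReal.ofReal (Real.exp (s * L)) * seqLaw μ (Far Z l L) := by
    rw [lintegral_const_mul _ hiM]
    congr 1
    unfold ind
    rw [lintegral_indicator_const hFm, one_mul]
  rw [h3] at h2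
  rw [h2] at h1
  have h4 : mom μ s (Z d x) * (ENNReal.ofReal (Real.exp (s * L)) * seqLaw μ (Far Z l L)) *
        mom μ s (Z d (n - x)) = ∫⁻ ω, ENNReal.ofReal (Z d x ω) ^ s *
      (ENNReal.ofReal (Real.exp (s * L)) * ind (Far Z l L) (shift (w * x) ω) *
      ENNReal.ofReal (Z d (n - x) (shift (w * l) (shift (w * x) ω))) ^ s) ∂seqLaw μ := by
    rw [h1]
    unfold mom
    ring
  rw [h4]
  apply lintegral_mono
  intro ω
  dsimp only
  by_cases hF : shift (w * x) ω ∈ Far Z l L
  · have hi : ind (Far Z l L) (shift (w * x) ω) = 1 := by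
      unfold ind
      rw [Set.indicator_of_mem hF]
    rw [hi, mul_one, mul_one]
    have g1 : Z d x ω * Z d (l + (n - x)) (shift (w * x) ω) ≤ Z d (n + l) ω := by
      have h := hZ.mul_le d x (l + (n - x)) ω
      have e : x + (l + (n - x)) = n + l := by omega
      rwa [e] at h
    have g2 := hZ.mul_le d l (n - x) (shift (w * x) ω)
    have g3 : Real.exp L ≤ Z d l (shift (w * x) ω) := by
      have h5 : L ≤ Real.log (Z 0 l (shift (w * x) ω)) := hF
      have h6 := (Real.le_log_iff_exp_le (hZ.pos 0 l _)).1 h5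
      exact h6.trans (hZ.mono 0 d l _ hd)
    have g4 : Z d x ω * (Real.exp L * Z d (n - x) (shift (w * l) (shift (w * x) ω))) ≤
        Z d (n + l) ω := by
      refine le_trans ?_ g1
      apply mul_le_mul_of_nonneg_left _ (hZ.pos d x ω).le
      exact (mul_le_mul_of_nonneg_right g3 (hZ.pos d (n - x) _).le).trans g2
    have g5 : ENNReal.ofReal (Real.exp (s * L)) = ENNReal.ofReal (Real.exp L) ^ s := by
      rw [ENNReal.ofReal_rpow_of_pos (Real.exp_pos L), mul_comm s L, Real.exp_mul]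
    rw [g5, ← ENNReal.mul_rpow_of_nonneg _ _ hs0, ← ENNReal.mul_rpow_of_nonneg _ _ hs0,
      ← ENNReal.ofReal_mul (Real.exp_pos L).le, ← ENNReal.ofReal_mul (hZ.pos d x ω).le]
    exact ENNReal.rpow_le_rpow (ENNReal.ofReal_le_ofReal g4) hs0
  · have hi : ind (Far Z l L) (shift (w * x) ω) = 0 := by
      unfold ind
      rw [Set.indicator_of_notMem hF]
    rw [hi]
    simp

end

end Pool.Agent.IOrd
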