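import Mathlib
import Pool.Agent.Lib.MP_daa227_pr_IO.Defs

/-!
# MP_daa227_pr: infinite order. The number of good blocks in a residue class.
-/

namespace Pool.Agent.IOrd

open MeasureTheory ProbabilityTheory Finset Filter Topology
open MP_daa227_pr (shift seqLaw ExpMom DepOn mom)

noncomputable section

variable {μ : Measure ℝ} [IsProbabilityMeasure μ] {Z : ℝ → ℕ → (ℕ → ℝ) → ℝ} {w : ℕ}

namespace ExpCount

theorem measSet (hZ : Sys w μ Z) (l : ℕ) (L : ℝ) : MeasurableSet (Far Z l L) :=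
  measurableSet_le measurable_const (Real.measurable_log.comp (hZ.meas 0 l))

/-- the exponential of the indicator -/
def gE (A : Set (ℕ → ℝ)) (ω : ℕ → ℝ) : ENNReal := ENNReal.ofReal (Real.exp (ind A ω).toReal)

theorem gE_eq (A : Set (ℕ → ℝ)) (ω : ℕ → ℝ) :
    gE A ω = 1 + ENNReal.ofReal (Real.exp 1 - 1) * A.indicator 1 ω := by
  unfold gE ind
  by_cases h : ω ∈ A
  · rw [Set.indicator_of_mem h, Set.indicator_of_mem h, ENNReal.toReal_one, Pi.one_apply, mul_one,
      ← ENNReal.ofReal_one, ← ENNReal.ofReal_add zero_le_one (by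
        have := Real.add_one_le_exp (1 : ℝ); linarith)]
    congr 1
    ring
  · rw [Set.indicator_of_notMem h, Set.indicator_of_notMem h, ENNReal.toReal_zero, Real.exp_zero,
      mul_zero, add_zero, ENNReal.ofReal_one]

theorem meas_gE {A : Set (ℕ → ℝ)} (hA : MeasurableSet A) : Measurable (gE A) := by
  have : gE A = fun ω => 1 + ENNReal.ofReal (Real.exp 1 - 1) * A.indicator 1 ω :=
    funext fun ω => gE_eq A ω
  rw [this]
  have h1 : Measurable (A.indicator (1 : (ℕ → ℝ) → ENNReal)) := measurable_one.indicator hA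
  exact measurable_const.add (measurable_const.mul h1)

theorem int_gE {A : Set (ℕ → ℝ)} (hA : MeasurableSet A) :
    ∫⁻ ω, gE A ω ∂seqLaw μ = 1 + ENNReal.ofReal (Real.exp 1 - 1) * seqLaw μ A := by
  have h1 : Measurable (A.indicator (1 : (ℕ → ℝ) → ENNReal)) := measurable_one.indicator hA
  simp_rw [gE_eq]
  rw [lintegral_add_left measurable_const,
    lintegral_const_mul _ h1, lintegral_indicator_one hA]
  simp

theorem dep_gE (hZ : Sys w μ Z) (l : ℕ) (L : ℝ) : DepOn (w * l) (gE (Far Z l L)) := by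
  intro ω ω' h
  rw [gE_eq, gE_eq]
  congr 2
  have hd : Z 0 l ω = Z 0 l ω' := hZ.dep 0 l ω ω' h
  have hiff : ω ∈ Far Z l L ↔ ω' ∈ Far Z l L := by
    change L ≤ Real.log (Z 0 l ω) ↔ L ≤ Real.log (Z 0 l ω')
    rw [hd]
  by_cases hm : ω ∈ Far Z l L
  · rw [Set.indicator_of_mem hm, Set.indicator_of_mem (hiff.mp hm)]; rfl
  · rw [Set.indicator_of_notMem hm, Set.indicator_of_notMem (fun h => hm (hiff.mpr h))]

theorem ofReal_exp_sum {ι : Type*} (s : Finset ι) (f : ι → ℝ) :
    ENNReal.ofReal (Real.exp (∑ i ∈ s, f i)) = ∏ i ∈ s, ENNReal.ofReal (Real.exp (f i)) := by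
  rw [Real.exp_sum, ENNReal.ofReal_prod_of_nonneg fun i _ => (Real.exp_pos _).le]

theorem int_prod (hZ : Sys w μ Z) (l : ℕ) (L : ℝ) (J : ℕ) :
    ∫⁻ ω, ∏ j ∈ range J, gE (Far Z l L) (shift (w * (j * l)) ω) ∂seqLaw μ =
      (∫⁻ ω, gE (Far Z l L) ω ∂seqLaw μ) ^ J := by
  have hm := meas_gE (measSet hZ l L)
  induction J with
  | zero => simp
  | succ J ih =>
    have e : ∀ ω, ∏ j ∈ range (J + 1), gE (Far Z l L) (shift (w * (j * l)) ω) =
        gE (Far Z l L) ω *
          (fun ω' => ∏ j ∈ range J, gE (Far Z l L) (shift (w * (j * l)) ω')) (shift (w * l) ω) := by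
      intro ω
      rw [prod_range_succ']
      simp only [Nat.zero_mul, Nat.mul_zero, MP_daa227_pr.shift_zero, MP_daa227_pr.shift_shift]
      rw [mul_comm]
      congr 1
      refine prod_congr rfl fun j _ => ?_
      congr 2
      ring
    simp_rw [e]
    rw [MP_daa227_pr.lintegral_mul_shift μ
      (Y := fun ω' => ∏ j ∈ range J, gE (Far Z l L) (shift (w * (j * l)) ω'))
      (Finset.measurable_prod _ fun j _ => hm.comp (MP_daa227_pr.measurable_shift _))
      (w * l) hm (dep_gE hZ l L), ih, pow_succ, mul_comm]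

end ExpCount

/-- The blocks `shift (w (r + j l))`, `j < J`, are independent: the left side is
`(1 + (e - 1) π) ^ J ≤ exp ((e - 1) π J) ≤ exp (2 (e - 1)) ≤ exp 4`. (Induction on `J` with
`MP_daa227_pr.lintegral_mul_shift`, first for `r = 0`, then `MP_daa227_pr.lintegral_shift`;
`Far Z l L` depends on the first `w l` charges by `hZ.dep`.) -/
theorem exp_count (hZ : Sys w μ Z) (l : ℕ) (L : ℝ) (r J : ℕ) {M : ℝ} (hM : 1 ≤ M)
    (hπ : (seqLaw μ (Far Z l L)).toReal ≤ 1 / M) (hJ : (J : ℝ) ≤ 2 * M) :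
    ∫⁻ ω, ENNReal.ofReal (Real.exp (∑ j ∈ range J,
      (ind (Far Z l L) (shift (w * (r + j * l)) ω)).toReal)) ∂seqLaw μ ≤
      ENNReal.ofReal (Real.exp 4) := by
  have hm := ExpCount.meas_gE (ExpCount.measSet hZ l L)
  have e : ∀ ω, ENNReal.ofReal (Real.exp (∑ j ∈ range J,
      (ind (Far Z l L) (shift (w * (r + j * l)) ω)).toReal)) =
      (fun ω' => ∏ j ∈ range J, ExpCount.gE (Far Z l L) (shift (w * (j * l)) ω'))
        (shift (w * r) ω) := by
    intro ω
    rw [ExpCount.ofReal_exp_sum]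
    refine prod_congr rfl fun j _ => ?_
    rw [MP_daa227_pr.shift_shift]
    unfold ExpCount.gE
    congr 5
    ring
  simp_rw [e]
  rw [MP_daa227_pr.lintegral_shift μ (w * r)
    (Y := fun ω' => ∏ j ∈ range J, ExpCount.gE (Far Z l L) (shift (w * (j * l)) ω'))
    (Finset.measurable_prod _ fun j _ => hm.comp (MP_daa227_pr.measurable_shift _)),
    ExpCount.int_prod hZ l L J, ExpCount.int_gE (ExpCount.measSet hZ l L)]
  set p : ℝ := (seqLaw μ (Far Z l L)).toReal with hp
  have hp0 : 0 ≤ p := ENNReal.toReal_nonneg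
  have hpe : seqLaw μ (Far Z l L) = ENNReal.ofReal p :=
    (ENNReal.ofReal_toReal (measure_ne_top _ _)).symm
  have he1 : 0 ≤ Real.exp 1 - 1 := by have := Real.add_one_le_exp (1 : ℝ); linarith
  rw [hpe, ← ENNReal.ofReal_mul he1, ← ENNReal.ofReal_one,
    ← ENNReal.ofReal_add zero_le_one (mul_nonneg he1 hp0),
    ← ENNReal.ofReal_pow (by positivity)]
  refine ENNReal.ofReal_le_ofReal ?_
  have h1 : 1 + (Real.exp 1 - 1) * p ≤ Real.exp ((Real.exp 1 - 1) * p) := by
    have := Real.add_one_le_exp ((Real.exp 1 - 1) * p); linarith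
  have h2 : (1 + (Real.exp 1 - 1) * p) ^ J ≤ Real.exp ((Real.exp 1 - 1) * p) ^ J :=
    pow_le_pow_left₀ (by positivity) h1 J
  refine h2.trans ?_
  rw [← Real.exp_nat_mul]
  refine Real.exp_le_exp.mpr ?_
  have hM0 : 0 < M := by linarith
  have h3 : (J : ℝ) * p ≤ 2 := by
    calc (J : ℝ) * p ≤ (2 * M) * (1 / M) :=
          mul_le_mul hJ hπ hp0 (by positivity)
      _ = 2 := by field_simp
  have h4 : Real.exp 1 - 1 ≤ 2 := by have := Real.exp_one_lt_d9; linarith
  calc (J : ℝ) * ((Real.exp 1 - 1) * p) = (Real.exp 1 - 1) * (J * p) := by ring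
    _ ≤ 2 * 2 := mul_le_mul h4 h3 (by positivity) (by norm_num)
    _ = 4 := by norm_num

end

end Pool.Agent.IOrd
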