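import Mathlib
import Pool.Agent.Lib.MP_daa227_pr_IO.Defs
import Pool.Agent.Lib.MP_daa227_pr_IO.ExpCount

/-!
# MP_daa227_pr: infinite order. Truncated Young inequality.
-/

namespace Pool.Agent.IOrd

open MeasureTheory ProbabilityTheory Finset Filter Topology
open MP_daa227_pr (shift seqLaw ExpMom DepOn mom)

noncomputable section

variable {μ : Measure ℝ} [IsProbabilityMeasure μ] {Z : ℝ → ℕ → (ℕ → ℝ) → ℝ} {w : ℕ}


/-- If `N ≤ K`: `X N ≤ K X`. If `N > K`, with `p' = p / (p - 1)`: `N ≤ 2 p' exp (N / (2 p')) ≤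
2 p' exp (- K / (2 p')) exp (N / p')` and `X exp (N / p') ≤ X ^ p / p + exp N / p'` (Young). -/
theorem young_trunc {X N K p : ℝ} (hX : 0 ≤ X) (hN : 0 ≤ N) (hK : 0 < K) (hp : 1 < p) :
    X * N ≤ K * X + 2 * (p / (p - 1)) * Real.exp (-(K / (2 * (p / (p - 1))))) *
      (X ^ p + Real.exp N) := by
  have hXp : 0 ≤ X ^ p := Real.rpow_nonneg hX p
  have hpq : p.HolderConjugate (p / (p - 1)) := Real.HolderConjugate.conjExponent hp
  set q : ℝ := p / (p - 1) with hq
  have hq1 : 1 < q := hpq.symm.lt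
  have hq0 : 0 < q := by linarith
  have hrest : 0 ≤ 2 * q * Real.exp (-(K / (2 * q))) * (X ^ p + Real.exp N) := by positivity
  rcases le_total N K with h | h
  · have := mul_le_mul_of_nonneg_left h hX
    nlinarith
  · have h1 : N ≤ 2 * q * Real.exp (N / (2 * q)) := by
      have h2 : N / (2 * q) ≤ Real.exp (N / (2 * q)) := by
        have := Real.add_one_le_exp (N / (2 * q))
        linarith
      rw [div_le_iff₀ (by positivity)] at h2
      linarith
    have h3 : Real.exp (N / (2 * q)) ≤ Real.exp (-(K / (2 * q))) * Real.exp (N / q) := by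
      rw [← Real.exp_add]
      apply Real.exp_le_exp.mpr
      have h4 : N / q = N / (2 * q) + N / (2 * q) := by
        field_simp
        ring
      have h5 : K / (2 * q) ≤ N / (2 * q) := by gcongr
      rw [h4]
      linarith
    have h6 : X * Real.exp (N / q) ≤ X ^ p + Real.exp N := by
      have h7 := Real.young_inequality_of_nonneg hX (Real.exp_pos (N / q)).le hpq
      have h8 : Real.exp (N / q) ^ q = Real.exp N := by
        rw [← Real.exp_mul]
        congr 1
        field_simp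
      rw [h8] at h7
      have h9 : X ^ p / p ≤ X ^ p := div_le_self hXp hp.le
      have h10 : Real.exp N / q ≤ Real.exp N := div_le_self (Real.exp_pos N).le hq1.le
      linarith
    have h11 : X * N ≤ 2 * q * Real.exp (-(K / (2 * q))) * (X ^ p + Real.exp N) := by
      calc X * N ≤ X * (2 * q * (Real.exp (-(K / (2 * q))) * Real.exp (N / q))) := by
            apply mul_le_mul_of_nonneg_left _ hX
            exact h1.trans (mul_le_mul_of_nonneg_left h3 (by positivity))
        _ = 2 * q * Real.exp (-(K / (2 * q))) * (X * Real.exp (N / q)) := by ring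
        _ ≤ _ := mul_le_mul_of_nonneg_left h6 (by positivity)
    have h12 : 0 ≤ K * X := mul_nonneg hK.le hX
    linarith

namespace YoungT

omit [IsProbabilityMeasure μ] in
lemma measurableSet_Far (hZ : Sys w μ Z) (l : ℕ) (L : ℝ) : MeasurableSet (Far Z l L) :=
  measurableSet_le measurable_const (Real.measurable_log.comp (hZ.meas 0 l))

omit [IsProbabilityMeasure μ] in
lemma measurable_ind (hZ : Sys w μ Z) (l : ℕ) (L : ℝ) : Measurable (ind (Far Z l L)) :=
  measurable_const.indicator (measurableSet_Far hZ l L)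

lemma ind_le_one (A : Set (ℕ → ℝ)) (ω : ℕ → ℝ) : ind A ω ≤ 1 := by
  unfold ind
  by_cases h : ω ∈ A
  · rw [Set.indicator_of_mem h]
  · rw [Set.indicator_of_notMem h]
    exact bot_le

lemma ind_ne_top (A : Set (ℕ → ℝ)) (ω : ℕ → ℝ) : ind A ω ≠ ⊤ :=
  ne_top_of_le_ne_top ENNReal.one_ne_top (ind_le_one A ω)

end YoungT

/-- one residue class: `young_trunc` with `X = Z ^ s`, `p = s₁ / s`, `N = ` the number of good
blocks, and `exp_count`. -/
theorem class_bound (hZ : Sys w μ Z) {s s₁ d : ℝ} (hs : 0 < s) (h1 : s < s₁) (h2 : s₁ ≤ 1)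
    (l : ℕ) (L : ℝ) (r J N : ℕ) {M K : ℝ} (hM : 1 ≤ M) (hK : 0 < K)
    (hπ : (seqLaw μ (Far Z l L)).toReal ≤ 1 / M) (hJ : (J : ℝ) ≤ 2 * M) :
    ∑ j ∈ range J, (∫⁻ ω, ENNReal.ofReal (Z d N ω) ^ s *
        ind (Far Z l L) (shift (w * (r + j * l)) ω) ∂seqLaw μ) ≤
      ENNReal.ofReal (K * aS μ Z s d N + 2 * (s₁ / (s₁ - s)) *
        Real.exp (-(K / (2 * (s₁ / (s₁ - s))))) * (aS μ Z s₁ d N + Real.exp 4)) := by
  have hmI : ∀ j, Measurable fun ω => ind (Far Z l L) (shift (w * (r + j * l)) ω) := fun j =>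
    (YoungT.measurable_ind hZ l L).comp (MP_daa227_pr.measurable_shift _)
  have hmZ : ∀ t : ℝ, Measurable fun ω => ENNReal.ofReal (Z d N ω) ^ t := fun t =>
    MP_daa227_pr.measurable_momf (hZ.meas d N)
  have hsum := lintegral_finsetSum (μ := seqLaw μ) (range J) (f := fun j ω =>
    ENNReal.ofReal (Z d N ω) ^ s * ind (Far Z l L) (shift (w * (r + j * l)) ω))
    fun j _ => (hmZ s).mul (hmI j)
  rw [← hsum]
  -- the exponents
  have hs1 : 0 < s₁ := hs.trans h1
  have hp : 1 < s₁ / s := by rwa [one_lt_div hs]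
  have hq : s₁ / s / (s₁ / s - 1) = s₁ / (s₁ - s) := by
    have : s₁ - s ≠ 0 := by linarith
    field_simp
  have hq0 : 0 < s₁ / (s₁ - s) := div_pos hs1 (by linarith)
  set c : ℝ := 2 * (s₁ / (s₁ - s)) * Real.exp (-(K / (2 * (s₁ / (s₁ - s))))) with hc
  have hc0 : 0 ≤ c := by positivity
  set Nn : (ℕ → ℝ) → ℝ := fun ω =>
    ∑ j ∈ range J, (ind (Far Z l L) (shift (w * (r + j * l)) ω)).toReal with hNn
  have hN0 : ∀ ω, 0 ≤ Nn ω := fun ω => Finset.sum_nonneg fun _ _ => ENNReal.toReal_nonneg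
  -- the pointwise inequality
  have hpt : ∀ ω, ∑ j ∈ range J, ENNReal.ofReal (Z d N ω) ^ s *
      ind (Far Z l L) (shift (w * (r + j * l)) ω) ≤
      ENNReal.ofReal K * ENNReal.ofReal (Z d N ω) ^ s +
        (ENNReal.ofReal c * ENNReal.ofReal (Z d N ω) ^ s₁ +
          ENNReal.ofReal c * ENNReal.ofReal (Real.exp (Nn ω))) := by
    intro ω
    have hz := hZ.pos d N ω
    rw [← Finset.mul_sum, ENNReal.ofReal_rpow_of_pos hz, ENNReal.ofReal_rpow_of_pos hz]
    have e1 : ∑ j ∈ range J, ind (Far Z l L) (shift (w * (r + j * l)) ω) =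
        ENNReal.ofReal (Nn ω) := by
      rw [hNn, ENNReal.ofReal_sum_of_nonneg fun _ _ => ENNReal.toReal_nonneg]
      exact Finset.sum_congr rfl fun j _ => (ENNReal.ofReal_toReal (YoungT.ind_ne_top _ _)).symm
    have hx0 : 0 ≤ Z d N ω ^ s := Real.rpow_nonneg hz.le s
    have hx1 : 0 ≤ Z d N ω ^ s₁ := Real.rpow_nonneg hz.le s₁
    rw [e1, ← ENNReal.ofReal_mul hx0, ← ENNReal.ofReal_mul hK.le, ← ENNReal.ofReal_mul hc0,
      ← ENNReal.ofReal_mul hc0, ← ENNReal.ofReal_add (by positivity) (by positivity),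
      ← ENNReal.ofReal_add (by positivity) (by positivity)]
    apply ENNReal.ofReal_le_ofReal
    have h3 := young_trunc hx0 (hN0 ω) hK hp
    rw [hq, ← hc, ← Real.rpow_mul hz.le, mul_div_cancel₀ _ hs.ne'] at h3
    linarith
  refine (lintegral_mono hpt).trans ?_
  rw [lintegral_add_left ((hmZ s).const_mul _), lintegral_add_left ((hmZ s₁).const_mul _),
    lintegral_const_mul _ (hmZ s), lintegral_const_mul _ (hmZ s₁)]
  have hNm : Measurable Nn := by
    apply Finset.measurable_sum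
    intro j _
    exact (hmI j).ennreal_toReal
  have hem : Measurable fun ω => ENNReal.ofReal (Real.exp (Nn ω)) :=
    (Real.measurable_exp.comp hNm).ennreal_ofReal
  rw [lintegral_const_mul _ hem]
  have hE := exp_count hZ l L r J hM hπ hJ
  have hf : ∀ t : ℝ, 0 ≤ t → t ≤ 1 →
      ∫⁻ ω, ENNReal.ofReal (Z d N ω) ^ t ∂seqLaw μ = ENNReal.ofReal (aS μ Z t d N) := by
    intro t ht ht1
    exact (ENNReal.ofReal_toReal (hZ.fin t ht ht1 d N)).symm
  rw [hf s hs.le (h1.le.trans h2), hf s₁ hs1.le h2]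
  have ha : ∀ t : ℝ, 0 ≤ aS μ Z t d N := fun t => ENNReal.toReal_nonneg
  have h4 : 0 ≤ K * aS μ Z s d N := mul_nonneg hK.le (ha s)
  have h5 : 0 ≤ c * aS μ Z s₁ d N := mul_nonneg hc0 (ha s₁)
  have h6 : 0 ≤ c * Real.exp 4 := mul_nonneg hc0 (Real.exp_pos 4).le
  rw [mul_add, ENNReal.ofReal_add h4 (by linarith), ENNReal.ofReal_add h5 h6,
    ENNReal.ofReal_mul hK.le, ENNReal.ofReal_mul hc0, ENNReal.ofReal_mul hc0]
  gcongr

end

end Pool.Agent.IOrd
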