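import Mathlib
import Pool.Agent.Lib.MP_daa227_pr_IO.Defs
import Pool.Agent.Lib.MP_daa227_pr_IO.Plant
import Pool.Agent.Lib.MP_daa227_pr_IO.YoungT

/-!
# MP_daa227_pr: infinite order. The planting inequality.
-/

namespace Pool.Agent.IOrd

open MeasureTheory ProbabilityTheory Finset Filter Topology
open MP_daa227_pr (shift seqLaw ExpMom DepOn mom)

noncomputable section

variable {μ : Measure ℝ} [IsProbabilityMeasure μ] {Z : ℝ → ℕ → (ℕ → ℝ) → ℝ} {w : ℕ}


/-- Sum `plant` over `x ≤ n`; group the `x` according to `x % l` (`x = r + j l`, `r < l`,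
`j ≤ n / l`, `J = n / l + 1 ≤ 2 M`) and use `class_bound` for each of the `l` classes. -/
theorem planting (hZ : Sys w μ Z) {s s₁ d : ℝ} (hs : 0 < s) (h1 : s < s₁) (h2 : s₁ ≤ 1) (hd : 0 ≤ d)
    {l : ℕ} (hl : 1 ≤ l) (L : ℝ) (n : ℕ) {M K : ℝ} (hM : 1 ≤ M) (hK : 0 < K)
    (hπ : (seqLaw μ (Far Z l L)).toReal ≤ 1 / M) (hn : (n : ℝ) ≤ M) :
    Real.exp (s * L) * (seqLaw μ (Far Z l L)).toReal * cv (aS μ Z s d) n ≤
      l * (K * aS μ Z s d (n + l) + 2 * (s₁ / (s₁ - s)) *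
        Real.exp (-(K / (2 * (s₁ / (s₁ - s))))) * (aS μ Z s₁ d (n + l) + Real.exp 4)) := by
  classical
  obtain ⟨C, hC⟩ : ∃ C : ℝ, C = K * aS μ Z s d (n + l) + 2 * (s₁ / (s₁ - s)) *
      Real.exp (-(K / (2 * (s₁ / (s₁ - s))))) * (aS μ Z s₁ d (n + l) + Real.exp 4) := ⟨_, rfl⟩
  have hC0 : 0 ≤ C := by
    have h3 : 0 < s₁ - s := sub_pos.2 h1
    have h4 : 0 ≤ aS μ Z s d (n + l) := ENNReal.toReal_nonneg
    have h5 : 0 ≤ aS μ Z s₁ d (n + l) := ENNReal.toReal_nonneg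
    have h6 : 0 < s₁ := hs.trans h1
    rw [hC]
    positivity
  rw [← hC]
  obtain ⟨F, hF⟩ : ∃ F : ℕ → ENNReal, F = fun x => ∫⁻ ω, ENNReal.ofReal (Z d (n + l) ω) ^ s *
      ind (Far Z l L) (shift (w * x) ω) ∂seqLaw μ := ⟨_, rfl⟩
  obtain ⟨T, hT⟩ : ∃ T : ℕ → ENNReal, T = fun x => mom μ s (Z d x) *
      (ENNReal.ofReal (Real.exp (s * L)) * seqLaw μ (Far Z l L)) * mom μ s (Z d (n - x)) :=
    ⟨_, rfl⟩
  have hs1 : s ≤ 1 := h1.le.trans h2
  have hTF : ∀ x ∈ range (n + 1), T x ≤ F x := by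
    intro x hx
    rw [hT, hF]
    exact plant hZ hs.le hs1 hd l L (Nat.lt_succ_iff.1 (mem_range.1 hx))
  have hJ : ((n / l + 1 : ℕ) : ℝ) ≤ 2 * M := by
    have h3 : ((n / l : ℕ) : ℝ) ≤ n := by exact_mod_cast Nat.div_le_self n l
    push_cast
    linarith
  have hcls : ∀ r, ∑ j ∈ range (n / l + 1), F (r + j * l) ≤ ENNReal.ofReal C := by
    intro r
    rw [hF, hC]
    exact class_bound hZ hs h1 h2 l L r (n / l + 1) (n + l) hM hK hπ hJ
  have hl0 : 0 < l := hl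
  have hgrp : ∑ x ∈ range (n + 1), F x ≤
      ∑ r ∈ range l, ∑ j ∈ range (n / l + 1), F (r + j * l) := by
    have e1 : ∀ x, F x = F (x % l + x / l * l) := fun x => by rw [Nat.mod_add_div']
    have hinj : Set.InjOn (fun x => (x % l, x / l)) (range (n + 1) : Set ℕ) := by
      intro x _ y _ hxy
      have h3 := congrArg Prod.fst hxy
      have h4 := congrArg Prod.snd hxy
      dsimp only at h3 h4
      rw [← Nat.mod_add_div' x l, ← Nat.mod_add_div' y l, h3, h4]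
    calc ∑ x ∈ range (n + 1), F x
        = ∑ x ∈ range (n + 1), (fun y : ℕ × ℕ => F (y.1 + y.2 * l)) (x % l, x / l) :=
          sum_congr rfl fun x _ => e1 x
      _ = ∑ y ∈ (range (n + 1)).image (fun x => (x % l, x / l)), F (y.1 + y.2 * l) :=
          (sum_image (f := fun y : ℕ × ℕ => F (y.1 + y.2 * l)) hinj).symm
      _ ≤ ∑ y ∈ range l ×ˢ range (n / l + 1), F (y.1 + y.2 * l) := by
          apply sum_le_sum_of_subset
          intro y hy
          obtain ⟨x, hx, rfl⟩ := mem_image.1 hy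
          rw [mem_product, mem_range, mem_range]
          exact ⟨Nat.mod_lt x hl0, Nat.lt_succ_of_le
            (Nat.div_le_div_right (Nat.lt_succ_iff.1 (mem_range.1 hx)))⟩
      _ = ∑ r ∈ range l, ∑ j ∈ range (n / l + 1), F (r + j * l) := sum_product _ _ _
  have htot : ∑ x ∈ range (n + 1), T x ≤ ENNReal.ofReal (l * C) := by
    refine (sum_le_sum hTF).trans (hgrp.trans ((sum_le_sum fun r _ => hcls r).trans ?_))
    rw [sum_const, card_range, nsmul_eq_mul, ENNReal.ofReal_mul (Nat.cast_nonneg l),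
      ENNReal.ofReal_natCast]
  have hTreal : ∀ x, (T x).toReal = aS μ Z s d x *
      (Real.exp (s * L) * (seqLaw μ (Far Z l L)).toReal) * aS μ Z s d (n - x) := by
    intro x
    rw [hT]
    dsimp only
    rw [ENNReal.toReal_mul, ENNReal.toReal_mul, ENNReal.toReal_mul,
      ENNReal.toReal_ofReal (Real.exp_pos _).le]
    rfl
  have hTtop : ∀ x ∈ range (n + 1), T x ≠ ⊤ := by
    intro x _
    rw [hT]
    exact ENNReal.mul_ne_top (ENNReal.mul_ne_top (hZ.fin s hs.le hs1 d x)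
      (ENNReal.mul_ne_top ENNReal.ofReal_ne_top (measure_ne_top _ _)))
      (hZ.fin s hs.le hs1 d (n - x))
  have hfin := ENNReal.toReal_mono ENNReal.ofReal_ne_top htot
  rw [ENNReal.toReal_ofReal (mul_nonneg (Nat.cast_nonneg l) hC0), ENNReal.toReal_sum hTtop]
    at hfin
  refine le_trans (le_of_eq ?_) hfin
  unfold cv
  rw [mul_sum]
  refine sum_congr rfl fun x _ => ?_
  rw [hTreal]
  ring

end

end Pool.Agent.IOrd
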