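import Mathlib
import Pool.Agent.Lib.MP_daa227_pr_IO.Defs
import Pool.Agent.Lib.MP_daa227_pr_IO.Basic

/-!
# MP_daa227_pr: infinite order. Existence of a rare good block.
-/

namespace Pool.Agent.IOrd

open MeasureTheory ProbabilityTheory Finset Filter Topology
open MP_daa227_pr (shift seqLaw ExpMom DepOn mom)

noncomputable section

variable {μ : Measure ℝ} [IsProbabilityMeasure μ] {Z : ℝ → ℕ → (ℕ → ℝ) → ℝ} {w : ℕ}

namespace RareA

/-- exponential tail of order `s'` gives a bounded moment of order `s < s'` -/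
lemma moment2 {P : Measure (ℕ → ℝ)} [IsProbabilityMeasure P] {Y : (ℕ → ℝ) → ℝ}
    (hY : Measurable Y) {s s' : ℝ} (hs : 0 < s) (hs' : s < s')
    (ht : ∀ x : ℝ, 0 ≤ x → P {ω | x ≤ Y ω} ≤ ENNReal.ofReal (Real.exp (-(s' * x)))) :
    ∫⁻ ω, ENNReal.ofReal (Real.exp (s * Y ω)) ∂P ≤
      ENNReal.ofReal (1 + Real.exp s * (1 - Real.exp (-(s' - s)))⁻¹) := by
  have hmeas : ∀ k : ℕ, MeasurableSet {ω : ℕ → ℝ | (k : ℝ) ≤ Y ω} := fun k =>
    measurableSet_le measurable_const hY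
  have h1 : ∀ ω, ENNReal.ofReal (Real.exp (s * Y ω)) ≤ 1 + ∑' k : ℕ,
      {ω : ℕ → ℝ | (k : ℝ) ≤ Y ω}.indicator
        (fun _ => ENNReal.ofReal (Real.exp (s * (k + 1)))) ω := by
    intro ω
    by_cases hω : Y ω < 0
    · refine le_trans ?_ le_self_add
      rw [← ENNReal.ofReal_one]
      apply ENNReal.ofReal_le_ofReal
      rw [Real.exp_le_one_iff]
      nlinarith
    · push Not at hω
      refine le_trans ?_ le_add_self
      obtain ⟨k, hk⟩ : ∃ k, k = ⌊Y ω⌋₊ := ⟨_, rfl⟩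
      have hk1 : (k : ℝ) ≤ Y ω := by rw [hk]; exact Nat.floor_le hω
      have hk2 : Y ω ≤ k + 1 := by rw [hk]; exact (Nat.lt_floor_add_one _).le
      refine le_trans ?_ (ENNReal.le_tsum k)
      rw [Set.indicator_of_mem (show ω ∈ {ω : ℕ → ℝ | (k : ℝ) ≤ Y ω} from hk1)]
      apply ENNReal.ofReal_le_ofReal
      apply Real.exp_le_exp.2
      exact mul_le_mul_of_nonneg_left hk2 hs.le
  have hr1 : Real.exp (-(s' - s)) < 1 := Real.exp_lt_one_iff.2 (by linarith)
  have hsum : Summable fun k : ℕ => Real.exp s * Real.exp (-(s' - s)) ^ k :=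
    (summable_geometric_of_lt_one (Real.exp_pos _).le hr1).mul_left _
  have h2 : ∀ k : ℕ, ENNReal.ofReal (Real.exp (s * (k + 1))) * P {ω : ℕ → ℝ | (k : ℝ) ≤ Y ω} ≤
      ENNReal.ofReal (Real.exp s * Real.exp (-(s' - s)) ^ k) := by
    intro k
    refine (mul_le_mul_right (ht k (Nat.cast_nonneg k)) _).trans (le_of_eq ?_)
    rw [← ENNReal.ofReal_mul (Real.exp_pos _).le, ← Real.exp_nat_mul, ← Real.exp_add,
      ← Real.exp_add]
    congr 2
    ring
  calc ∫⁻ ω, ENNReal.ofReal (Real.exp (s * Y ω)) ∂P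
      ≤ ∫⁻ ω, (1 + ∑' k : ℕ, {ω : ℕ → ℝ | (k : ℝ) ≤ Y ω}.indicator
        (fun _ => ENNReal.ofReal (Real.exp (s * (k + 1)))) ω) ∂P := lintegral_mono h1
    _ = 1 + ∑' k : ℕ, ENNReal.ofReal (Real.exp (s * (k + 1))) *
          P {ω : ℕ → ℝ | (k : ℝ) ≤ Y ω} := by
        rw [lintegral_add_left measurable_const, lintegral_tsum
          (fun k => (measurable_const.indicator (hmeas k)).aemeasurable)]
        congr 1
        · simp
        · exact tsum_congr fun k => lintegral_indicator_const (hmeas k) _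
    _ ≤ 1 + ∑' k : ℕ, ENNReal.ofReal (Real.exp s * Real.exp (-(s' - s)) ^ k) := by
        gcongr with k
        exact h2 k
    _ = ENNReal.ofReal (1 + Real.exp s * (1 - Real.exp (-(s' - s)))⁻¹) := by
        rw [← ENNReal.ofReal_tsum_of_nonneg (fun k => by positivity) hsum, tsum_mul_left,
          tsum_geometric_of_lt_one (Real.exp_pos _).le hr1,
          ENNReal.ofReal_add zero_le_one, ENNReal.ofReal_one]
        have : 0 < 1 - Real.exp (-(s' - s)) := by linarith
        positivity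

end RareA

/-- Otherwise `P(log Z_0 n ≥ y) ≤ exp (- s' y)` for all `n ≥ 1`, `y > 0`, hence (summing over the
unit intervals containing `log Z`) `aS s'' 0 n ≤ C` for all `n`, but `aS s'' 0 (k n) ≥ (aS s'' 0 n) ^ k`
is unbounded (`aS_pow`). Compare with `Pool.Agent.OT.H2.moment` in `MP_daa227_pr_OT/Hop.lean` for the
moment bound (that file may be imported). -/
theorem rare_exists (hZ : Sys w μ Z) {s' s'' : ℝ} (h0 : 0 < s'') (h1 : s'' ≤ 1) (h2 : s'' < s')
    (hn : ∃ n, 1 < aS μ Z s'' 0 n) :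
    ∃ (l₀ : ℕ) (y : ℝ), 1 ≤ l₀ ∧ 0 < y ∧
      ENNReal.ofReal (Real.exp (-(s' * y))) < seqLaw μ (Far Z l₀ y) := by
  by_contra hcon
  push Not at hcon
  have hr1 : Real.exp (-(s' - s'')) < 1 := Real.exp_lt_one_iff.2 (by linarith)
  have hr2 : 0 < 1 - Real.exp (-(s' - s'')) := by linarith
  have hC0 : 0 ≤ 1 + Real.exp s'' * (1 - Real.exp (-(s' - s'')))⁻¹ := by positivity
  have hb : ∀ l : ℕ, 1 ≤ l → aS μ Z s'' 0 l ≤
      1 + Real.exp s'' * (1 - Real.exp (-(s' - s'')))⁻¹ := by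
    intro l hl
    have hm := RareA.moment2 (P := seqLaw μ) (Y := fun ω => Real.log (Z 0 l ω))
      ((hZ.meas 0 l).log) h0 h2 (fun x hx => by
        rcases hx.eq_or_lt with hx0 | hx0
        · rw [← hx0, mul_zero, neg_zero, Real.exp_zero, ENNReal.ofReal_one]
          exact prob_le_one
        · exact hcon l x hl hx0)
    unfold aS mom
    refine ENNReal.toReal_le_of_le_ofReal hC0 (le_trans (le_of_eq ?_) hm)
    refine lintegral_congr fun ω => ?_
    rw [ENNReal.ofReal_rpow_of_pos (hZ.pos 0 l ω), Real.rpow_def_of_pos (hZ.pos 0 l ω), mul_comm]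
  obtain ⟨n, hn⟩ := hn
  have hn1 : 1 ≤ n := by
    rcases Nat.eq_zero_or_pos n with h | h
    · rw [h, aS_zero hZ] at hn
      exact absurd hn (lt_irrefl _)
    · exact h
  have hT := tendsto_pow_atTop_atTop_of_one_lt hn
  obtain ⟨k, hk1, hk2⟩ := ((hT.eventually_gt_atTop
    (1 + Real.exp s'' * (1 - Real.exp (-(s' - s'')))⁻¹)).and (eventually_ge_atTop 1)).exists
  have h5 := aS_pow hZ h0.le h1 0 n k
  have h6 := hb (k * n) (Nat.one_le_iff_ne_zero.2 (by positivity))
  linarith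

end

end Pool.Agent.IOrd
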