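import Mathlib
import Pool.Agent.Lib.MP_daa227_pr_IO.Defs
import Pool.Agent.Lib.MP_daa227_pr_IO.Basic

/-!
# MP_daa227_pr: infinite order. Concatenation of rare good blocks.
-/

namespace Pool.Agent.IOrd

open MeasureTheory ProbabilityTheory Finset Filter Topology
open MP_daa227_pr (shift seqLaw ExpMom DepOn mom)

noncomputable section

variable {μ : Measure ℝ} [IsProbabilityMeasure μ] {Z : ℝ → ℕ → (ℕ → ℝ) → ℝ} {w : ℕ}


theorem far_meas (hZ : Sys w μ Z) (l : ℕ) (L : ℝ) : MeasurableSet (Far Z l L) :=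
  measurableSet_le measurable_const (hZ.meas 0 l).log

/-- `Far k copies` and one more copy, independent -/
theorem far_succ (hZ : Sys w μ Z) (l₀ : ℕ) (y : ℝ) (k : ℕ) :
    seqLaw μ (Far Z l₀ y) * seqLaw μ (Far Z (k * l₀) (k * y)) ≤
      seqLaw μ (Far Z ((k + 1) * l₀) ((k + 1 : ℕ) * y)) := by
  have hA := far_meas (μ := μ) hZ l₀ y
  have hB := far_meas (μ := μ) hZ (k * l₀) (k * y)
  have hC := far_meas (μ := μ) hZ ((k + 1) * l₀) ((k + 1 : ℕ) * y)
  have hdep : DepOn (w * l₀) ((Far Z l₀ y).indicator (1 : (ℕ → ℝ) → ENNReal)) := by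
    intro ω ω' hω
    have h1 := hZ.dep 0 l₀ ω ω' hω
    have h2 : ω ∈ Far Z l₀ y ↔ ω' ∈ Far Z l₀ y := by
      show y ≤ Real.log (Z 0 l₀ ω) ↔ y ≤ Real.log (Z 0 l₀ ω')
      rw [h1]
    by_cases h3 : ω ∈ Far Z l₀ y
    · rw [Set.indicator_of_mem h3, Set.indicator_of_mem (h2.1 h3)]
      rfl
    · rw [Set.indicator_of_notMem h3, Set.indicator_of_notMem (fun h => h3 (h2.2 h))]
  have h := MP_daa227_pr.lintegral_mul_shift μ
    (Y := (Far Z (k * l₀) (k * y)).indicator 1) (measurable_one.indicator hB) (w * l₀)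
    (X := (Far Z l₀ y).indicator 1) (measurable_one.indicator hA) hdep
  rw [lintegral_indicator_one hA, lintegral_indicator_one hB] at h
  rw [← h, ← lintegral_indicator_one hC]
  refine lintegral_mono fun ω => ?_
  by_cases h1 : ω ∈ Far Z l₀ y
  · by_cases h2 : shift (w * l₀) ω ∈ Far Z (k * l₀) (k * y)
    · have h3 : ω ∈ Far Z ((k + 1) * l₀) ((k + 1 : ℕ) * y) := by
        have e1 : (k + 1) * l₀ = l₀ + k * l₀ := by ring
        show ((k + 1 : ℕ) : ℝ) * y ≤ Real.log (Z 0 ((k + 1) * l₀) ω)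
        rw [e1]
        have h4 := hZ.mul_le 0 l₀ (k * l₀) ω
        have p1 := hZ.pos 0 l₀ ω
        have p2 := hZ.pos 0 (k * l₀) (shift (w * l₀) ω)
        have h5 := Real.log_le_log (mul_pos p1 p2) h4
        rw [Real.log_mul p1.ne' p2.ne'] at h5
        have h1' : y ≤ Real.log (Z 0 l₀ ω) := h1
        have h2' : k * y ≤ Real.log (Z 0 (k * l₀) (shift (w * l₀) ω)) := h2
        push_cast
        linarith
      rw [Set.indicator_of_mem h1, Set.indicator_of_mem h2, Set.indicator_of_mem h3]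
      simp
    · rw [Set.indicator_of_notMem h2, mul_zero]
      exact bot_le
  · rw [Set.indicator_of_notMem h1, zero_mul]
    exact bot_le

/-- Markov -/
theorem far_markov (hZ : Sys w μ Z) {s : ℝ} (hs0 : 0 < s) (hs1 : s ≤ 1) (l : ℕ) (L : ℝ)
    (hS : aS μ Z s 0 l ≤ 1) : seqLaw μ (Far Z l L) ≤ ENNReal.ofReal (Real.exp (-(s * L))) := by
  have hfin := hZ.fin s hs0.le hs1 0 l
  have hle : mom μ s (Z 0 l) ≤ 1 := by
    have h1 : (mom μ s (Z 0 l)).toReal ≤ 1 := hS
    exact (ENNReal.toReal_le_toReal hfin ENNReal.one_ne_top).1 (by simpa using h1)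
  have hA := far_meas (μ := μ) hZ l L
  have h1 : ENNReal.ofReal (Real.exp (s * L)) * seqLaw μ (Far Z l L) ≤ mom μ s (Z 0 l) := by
    rw [← lintegral_indicator_const hA]
    unfold mom
    refine lintegral_mono fun ω => ?_
    by_cases h2 : ω ∈ Far Z l L
    · rw [Set.indicator_of_mem h2]
      have p1 := hZ.pos 0 l ω
      have h3 : L ≤ Real.log (Z 0 l ω) := h2
      rw [ENNReal.ofReal_rpow_of_pos p1]
      apply ENNReal.ofReal_le_ofReal
      rw [Real.rpow_def_of_pos p1]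
      apply Real.exp_le_exp.2
      nlinarith
    · rw [Set.indicator_of_notMem h2]
      exact bot_le
  have h2 : ENNReal.ofReal (Real.exp (-(s * L))) * (ENNReal.ofReal (Real.exp (s * L)) *
      seqLaw μ (Far Z l L)) ≤ ENNReal.ofReal (Real.exp (-(s * L))) * 1 := by
    gcongr
    exact h1.trans hle
  rw [← mul_assoc, ← ENNReal.ofReal_mul (Real.exp_pos _).le, ← Real.exp_add, neg_add_cancel,
    Real.exp_zero, ENNReal.ofReal_one, one_mul, mul_one] at h2
  exact h2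

/-- `π_k = P(Far (k l₀) (k y))`; `π_0 = 1`, `π_{k+1} ≥ p₀ π_k`, `π_k ≤ exp (- s k y)`; take the
least `k` with `π_k ≤ 1 / M`. -/
theorem rare_choose (hZ : Sys w μ Z) {s : ℝ} (hs0 : 0 < s) (hs1 : s ≤ 1)
    (hS : ∀ n, aS μ Z s 0 n ≤ 1) {l₀ : ℕ} {y : ℝ} (hy : 0 < y) {p₀ : ℝ}
    (hp : p₀ = (seqLaw μ (Far Z l₀ y)).toReal) (hp0 : 0 < p₀) {M : ℝ} (hM : 1 < M) :
    ∃ k : ℕ, 1 ≤ k ∧ p₀ / M ≤ (seqLaw μ (Far Z (k * l₀) (k * y))).toReal ∧
      (seqLaw μ (Far Z (k * l₀) (k * y))).toReal ≤ 1 / M ∧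
      ((k : ℝ) - 1) * (s * y) ≤ Real.log M ∧ Real.log M ≤ k * Real.log (1 / p₀) := by
  classical
  have hM0 : 0 < M := by linarith
  set π : ℕ → ℝ := fun k => (seqLaw μ (Far Z (k * l₀) (k * y))).toReal with hπ
  have hπ0 : π 0 = 1 := by
    have h1 : Far Z (0 * l₀) ((0 : ℕ) * y) = Set.univ := by
      ext ω
      simp only [Set.mem_univ, iff_true]
      show ((0 : ℕ) : ℝ) * y ≤ Real.log (Z 0 (0 * l₀) ω)
      rw [zero_mul, hZ.zero, Real.log_one]
      simp
    show (seqLaw μ (Far Z (0 * l₀) ((0 : ℕ) * y))).toReal = 1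
    rw [h1, measure_univ, ENNReal.toReal_one]
  have hπs : ∀ k, p₀ * π k ≤ π (k + 1) := by
    intro k
    have h1 := far_succ (μ := μ) hZ l₀ y k
    have h2 := ENNReal.toReal_mono (measure_ne_top _ _) h1
    rw [ENNReal.toReal_mul, ← hp] at h2
    exact h2
  have hπe : ∀ k, π k ≤ Real.exp (-(s * (k * y))) := by
    intro k
    have h1 := far_markov (μ := μ) hZ hs0 hs1 (k * l₀) (k * y) (hS _)
    have h2 := ENNReal.toReal_mono ENNReal.ofReal_ne_top h1
    rwa [ENNReal.toReal_ofReal (Real.exp_pos _).le] at h2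
  have hpow : ∀ k, p₀ ^ k ≤ π k := by
    intro k
    induction k with
    | zero => rw [pow_zero, hπ0]
    | succ k ih =>
      rw [pow_succ, mul_comm]
      exact (mul_le_mul_of_nonneg_left ih hp0.le).trans (hπs k)
  have hex : ∃ k, π k ≤ 1 / M := by
    obtain ⟨k, hk⟩ := exists_nat_gt (Real.log M / (s * y))
    refine ⟨k, (hπe k).trans ?_⟩
    rw [div_lt_iff₀ (mul_pos hs0 hy)] at hk
    rw [one_div, ← Real.exp_log hM0, ← Real.exp_neg]
    apply Real.exp_le_exp.2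
    nlinarith
  obtain ⟨k, hk⟩ : ∃ k, k = Nat.find hex := ⟨_, rfl⟩
  have hk1 : π k ≤ 1 / M := by
    rw [hk]
    exact Nat.find_spec hex
  have hkmin : ∀ j < k, 1 / M < π j := by
    intro j hj
    rw [hk] at hj
    exact not_le.1 (Nat.find_min hex hj)
  have hk0 : 1 ≤ k := by
    by_contra hcon
    have h1 : k = 0 := by omega
    rw [h1, hπ0, le_div_iff₀ hM0] at hk1
    linarith
  obtain ⟨j, rfl⟩ : ∃ j, k = j + 1 := ⟨k - 1, by omega⟩
  have hj := hkmin j (Nat.lt_succ_self j)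
  refine ⟨j + 1, hk0, ?_, hk1, ?_, ?_⟩
  · refine le_trans ?_ (hπs j)
    rw [div_eq_mul_one_div]
    exact mul_le_mul_of_nonneg_left hj.le hp0.le
  · have h1 := hj.trans_le (hπe j)
    rw [one_div, ← Real.exp_log hM0, ← Real.exp_neg, Real.exp_lt_exp] at h1
    push_cast
    have h2 : ((j : ℝ) + 1 - 1) * (s * y) = s * (j * y) := by ring
    rw [h2]
    linarith
  · have h1 := (hpow (j + 1)).trans hk1
    have h2 := Real.log_le_log (pow_pos hp0 _) h1
    rw [Real.log_pow, one_div, Real.log_inv] at h2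
    rw [one_div, Real.log_inv]
    linarith

end

end Pool.Agent.IOrd
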