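import Mathlib
import Pool.Agent.Lib.MP_daa227_pr_IO.CopDefs

/-!
# MP_daa227_pr: infinite order. The copolymer: the derivative in the energy.
-/

namespace Pool.Agent.IOrd

open MeasureTheory ProbabilityTheory Finset Filter Topology
open MP_daa227_pr (shift seqLaw ExpMom DepOn mom)
open Pool.Agent.OT (Zr gW KerOK en lmg)

noncomputable section

variable {a b : ℕ → ℝ}

namespace CopD

/-- the resolvent identity -/
theorem resolv_abs {P P' G G' : ℕ → ℕ → ℝ} (h0 : ∀ x, P x x = 1) (h0' : ∀ x, P' x x = 1)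
    (h1 : ∀ x y, x < y → P x y = ∑ z ∈ Ioc x y, G x z * P z y)
    (h1' : ∀ x y, x < y → P' x y = ∑ z ∈ Ioc x y, G' x z * P' z y) (n : ℕ) :
    P' 0 n - P 0 n = ∑ x ∈ range n, ∑ y ∈ Ioc x n, P' 0 x * (G' x y - G x y) * P y n := by
  have hl : ∀ y, 0 < y → P' 0 y = ∑ z ∈ Ico 0 y, P' 0 z * G' z y := fun y hy =>
    Pool.Agent.OT.D.last_abs h0' h1' y 0 y (by omega) hy
  have e1 : ∑ x ∈ range n, ∑ y ∈ Ioc x n, P' 0 x * G' x y * P y n =
      ∑ y ∈ Ioc 0 n, P' 0 y * P y n := by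
    rw [sum_comm' (t' := Ioc 0 n) (s' := fun y => Ico 0 y)
      (by intro z w; simp only [mem_range, mem_Ico, mem_Ioc]; omega)]
    refine sum_congr rfl fun y hy => ?_
    rw [mem_Ioc] at hy
    rw [hl y hy.1, sum_mul]
  have e2 : ∑ x ∈ range n, ∑ y ∈ Ioc x n, P' 0 x * G x y * P y n =
      ∑ x ∈ range n, P' 0 x * P x n := by
    refine sum_congr rfl fun x hx => ?_
    rw [mem_range] at hx
    rw [h1 x n hx, mul_sum]
    exact sum_congr rfl fun y _ => by ring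
  have e3 : ∑ x ∈ range n, ∑ y ∈ Ioc x n, P' 0 x * (G' x y - G x y) * P y n =
      ∑ y ∈ Ioc 0 n, P' 0 y * P y n - ∑ x ∈ range n, P' 0 x * P x n := by
    rw [← e1, ← e2, ← sum_sub_distrib]
    refine sum_congr rfl fun x _ => ?_
    rw [← sum_sub_distrib]
    exact sum_congr rfl fun y _ => by ring
  have e4 : ∑ x ∈ range n, P' 0 x * P x n + P' 0 n * P n n =
      ∑ y ∈ Ioc 0 n, P' 0 y * P y n + P' 0 0 * P 0 n := by
    rw [← sum_range_succ (fun x => P' 0 x * P x n) n]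
    have hr : range (n + 1) = insert 0 (Ioc 0 n) := by
      ext z; simp only [mem_range, mem_insert, mem_Ioc]; omega
    rw [hr, sum_insert (by simp), add_comm]
  rw [h0, h0', mul_one, one_mul] at e4
  rw [e3]
  linarith

/-- the elementary inequality -/
theorem exp_diff (u m : ℝ) : Real.exp (u + m) - Real.exp u ≤ m * Real.exp (u + m) := by
  have h := Real.add_one_le_exp (-m)
  have e : Real.exp u = Real.exp (-m) * Real.exp (u + m) := by
    rw [← Real.exp_add]; congr 1; ring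
  rw [e]
  have hp := Real.exp_pos (u + m)
  nlinarith

theorem gW_diff (hK : KerOK a b) {k : ℕ} (hk : 1 ≤ k) {c : ℝ} (hc : 0 ≤ c) (θ θ' : ℕ → ℝ)
    (hθ : ∀ i, θ' i = θ i + c) :
    gW a b k θ' - gW a b k θ ≤ c * (gW a b k θ' + 2 * (k : ℝ) * bW b k θ') := by
  unfold gW bW
  have e1 : θ' (2 * k - 1) = θ (2 * k - 1) + c := hθ _
  have e2 : ∑ i ∈ range (2 * k), θ' i = ∑ i ∈ range (2 * k), θ i + 2 * k * c := by
    rw [sum_congr rfl fun i _ => hθ i, sum_add_distrib, sum_const, card_range, nsmul_eq_mul]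
    push_cast
    ring
  have ha := (hK.a_pos k hk).le
  have hb := (hK.b_pos k hk).le
  have h1 := mul_le_mul_of_nonneg_left (exp_diff (θ (2 * k - 1)) c) ha
  have h2 := mul_le_mul_of_nonneg_left (exp_diff (∑ i ∈ range (2 * k), θ i) (2 * k * c)) hb
  rw [← e1] at h1
  rw [← e2] at h2
  have h3 : 0 ≤ c * (b k * Real.exp (∑ i ∈ range (2 * k), θ' i)) :=
    mul_nonneg hc (mul_nonneg hb (Real.exp_pos _).le)
  nlinarith

end CopD

/-- Induction on `n` (`OT.D.Zr_succ`) gives `Z(θ + c) - Z(θ) ≤ c ∑_{x < y ≤ n} Z_x ġ_{y-x} Z_{n-y}` (all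
at `θ + c`), `ġ_k = a_k e^{θ_{2k-1}} + 2 k b_k e^{∑ θ}`, using `e^{u + m c} - e^u ≤ m c e^{u + m c}`
and monotonicity; then `ġ_k ≤ gW_k + 2 k bW_k` and `∑_{x < y} Z_x gW_{y-x} = Z_y` (`OT.Zr_last`). -/
theorem Zr_deriv (hK : KerOK a b) (n : ℕ) {c : ℝ} (hc : 0 ≤ c) (θ θ' : ℕ → ℝ)
    (hθ : ∀ i, θ' i = θ i + c) :
    Zr a b n θ' - Zr a b n θ ≤
      c * (∑ y ∈ range (n + 1), Zr a b y θ' * Zr a b (n - y) (shift (2 * y) θ') +
        ∑ x ∈ range n, ∑ y ∈ Ioc x n, 2 * ((y - x : ℕ) : ℝ) *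
          (Zr a b x θ' * bW b (y - x) (shift (2 * x) θ') * Zr a b (n - y) (shift (2 * y) θ'))) := by
  have hres := CopD.resolv_abs (P := fun x y => Zr a b (y - x) (shift (2 * x) θ))
    (P' := fun x y => Zr a b (y - x) (shift (2 * x) θ'))
    (G := fun x y => gW a b (y - x) (shift (2 * x) θ))
    (G' := fun x y => gW a b (y - x) (shift (2 * x) θ'))
    (fun x => by simp only [Nat.sub_self]; exact Pool.Agent.OT.D.Zr_zero a b _)
    (fun x => by simp only [Nat.sub_self]; exact Pool.Agent.OT.D.Zr_zero a b _)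
    (fun x y hxy => Pool.Agent.OT.D.Zr_rec a b θ x y hxy)
    (fun x y hxy => Pool.Agent.OT.D.Zr_rec a b θ' x y hxy) n
  simp only [Nat.sub_zero, Nat.mul_zero, MP_daa227_pr.shift_zero] at hres
  rw [hres]
  have hmono : ∀ y m, Zr a b m (shift (2 * y) θ) ≤ Zr a b m (shift (2 * y) θ') := fun y m =>
    Pool.Agent.OT.SupAux.Zr_mono hK m (fun i => by
      rw [MP_daa227_pr.shift_apply, MP_daa227_pr.shift_apply, hθ]; linarith)
  have hsh : ∀ x i, shift (2 * x) θ' i = shift (2 * x) θ i + c := fun x i => by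
    rw [MP_daa227_pr.shift_apply, MP_daa227_pr.shift_apply, hθ]
  have step1 : ∑ x ∈ range n, ∑ y ∈ Ioc x n, Zr a b x θ' *
      (gW a b (y - x) (shift (2 * x) θ') - gW a b (y - x) (shift (2 * x) θ)) *
        Zr a b (n - y) (shift (2 * y) θ) ≤
      ∑ x ∈ range n, ∑ y ∈ Ioc x n, Zr a b x θ' *
        (c * (gW a b (y - x) (shift (2 * x) θ') + 2 * ((y - x : ℕ) : ℝ) *
          bW b (y - x) (shift (2 * x) θ'))) * Zr a b (n - y) (shift (2 * y) θ') := by
    refine sum_le_sum fun x _ => sum_le_sum fun y hy => ?_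
    rw [mem_Ioc] at hy
    have hk : 1 ≤ y - x := by omega
    have hd := CopD.gW_diff hK hk hc _ _ (hsh x)
    have hZx := (Pool.Agent.OT.Zr_pos hK x θ').le
    have hZy := (Pool.Agent.OT.Zr_pos hK (n - y) (shift (2 * y) θ)).le
    have hb0 : 0 ≤ bW b (y - x) (shift (2 * x) θ') :=
      mul_nonneg (hK.b_pos _ hk).le (Real.exp_pos _).le
    have hg0 := (Pool.Agent.OT.D.gW_pos hK hk (shift (2 * x) θ')).le
    refine mul_le_mul (mul_le_mul_of_nonneg_left hd hZx) (hmono y (n - y)) hZy ?_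
    positivity
  refine step1.trans ?_
  have hlast : ∀ y, Zr a b (y + 1) θ' = ∑ x ∈ range (y + 1),
      Zr a b x θ' * gW a b (y + 1 - x) (shift (2 * x) θ') := fun y =>
    Pool.Agent.OT.Zr_last a b y θ'
  have hA : ∑ x ∈ range n, ∑ y ∈ Ioc x n, Zr a b x θ' * gW a b (y - x) (shift (2 * x) θ') *
      Zr a b (n - y) (shift (2 * y) θ') =
      ∑ y ∈ Ioc 0 n, Zr a b y θ' * Zr a b (n - y) (shift (2 * y) θ') := by
    rw [sum_comm' (t' := Ioc 0 n) (s' := fun y => range y)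
      (by intro z w; simp only [mem_range, mem_Ioc]; omega)]
    refine sum_congr rfl fun y hy => ?_
    rw [mem_Ioc] at hy
    obtain ⟨m, rfl⟩ : ∃ m, y = m + 1 := ⟨y - 1, by omega⟩
    rw [hlast m, sum_mul]
  have hB : ∑ y ∈ Ioc 0 n, Zr a b y θ' * Zr a b (n - y) (shift (2 * y) θ') ≤
      ∑ y ∈ range (n + 1), Zr a b y θ' * Zr a b (n - y) (shift (2 * y) θ') := by
    refine sum_le_sum_of_subset_of_nonneg ?_ fun y _ _ => ?_
    · intro y hy
      rw [mem_Ioc] at hy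
      rw [mem_range]
      omega
    · exact mul_nonneg (Pool.Agent.OT.Zr_pos hK _ _).le (Pool.Agent.OT.Zr_pos hK _ _).le
  have hC : ∑ x ∈ range n, ∑ y ∈ Ioc x n, Zr a b x θ' *
        (c * (gW a b (y - x) (shift (2 * x) θ') + 2 * ((y - x : ℕ) : ℝ) *
          bW b (y - x) (shift (2 * x) θ'))) * Zr a b (n - y) (shift (2 * y) θ') =
      c * (∑ x ∈ range n, ∑ y ∈ Ioc x n, Zr a b x θ' * gW a b (y - x) (shift (2 * x) θ') *
        Zr a b (n - y) (shift (2 * y) θ') +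
        ∑ x ∈ range n, ∑ y ∈ Ioc x n, 2 * ((y - x : ℕ) : ℝ) *
          (Zr a b x θ' * bW b (y - x) (shift (2 * x) θ') *
            Zr a b (n - y) (shift (2 * y) θ'))) := by
    rw [← sum_add_distrib, mul_sum]
    refine sum_congr rfl fun x _ => ?_
    rw [← sum_add_distrib, mul_sum]
    exact sum_congr rfl fun y _ => by ring
  rw [hC, hA]
  exact mul_le_mul_of_nonneg_left (add_le_add hB le_rfl) hc

/-- a negative excursion is one of the possible excursions: `OT.Zr_mul_le` twice -/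
theorem term_le (hK : KerOK a b) {n x y : ℕ} (hxy : x < y) (hy : y ≤ n) (θ : ℕ → ℝ) :
    Zr a b x θ * bW b (y - x) (shift (2 * x) θ) * Zr a b (n - y) (shift (2 * y) θ) ≤
      Zr a b n θ := by
  have hk : 1 ≤ y - x := by omega
  have h1 : bW b (y - x) (shift (2 * x) θ) ≤ Zr a b (y - x) (shift (2 * x) θ) := by
    refine le_trans ?_ (Pool.Agent.OT.SupAux.gW_le_Zr hK hk _)
    unfold bW gW
    exact le_add_of_nonneg_left (mul_nonneg (hK.a_pos _ hk).le (Real.exp_pos _).le)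
  have hZx := (Pool.Agent.OT.Zr_pos hK x θ).le
  have hZy := (Pool.Agent.OT.Zr_pos hK (n - y) (shift (2 * y) θ)).le
  have h2 := Pool.Agent.OT.Zr_mul_le hK x (y - x) θ
  have h3 := Pool.Agent.OT.Zr_mul_le hK y (n - y) θ
  rw [Nat.add_sub_cancel' hxy.le] at h2
  rw [Nat.add_sub_cancel' hy] at h3
  exact (mul_le_mul_of_nonneg_right ((mul_le_mul_of_nonneg_left h1 hZx).trans h2) hZy).trans h3

end

end Pool.Agent.IOrd
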