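import Mathlib
import Pool.Agent.Lib.MP_daa227_pr_IO.Defs

/-!
# MP_daa227_pr: infinite order. From first to fractional powers.
-/

namespace Pool.Agent.IOrd

open MeasureTheory ProbabilityTheory Finset Filter Topology
open MP_daa227_pr (shift seqLaw ExpMom DepOn mom)

noncomputable section

/-- `z ^ s - z₀ ^ s ≤ z ^ (s - 1) (z - z₀)` because `(z₀ / z) ^ s ≥ z₀ / z`, and
`z ^ (s - 1) T ≤ T ^ s` for `0 ≤ T ≤ z`. -/
theorem pow_step {ι : Type*} (S : Finset ι) (T m : ι → ℝ) {z z₀ c s : ℝ} (hz0 : 0 < z₀)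
    (hz : z₀ ≤ z) (hs0 : 0 < s) (hs1 : s ≤ 1) (hc : 0 ≤ c) (hT0 : ∀ i ∈ S, 0 ≤ T i)
    (hT : ∀ i ∈ S, T i ≤ z) (hm : ∀ i ∈ S, 0 ≤ m i) (h : z - z₀ ≤ c * ∑ i ∈ S, m i * T i) :
    z ^ s ≤ z₀ ^ s + c * ∑ i ∈ S, m i * T i ^ s := by
  have hzp : 0 < z := hz0.trans_le hz
  have hzs : 0 < z ^ (s - 1) := Real.rpow_pos_of_pos hzp _
  have e1 : z ^ (s - 1) * z = z ^ s := by
    rw [← Real.rpow_add_one hzp.ne', sub_add_cancel]
  -- the first step
  have h1 : z ^ s - z₀ ^ s ≤ z ^ (s - 1) * (z - z₀) := by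
    have h2 : z₀ / z ≤ (z₀ / z) ^ s := by
      have h3 := Real.rpow_le_rpow_of_exponent_ge (div_pos hz0 hzp) ((div_le_one hzp).2 hz) hs1
      rwa [Real.rpow_one] at h3
    rw [Real.div_rpow hz0.le hzp.le, div_le_div_iff₀ hzp (Real.rpow_pos_of_pos hzp s)] at h2
    have h4 : z ^ (s - 1) * z₀ ≤ z₀ ^ s := by
      have h5 : z * (z ^ (s - 1) * z₀) ≤ z * z₀ ^ s := by
        calc z * (z ^ (s - 1) * z₀) = z₀ * (z ^ (s - 1) * z) := by ring
          _ = z₀ * z ^ s := by rw [e1]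
          _ ≤ z₀ ^ s * z := h2
          _ = z * z₀ ^ s := mul_comm _ _
      exact le_of_mul_le_mul_left h5 hzp
    calc z ^ s - z₀ ^ s ≤ z ^ s - z ^ (s - 1) * z₀ := by linarith
      _ = z ^ (s - 1) * (z - z₀) := by rw [mul_sub, e1]
  have h6 : ∀ i ∈ S, z ^ (s - 1) * (m i * T i) ≤ m i * T i ^ s := by
    intro i hi
    have h7 : z ^ (s - 1) * T i ≤ T i ^ s := by
      rcases (hT0 i hi).eq_or_lt with h0 | h0
      · rw [← h0, mul_zero, Real.zero_rpow hs0.ne']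
      · have h8 : z ^ (s - 1) ≤ T i ^ (s - 1) :=
          Real.rpow_le_rpow_of_nonpos h0 (hT i hi) (by linarith)
        calc z ^ (s - 1) * T i ≤ T i ^ (s - 1) * T i := mul_le_mul_of_nonneg_right h8 h0.le
          _ = T i ^ s := by rw [← Real.rpow_add_one h0.ne', sub_add_cancel]
    calc z ^ (s - 1) * (m i * T i) = m i * (z ^ (s - 1) * T i) := by ring
      _ ≤ m i * T i ^ s := mul_le_mul_of_nonneg_left h7 (hm i hi)
  have h9 : z ^ (s - 1) * (c * ∑ i ∈ S, m i * T i) ≤ c * ∑ i ∈ S, m i * T i ^ s := by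
    calc z ^ (s - 1) * (c * ∑ i ∈ S, m i * T i) = c * ∑ i ∈ S, z ^ (s - 1) * (m i * T i) := by
          rw [← Finset.mul_sum]
          ring
      _ ≤ c * ∑ i ∈ S, m i * T i ^ s :=
          mul_le_mul_of_nonneg_left (Finset.sum_le_sum h6) hc
  have h10 : z ^ (s - 1) * (z - z₀) ≤ z ^ (s - 1) * (c * ∑ i ∈ S, m i * T i) :=
    mul_le_mul_of_nonneg_left h hzs.le
  linarith

end

end Pool.Agent.IOrd
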