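import Mathlib
import Pool.Agent.Lib.MP_daa227_pr_IO.CopDefs
import Pool.Agent.Lib.MP_daa227_pr_IO.CopSys
import Pool.Agent.Lib.MP_daa227_pr_IO.CopD
import Pool.Agent.Lib.MP_daa227_pr_IO.PowStep

/-!
# MP_daa227_pr: infinite order. The copolymer: the derivative and the fractional moments.
-/

namespace Pool.Agent.IOrd

open MeasureTheory ProbabilityTheory Finset Filter Topology
open MP_daa227_pr (shift seqLaw ExpMom DepOn mom)
open Pool.Agent.OT (Zr gW KerOK en lmg)

noncomputable section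

variable {a b : ℕ → ℝ}

namespace CopM

/-- integration of a pointwise inequality between powers -/
theorem int_step {ι : Type*} {μ : Measure ℝ} [IsProbabilityMeasure μ] (S : Finset ι) (m : ι → ℝ)
    (T : ι → (ℕ → ℝ) → ℝ) {F G : (ℕ → ℝ) → ℝ} {s d : ℝ} (hs0 : 0 < s) (hd : 0 ≤ d)
    (hm : ∀ i ∈ S, 0 ≤ m i) (hF : ∀ ω, 0 ≤ F ω) (hG0 : ∀ ω, 0 ≤ G ω) (hG : Measurable G)
    (hT0 : ∀ i ∈ S, ∀ ω, 0 ≤ T i ω) (hTm : ∀ i ∈ S, Measurable (T i)) (hGf : mom μ s G ≠ ⊤)
    (hTf : ∀ i ∈ S, mom μ s (T i) ≠ ⊤)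
    (h : ∀ ω, F ω ^ s ≤ G ω ^ s + d * ∑ i ∈ S, m i * T i ω ^ s) :
    (mom μ s F).toReal ≤ (mom μ s G).toReal + d * ∑ i ∈ S, m i * (mom μ s (T i)).toReal := by
  have e1 : mom μ s F ≤ mom μ s G +
      ENNReal.ofReal d * ∑ i ∈ S, ENNReal.ofReal (m i) * mom μ s (T i) := by
    unfold mom
    calc ∫⁻ ω, ENNReal.ofReal (F ω) ^ s ∂seqLaw μ
        ≤ ∫⁻ ω, (ENNReal.ofReal (G ω) ^ s + ENNReal.ofReal d *
            ∑ i ∈ S, ENNReal.ofReal (m i) * ENNReal.ofReal (T i ω) ^ s) ∂seqLaw μ := by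
          refine lintegral_mono fun ω => ?_
          dsimp only
          have e2 : ∑ i ∈ S, ENNReal.ofReal (m i) * ENNReal.ofReal (T i ω) ^ s =
              ENNReal.ofReal (∑ i ∈ S, m i * T i ω ^ s) := by
            rw [ENNReal.ofReal_sum_of_nonneg]
            · refine sum_congr rfl fun i hi => ?_
              rw [ENNReal.ofReal_rpow_of_nonneg (hT0 i hi ω) hs0.le,
                ENNReal.ofReal_mul (hm i hi)]
            · intro i hi
              exact mul_nonneg (hm i hi) (Real.rpow_nonneg (hT0 i hi ω) _)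
          have e3 : 0 ≤ ∑ i ∈ S, m i * T i ω ^ s := sum_nonneg fun i hi =>
            mul_nonneg (hm i hi) (Real.rpow_nonneg (hT0 i hi ω) _)
          rw [e2, ENNReal.ofReal_rpow_of_nonneg (hF ω) hs0.le,
            ENNReal.ofReal_rpow_of_nonneg (hG0 ω) hs0.le, ← ENNReal.ofReal_mul hd,
            ← ENNReal.ofReal_add (Real.rpow_nonneg (hG0 ω) _) (mul_nonneg hd e3)]
          exact ENNReal.ofReal_le_ofReal (h ω)
      _ = _ := by
          have e4 : ∀ i ∈ S, Measurable fun ω =>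
              ENNReal.ofReal (m i) * ENNReal.ofReal (T i ω) ^ s := fun i hi =>
            (MP_daa227_pr.measurable_momf (hTm i hi)).const_mul _
          rw [lintegral_add_left (MP_daa227_pr.measurable_momf hG),
            lintegral_const_mul _ (Finset.measurable_sum _ e4),
            lintegral_finsetSum _ e4]
          congr 2
          refine sum_congr rfl fun i hi => ?_
          rw [lintegral_const_mul _ (MP_daa227_pr.measurable_momf (hTm i hi))]
  have e5 : ∀ i ∈ S, ENNReal.ofReal (m i) * mom μ s (T i) ≠ ⊤ := fun i hi =>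
    ENNReal.mul_ne_top ENNReal.ofReal_ne_top (hTf i hi)
  have e6 : ENNReal.ofReal d * ∑ i ∈ S, ENNReal.ofReal (m i) * mom μ s (T i) ≠ ⊤ :=
    ENNReal.mul_ne_top ENNReal.ofReal_ne_top (ENNReal.sum_ne_top.2 e5)
  have e7 := ENNReal.toReal_mono (ENNReal.add_ne_top.2 ⟨hGf, e6⟩) e1
  rw [ENNReal.toReal_add hGf e6, ENNReal.toReal_mul, ENNReal.toReal_ofReal hd,
    ENNReal.toReal_sum e5] at e7
  have e8 : ∑ i ∈ S, (ENNReal.ofReal (m i) * mom μ s (T i)).toReal =
      ∑ i ∈ S, m i * (mom μ s (T i)).toReal := by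
    refine sum_congr rfl fun i hi => ?_
    rw [ENNReal.toReal_mul, ENNReal.toReal_ofReal (hm i hi)]
  rwa [e8] at e7

/-- the moment of the weight of a negative excursion -/
theorem mom_bW {μ : Measure ℝ} [IsProbabilityMeasure μ] (hμ : ExpMom μ) (β h : ℝ) {s : ℝ}
    (hs0 : 0 < s) {k : ℕ} (hb : 0 ≤ b k) :
    mom μ s (fun ω => bW b k (en β h ω)) =
      ENNReal.ofReal (b k ^ s * OT.X1.qq μ β h s ^ (2 * k)) := by
  have hq : 0 ≤ OT.X1.qq μ β h s := integral_nonneg fun _ => (Real.exp_pos _).le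
  unfold bW
  rw [MP_daa227_pr.mom_const_mul hs0.le hb
    (Finset.measurable_sum _ fun i _ => OT.X1.meas_en β h i).exp, OT.X1.mom_block hμ β h hs0.le,
    ENNReal.ofReal_rpow_of_nonneg hb hs0.le, ← ENNReal.ofReal_pow hq,
    ← ENNReal.ofReal_mul (Real.rpow_nonneg hb _)]

theorem meas_bW (b : ℕ → ℝ) (β h : ℝ) (k : ℕ) : Measurable fun ω => bW b k (en β h ω) := by
  unfold bW
  exact (Finset.measurable_sum _ fun i _ => OT.X1.meas_en β h i).exp.const_mul _

theorem bW_nonneg {k : ℕ} (hb : 0 ≤ b k) (θ : ℕ → ℝ) : 0 ≤ bW b k θ :=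
  mul_nonneg hb (Real.exp_pos _).le

theorem dep_bW (b : ℕ → ℝ) (β h : ℝ) (k : ℕ) : DepOn (2 * k) fun ω => bW b k (en β h ω) := by
  intro ω ω' hω
  have : ∑ i ∈ range (2 * k), en β h ω i = ∑ i ∈ range (2 * k), en β h ω' i :=
    sum_congr rfl fun i hi => by simp only [en, hω i (mem_range.1 hi)]
  simp only [bW, this]

/-- reordering of the double sum -/
theorem reorder (u v : ℕ → ℝ) (n : ℕ) :
    ∑ x ∈ range n, ∑ y ∈ Ioc x n, v (y - x) * (u x * u (n - y)) =
      ∑ k ∈ Ioc 0 n, v k * cv u (n - k) := by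
  unfold cv
  simp_rw [mul_sum]
  rw [sum_sigma', sum_sigma']
  refine sum_nbij' (fun p => ⟨p.2 - p.1, p.1⟩) (fun p => ⟨p.2, p.2 + p.1⟩) ?_ ?_ ?_ ?_ ?_
  · rintro ⟨x, y⟩ hp
    simp only [mem_sigma, mem_range, mem_Ioc] at hp ⊢
    omega
  · rintro ⟨x, y⟩ hp
    simp only [mem_sigma, mem_range, mem_Ioc] at hp ⊢
    omega
  · rintro ⟨x, y⟩ hp
    simp only [mem_sigma, mem_range, mem_Ioc] at hp
    have : x + (y - x) = y := by omega
    simp only [this]
  · rintro ⟨x, y⟩ hp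
    simp only [mem_sigma, mem_range, mem_Ioc] at hp
    have : y + x - y = x := by omega
    simp only [this]
  · rintro ⟨x, y⟩ hp
    simp only [mem_sigma, mem_range, mem_Ioc] at hp
    have : n - (y - x) - x = n - y := by omega
    simp only [this]

end CopM

/-- `Zr_deriv` with `c = d`, `θ = en β hc ω`, `θ' = en β (hc - d) ω`, `pow_step` (index set: the disjoint
union of `range (n + 1)` and the pairs `x < y ≤ n`, multiplicities `1` and `2 (y - x)`), integrate:
independence gives `E (Z_y Z_{n-y}) ^ s = a_y a_{n-y}` and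
`E (Z_x bW_{y-x} Z_{n-y}) ^ s = a_x (b_{y-x} ^ s qq ^ (2 (y - x))) a_{n-y}` (`OT.X1.mom_block`); put
`k = y - x`. -/
theorem cop_deriv (hK : KerOK a b) {μ : Measure ℝ} [IsProbabilityMeasure μ] (hμ : ExpMom μ)
    (β hc : ℝ) {s : ℝ} (hs0 : 0 < s) (hs1 : s ≤ 1) {d : ℝ} (hd : 0 ≤ d) (n : ℕ) :
    aS μ (Zc a b β hc) s d n ≤ aS μ (Zc a b β hc) s 0 n + d * (cv (aS μ (Zc a b β hc) s d) n +
      ∑ k ∈ Ioc 0 n, 2 * (k : ℝ) * (b k ^ s * OT.X1.qq μ β (hc - d) s ^ (2 * k)) *
        cv (aS μ (Zc a b β hc) s d) (n - k)) := by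
  set q := OT.X1.qq μ β (hc - d) s with hq
  have hq0 : 0 ≤ q := integral_nonneg fun _ => (Real.exp_pos _).le
  have sys := cop_sys hK μ hμ β hc
  have hb : ∀ k, 0 ≤ b k := OT.SupAux.b_nonneg hK
  have hZp : ∀ k θ, 0 < Zr a b k θ := fun k θ => OT.Zr_pos hK k θ
  have hmZ : ∀ k, Measurable fun ω => Zr a b k (en β (hc - d) ω) :=
    fun k => OT.X1.meas_Zr a b β (hc - d) k
  -- the moments of the products
  have m1 : ∀ y, mom μ s (fun ω => Zr a b y (en β (hc - d) ω) *
      Zr a b (n - y) (shift (2 * y) (en β (hc - d) ω))) =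
      mom μ s (Zc a b β hc d y) * mom μ s (Zc a b β hc d (n - y)) := by
    intro y
    rw [← MP_daa227_pr.mom_mul_shift hs0.le (sys.meas d y) (sys.meas d (n - y)) (sys.dep d y)
      (fun ω => (sys.pos d y ω).le)]
    refine MP_daa227_pr.mom_congr fun ω => ?_
    rw [OT.X1.shift_en]
    rfl
  have m2 : ∀ x y, x ≤ y → mom μ s (fun ω => Zr a b x (en β (hc - d) ω) *
      bW b (y - x) (shift (2 * x) (en β (hc - d) ω)) *
      Zr a b (n - y) (shift (2 * y) (en β (hc - d) ω))) =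
      mom μ s (Zc a b β hc d x) * (ENNReal.ofReal (b (y - x) ^ s * q ^ (2 * (y - x))) *
        mom μ s (Zc a b β hc d (n - y))) := by
    intro x y hxy
    rw [← CopM.mom_bW hμ β (hc - d) hs0 (hb (y - x)),
      ← MP_daa227_pr.mom_mul_shift hs0.le (CopM.meas_bW b β (hc - d) (y - x))
        (sys.meas d (n - y)) (CopM.dep_bW b β (hc - d) (y - x))
        (fun ω => CopM.bW_nonneg (hb _) _),
      ← MP_daa227_pr.mom_mul_shift hs0.le
        (G := fun ω => bW b (y - x) (en β (hc - d) ω) *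
          Zc a b β hc d (n - y) (shift (2 * (y - x)) ω)) (sys.meas d x)
        ((CopM.meas_bW b β (hc - d) (y - x)).mul
          ((sys.meas d (n - y)).comp (MP_daa227_pr.measurable_shift _))) (sys.dep d x)
        (fun ω => (sys.pos d x ω).le)]
    refine MP_daa227_pr.mom_congr fun ω => ?_
    rw [OT.X1.shift_en, OT.X1.shift_en, MP_daa227_pr.shift_shift,
      show 2 * (y - x) + 2 * x = 2 * y by omega, mul_assoc]
    rfl
  have key := CopM.int_step (μ := μ)
    ((range (n + 1)).disjSum ((range n).sigma fun x => Ioc x n))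
    (Sum.elim (fun _ => (1 : ℝ)) (fun p => 2 * ((p.2 - p.1 : ℕ) : ℝ)))
    (Sum.elim (fun y ω => Zr a b y (en β (hc - d) ω) *
        Zr a b (n - y) (shift (2 * y) (en β (hc - d) ω)))
      (fun p ω => Zr a b p.1 (en β (hc - d) ω) *
        bW b (p.2 - p.1) (shift (2 * p.1) (en β (hc - d) ω)) *
        Zr a b (n - p.2) (shift (2 * p.2) (en β (hc - d) ω))))
    (F := Zc a b β hc d n) (G := Zc a b β hc 0 n) hs0 hd ?_ (fun ω => (sys.pos d n ω).le)
    (fun ω => (sys.pos 0 n ω).le) (sys.meas 0 n) ?_ ?_ (sys.fin s hs0.le hs1 0 n) ?_ ?_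
  · unfold aS
    refine key.trans (le_of_eq ?_)
    congr 2
    rw [sum_disjSum, sum_sigma]
    simp only [Sum.elim_inl, Sum.elim_inr, one_mul]
    congr 1
    · unfold cv
      refine sum_congr rfl fun y _ => ?_
      rw [m1, ENNReal.toReal_mul]
    · have r := CopM.reorder (fun n => (mom μ s (Zc a b β hc d n)).toReal)
        (fun k => 2 * (k : ℝ) * (b k ^ s * q ^ (2 * k))) n
      rw [← r]
      refine sum_congr rfl fun x hx => sum_congr rfl fun y hy => ?_
      rw [mem_Ioc] at hy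
      rw [m2 x y hy.1.le, ENNReal.toReal_mul, ENNReal.toReal_mul, ENNReal.toReal_ofReal
        (mul_nonneg (Real.rpow_nonneg (hb _) _) (pow_nonneg hq0 _))]
      ring
  · rintro (y | ⟨x, y⟩) _
    · exact zero_le_one
    · simp only [Sum.elim_inr]
      positivity
  · rintro (y | ⟨x, y⟩) _ ω
    · exact (mul_pos (hZp _ _) (hZp _ _)).le
    · exact mul_nonneg (mul_nonneg (hZp _ _).le (CopM.bW_nonneg (hb _) _)) (hZp _ _).le
  · rintro (y | ⟨x, y⟩) _
    · simp only [Sum.elim_inl, OT.X1.shift_en]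
      exact (hmZ y).mul ((hmZ (n - y)).comp (MP_daa227_pr.measurable_shift _))
    · simp only [Sum.elim_inr, OT.X1.shift_en]
      exact ((hmZ x).mul ((CopM.meas_bW b β (hc - d) (y - x)).comp
        (MP_daa227_pr.measurable_shift _))).mul
        ((hmZ (n - y)).comp (MP_daa227_pr.measurable_shift _))
  · rintro (y | ⟨x, y⟩) hi
    · simp only [Sum.elim_inl]
      rw [m1]
      exact ENNReal.mul_ne_top (sys.fin s hs0.le hs1 d _) (sys.fin s hs0.le hs1 d _)
    · simp only [Sum.elim_inr]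
      rw [inr_mem_disjSum, mem_sigma, mem_Ioc] at hi
      rw [m2 x y hi.2.1.le]
      exact ENNReal.mul_ne_top (sys.fin s hs0.le hs1 d _)
        (ENNReal.mul_ne_top ENNReal.ofReal_ne_top (sys.fin s hs0.le hs1 d _))
  · intro ω
    refine pow_step _ _ _ (sys.pos 0 n ω) (sys.mono 0 d n ω hd) hs0 hs1 hd ?_ ?_ ?_ ?_
    · rintro (y | ⟨x, y⟩) _
      · exact (mul_pos (hZp _ _) (hZp _ _)).le
      · exact mul_nonneg (mul_nonneg (hZp _ _).le (CopM.bW_nonneg (hb _) _)) (hZp _ _).le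
    · rintro (y | ⟨x, y⟩) hi
      · rw [inl_mem_disjSum, mem_range] at hi
        simp only [Sum.elim_inl]
        have h1 := OT.Zr_mul_le hK y (n - y) (en β (hc - d) ω)
        rwa [show y + (n - y) = n by omega] at h1
      · rw [inr_mem_disjSum, mem_sigma, mem_Ioc] at hi
        exact term_le hK hi.2.1 hi.2.2 _
    · rintro (y | ⟨x, y⟩) _
      · exact zero_le_one
      · simp only [Sum.elim_inr]
        positivity
    · rw [sum_disjSum, sum_sigma]
      simp only [Sum.elim_inl, Sum.elim_inr, one_mul]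
      refine Zr_deriv hK n hd (en β (hc - 0) ω) (en β (hc - d) ω) ?_
      intro i
      unfold en
      ring

end

end Pool.Agent.IOrd
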