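import Mathlib
import Pool.Agent.Lib.MP_daa227_pr_IO.CopDefs
import Pool.Agent.Lib.MP_daa227_pr_IO.CopSys
import Pool.Agent.Lib.MP_daa227_pr_OT.FracBig

/-!
# MP_daa227_pr: infinite order. The copolymer: decomposition at an intermediate time.
-/

namespace Pool.Agent.IOrd

open MeasureTheory ProbabilityTheory Finset Filter Topology
open MP_daa227_pr (shift seqLaw ExpMom DepOn mom)
open Pool.Agent.OT (Zr gW KerOK en lmg)

noncomputable section

variable {a b : ℕ → ℝ}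

namespace CopMid

theorem a_nonneg (hK : KerOK a b) (k : ℕ) : 0 ≤ a k := by
  rcases Nat.eq_zero_or_pos k with rfl | hk
  · exact hK.a_zero.ge
  · exact (hK.a_pos k hk).le

theorem b_nonneg (hK : KerOK a b) (k : ℕ) : 0 ≤ b k := by
  rcases Nat.eq_zero_or_pos k with rfl | hk
  · exact hK.b_zero.ge
  · exact (hK.b_pos k hk).le

theorem add_le_one (hK : KerOK a b) (k : ℕ) : a k + b k ≤ 1 :=
  le_hasSum hK.sum_one k fun j _ => add_nonneg (a_nonneg hK j) (b_nonneg hK j)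

theorem mom_gW_le (hK : KerOK a b) {μ : Measure ℝ} [IsProbabilityMeasure μ] (hμ : ExpMom μ)
    (β h : ℝ) {s : ℝ} (hs0 : 0 < s) (hs1 : s ≤ 1) (hq : OT.X1.qq μ β h s ≤ 1) (k : ℕ) :
    mom μ s (fun ω => gW a b k (en β h ω)) ≤ 2 := by
  have hq0 : 0 ≤ OT.X1.qq μ β h s := integral_nonneg fun _ => (Real.exp_pos _).le
  have ha := a_nonneg hK k
  have hb := b_nonneg hK k
  have hab := add_le_one hK k
  refine (OT.X1.mom_gW hμ β h hs0 hs1 ha hb).trans ?_
  have h1 : a k ^ s ≤ 1 := Real.rpow_le_one ha (by linarith) hs0.le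
  have h2 : b k ^ s ≤ 1 := Real.rpow_le_one hb (by linarith) hs0.le
  have h3 : OT.X1.qq μ β h s ^ (2 * k) ≤ 1 := pow_le_one₀ hq0 hq
  have h4 : a k ^ s * OT.X1.qq μ β h s ≤ 1 := mul_le_one₀ h1 hq0 hq
  have h5 : b k ^ s * OT.X1.qq μ β h s ^ (2 * k) ≤ 1 := mul_le_one₀ h2 (pow_nonneg hq0 _) h3
  have h6 : (2 : ENNReal) = ENNReal.ofReal 2 := by norm_num
  rw [h6]
  exact ENNReal.ofReal_le_ofReal (by linarith)

theorem key (hK : KerOK a b) {μ : Measure ℝ} [IsProbabilityMeasure μ] (hμ : ExpMom μ)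
    (β h : ℝ) {s : ℝ} (hs0 : 0 < s) (hs1 : s ≤ 1) (hq : OT.X1.qq μ β h s ≤ 1)
    {m N : ℕ} (hmN : m < N) :
    mom μ s (fun ω => Zr a b N (en β h ω)) ≤
      2 * (∑ f ∈ range (m + 1 + 1), mom μ s (fun ω => Zr a b f (en β h ω))) *
        ∑ j ∈ range (N - m + 1), mom μ s (fun ω => Zr a b j (en β h ω)) := by
  set M : ℕ → ENNReal := fun n => mom μ s (fun ω => Zr a b n (en β h ω)) with hM
  have hA := a_nonneg hK
  have hB := b_nonneg hK
  have hmeasZ : ∀ n m : ℕ, Measurable fun ω : ℕ → ℝ => Zr a b n (shift m (en β h ω)) := by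
    intro n m
    simp only [OT.X1.shift_en]
    exact (OT.X1.meas_Zr a b β h n).comp (MP_daa227_pr.measurable_shift _)
  have hmeasT : ∀ i j : ℕ, Measurable fun ω : ℕ → ℝ => Zr a b i (en β h ω) *
      gW a b (j - i) (shift (2 * i) (en β h ω)) *
      Zr a b (N - j) (shift (2 * j) (en β h ω)) := by
    intro i j
    simp only [OT.X1.shift_en]
    exact ((OT.X1.meas_Zr a b β h i).mul ((OT.X1.meas_gW a b _ β h).comp
      (MP_daa227_pr.measurable_shift _))).mul ((OT.X1.meas_Zr _ _ β h _).comp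
      (MP_daa227_pr.measurable_shift _))
  have hnnT : ∀ (i j : ℕ) (ω : ℕ → ℝ), 0 ≤ Zr a b i (en β h ω) *
      gW a b (j - i) (shift (2 * i) (en β h ω)) *
      Zr a b (N - j) (shift (2 * j) (en β h ω)) := fun i j ω =>
    mul_nonneg (mul_nonneg (OT.Zr_pos hK _ _).le (OT.W4.gW_nonneg hA hB _ _))
      (OT.Zr_pos hK _ _).le
  have e0 : mom μ s (fun ω => Zr a b m (en β h ω) *
      Zr a b (N - m) (shift (2 * m) (en β h ω))) = M m * M (N - m) := by
    simp only [OT.X1.shift_en]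
    refine MP_daa227_pr.mom_mul_shift (k := 2 * m) (F := fun ω => Zr a b m (en β h ω))
      (G := fun ω => Zr a b (N - m) (en β h ω)) hs0.le (OT.X1.meas_Zr a b β h m)
      (OT.X1.meas_Zr a b β h _) ?_ (fun ω => (OT.Zr_pos hK _ _).le)
    intro ω ω' hω
    refine OT.Zr_congr a b m ?_
    intro l hl
    simp only [en, hω l hl]
  have e1 : mom μ s (fun ω => ∑ i ∈ range m, ∑ j ∈ Ioc m N,
      Zr a b i (en β h ω) * gW a b (j - i) (shift (2 * i) (en β h ω)) *
      Zr a b (N - j) (shift (2 * j) (en β h ω))) ≤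
      ∑ i ∈ range m, ∑ j ∈ Ioc m N, M i * 2 * M (N - j) := by
    refine (MP_daa227_pr.mom_sum_le hs0 hs1 _ (fun i _ => Finset.measurable_sum _ fun j _ =>
      hmeasT i j) (fun i _ ω => Finset.sum_nonneg fun j _ => hnnT i j ω)).trans ?_
    refine Finset.sum_le_sum fun i hi => ?_
    refine (MP_daa227_pr.mom_sum_le hs0 hs1 _ (fun j _ => hmeasT i j)
      (fun j _ ω => hnnT i j ω)).trans ?_
    refine Finset.sum_le_sum fun j hj => ?_
    rw [mem_Ioc] at hj
    rw [mem_range] at hi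
    rw [OT.W2.mom_term hA hB hA hB μ β h hs0 (show i < j by omega)]
    exact mul_le_mul' (mul_le_mul' le_rfl (mom_gW_le hK hμ β h hs0 hs1 hq _)) le_rfl
  have e2 : ∑ i ∈ range m, ∑ j ∈ Ioc m N, M i * 2 * M (N - j) =
      2 * (∑ i ∈ range m, M i) * ∑ j ∈ range (N - m), M j := by
    have h1 : ∑ j ∈ Ioc m N, M (N - j) = ∑ j ∈ range (N - m), M j := by
      refine Finset.sum_bij' (fun j _ => N - j) (fun j _ => N - j) ?_ ?_ ?_ ?_ ?_
      · intro j hj
        rw [mem_Ioc] at hj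
        rw [mem_range]
        omega
      · intro j hj
        rw [mem_range] at hj
        rw [mem_Ioc]
        omega
      · intro j hj
        rw [mem_Ioc] at hj
        omega
      · intro j hj
        rw [mem_range] at hj
        omega
      · intro j _
        rfl
    have h2 : ∀ i ∈ range m, ∑ j ∈ Ioc m N, M i * 2 * M (N - j) =
        2 * M i * ∑ j ∈ range (N - m), M j := by
      intro i _
      rw [← Finset.mul_sum, h1, mul_comm (M i) 2]
    rw [Finset.sum_congr rfl h2, ← Finset.sum_mul, ← Finset.mul_sum]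
  rw [MP_daa227_pr.mom_congr fun ω => OT.D.Zr_mid a b hmN.le (en β h ω)]
  refine (MP_daa227_pr.mom_add_le hs0.le hs1 ((OT.X1.meas_Zr a b β h m).mul (hmeasZ _ _))
    (fun ω => (mul_pos (OT.Zr_pos hK _ _) (OT.Zr_pos hK _ _)).le)
    (fun ω => Finset.sum_nonneg fun i _ => Finset.sum_nonneg fun j _ => hnnT i j ω)).trans ?_
  refine (add_le_add e0.le (e1.trans e2.le)).trans ?_
  have h1 : M m + ∑ i ∈ range m, M i ≤ ∑ f ∈ range (m + 1 + 1), M f := by
    rw [Finset.sum_range_succ, Finset.sum_range_succ, add_comm]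
    exact le_self_add
  have h2 : ∑ j ∈ range (N - m), M j ≤ ∑ j ∈ range (N - m + 1), M j := by
    rw [Finset.sum_range_succ]
    exact le_self_add
  have h3 : M (N - m) ≤ ∑ j ∈ range (N - m + 1), M j := by
    rw [Finset.sum_range_succ]
    exact le_add_self
  calc M m * M (N - m) + 2 * (∑ i ∈ range m, M i) * ∑ j ∈ range (N - m), M j ≤
        2 * M m * (∑ j ∈ range (N - m + 1), M j) +
          2 * (∑ i ∈ range m, M i) * ∑ j ∈ range (N - m + 1), M j := by
        refine add_le_add (mul_le_mul' ?_ h3) (mul_le_mul' le_rfl h2)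
        rw [two_mul]
        exact le_self_add
    _ = 2 * (M m + ∑ i ∈ range m, M i) * ∑ j ∈ range (N - m + 1), M j := by ring
    _ ≤ 2 * (∑ f ∈ range (m + 1 + 1), M f) * ∑ j ∈ range (N - m + 1), M j :=
        mul_le_mul' (mul_le_mul' le_rfl h1) le_rfl

end CopMid

/-- `OT.D.Zr_mid` with `j = m`, `MP_daa227_pr.mom_add_le`, `MP_daa227_pr.mom_sum_le`,
`MP_daa227_pr.mom_mul_shift` (twice), `OT.X1.mom_gW` (`a k, b k ≤ 1` so the right side is at most
`2`). The term `Z_m Z_{N-m}` is the term `f = m`, `j = N - m` of the product. -/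
theorem cop_mid (hK : KerOK a b) {μ : Measure ℝ} [IsProbabilityMeasure μ] (hμ : ExpMom μ)
    (β hc : ℝ) {s : ℝ} (hs0 : 0 < s) (hs1 : s ≤ 1) {d : ℝ} (hq : OT.X1.qq μ β (hc - d) s ≤ 1)
    {m N : ℕ} (hmN : m < N) :
    aS μ (Zc a b β hc) s d N ≤ 2 * (∑ f ∈ range (m + 1 + 1), aS μ (Zc a b β hc) s d f) *
      ∑ j ∈ range (N - m + 1), aS μ (Zc a b β hc) s d j := by
  have hfin : ∀ n, mom μ s (Zc a b β hc d n) ≠ ⊤ :=
    fun n => (cop_sys hK μ hμ β hc).fin s hs0.le hs1 d n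
  have hkey : mom μ s (Zc a b β hc d N) ≤
      2 * (∑ f ∈ range (m + 1 + 1), mom μ s (Zc a b β hc d f)) *
        ∑ j ∈ range (N - m + 1), mom μ s (Zc a b β hc d j) :=
    CopMid.key hK hμ β (hc - d) hs0 hs1 hq hmN
  have h1 : ∑ f ∈ range (m + 1 + 1), mom μ s (Zc a b β hc d f) ≠ ⊤ :=
    ENNReal.sum_ne_top.2 fun f _ => hfin f
  have h2 : ∑ j ∈ range (N - m + 1), mom μ s (Zc a b β hc d j) ≠ ⊤ :=
    ENNReal.sum_ne_top.2 fun f _ => hfin f
  have h3 := ENNReal.toReal_mono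
    (ENNReal.mul_ne_top (ENNReal.mul_ne_top ENNReal.ofNat_ne_top h1) h2) hkey
  rw [ENNReal.toReal_mul, ENNReal.toReal_mul, ENNReal.toReal_sum fun f _ => hfin f,
    ENNReal.toReal_sum fun f _ => hfin f, ENNReal.toReal_ofNat] at h3
  exact h3

end

end Pool.Agent.IOrd
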