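import Mathlib
import Pool.Agent.Lib.MP_daa227_pr_IO.CopDefs

/-!
# MP_daa227_pr: infinite order. The copolymer: the moment of one site.
-/

namespace Pool.Agent.IOrd

open MeasureTheory ProbabilityTheory Finset Filter Topology
open MP_daa227_pr (shift seqLaw ExpMom DepOn mom)
open Pool.Agent.OT (Zr gW KerOK en lmg)

noncomputable section

variable {a b : ℕ → ℝ}

namespace CopQ

theorem block_le (hK : KerOK a b) {μ : Measure ℝ} [IsProbabilityMeasure μ] (hμ : ExpMom μ)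
    (β h : ℝ) {γ : ℝ} (h0 : 0 ≤ γ) (h1 : γ ≤ 1) {n : ℕ} (hn : 1 ≤ n)
    (hS : (mom μ γ (fun ω => Zr a b n (en β h ω))).toReal ≤ 1) :
    b n ^ γ * OT.X1.qq μ β h γ ^ (2 * n) ≤ 1 := by
  have hq : 0 ≤ OT.X1.qq μ β h γ := integral_nonneg fun _ => (Real.exp_pos _).le
  have hb : 0 ≤ b n := (hK.b_pos n hn).le
  have hfin : mom μ γ (fun ω => Zr a b n (en β h ω)) ≠ ⊤ := by
    refine ne_top_of_le_ne_top ENNReal.ofReal_ne_top
      (MP_daa227_pr.mom_le_exp hμ h0 h1 (OT.SupAux.good_Zen hK β h n)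
        fun ω => OT.Zr_pos hK _ _)
  have h2 : mom μ γ (fun ω => b n * Real.exp (∑ i ∈ range (2 * n), en β h ω i)) ≤
      mom μ γ (fun ω => Zr a b n (en β h ω)) :=
    MP_daa227_pr.mom_mono h0 fun ω => OT.SupAux.b_le_Zr hK hn _
  rw [MP_daa227_pr.mom_const_mul h0 hb
    (Finset.measurable_sum _ fun i _ => OT.X1.meas_en β h i).exp,
    OT.X1.mom_block hμ β h h0, ENNReal.ofReal_rpow_of_nonneg hb h0, ← ENNReal.ofReal_pow hq,
    ← ENNReal.ofReal_mul (Real.rpow_nonneg hb _)] at h2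
  have h3 := ENNReal.toReal_mono hfin h2
  rw [ENNReal.toReal_ofReal (mul_nonneg (Real.rpow_nonneg hb _) (pow_nonneg hq _))] at h3
  exact h3.trans hS

theorem qq_le_one (hK : KerOK a b) {Q γ : ℝ} (hQ : 0 < Q) (h0 : 0 ≤ γ)
    (h : ∀ n, 1 ≤ n → b n ^ γ * Q ^ (2 * n) ≤ 1) : Q ≤ 1 := by
  by_contra hc
  push Not at hc
  obtain ⟨c, e, hc0, he0, hb⟩ := hK.b_low
  have hl : 0 < Real.log Q := Real.log_pos hc
  have hA : ∀ n : ℕ, 1 ≤ n → γ * Real.log c - γ * e * Real.log n + 2 * n * Real.log Q ≤ 0 := by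
    intro n hn
    have hn0 : (0:ℝ) < n := by exact_mod_cast hn
    have hbn := hK.b_pos n hn
    have h1 : Real.log (b n ^ γ * Q ^ (2 * n)) ≤ 0 :=
      Real.log_nonpos (by positivity) (h n hn)
    rw [Real.log_mul (by positivity) (by positivity), Real.log_rpow hbn, Real.log_pow] at h1
    have h2 : Real.log (c * (n:ℝ) ^ (-e)) ≤ Real.log (b n) :=
      Real.log_le_log (by positivity) (hb n hn)
    rw [Real.log_mul hc0.ne' (by positivity), Real.log_rpow hn0] at h2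
    have h3 := mul_le_mul_of_nonneg_left h2 h0
    push_cast at h1
    nlinarith
  have hlim : Tendsto (fun n : ℕ => (γ * Real.log c) / (n:ℝ) - γ * e * (Real.log n / (n:ℝ))
      + 2 * Real.log Q) atTop (𝓝 (0 - γ * e * 0 + 2 * Real.log Q)) := by
    have h1 : Tendsto (fun n : ℕ => Real.log (n:ℝ) / (n:ℝ)) atTop (𝓝 0) := by
      have h2 := (Real.isLittleO_log_id_atTop.tendsto_div_nhds_zero).comp
        tendsto_natCast_atTop_atTop
      exact h2
    exact ((tendsto_const_div_atTop_nhds_zero_nat _).sub (h1.const_mul _)).add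
      tendsto_const_nhds
  have h4 : (0 - γ * e * 0 + 2 * Real.log Q) ≤ 0 := by
    refine le_of_tendsto hlim ?_
    filter_upwards [eventually_ge_atTop 1] with n hn
    have hn0 : (0:ℝ) < n := by exact_mod_cast hn
    have h5 := hA n hn
    have h6 : (γ * Real.log c) / (n:ℝ) - γ * e * (Real.log n / (n:ℝ)) + 2 * Real.log Q =
        (γ * Real.log c - γ * e * Real.log n + 2 * n * Real.log Q) / n := by
      field_simp
    rw [h6]
    exact div_nonpos_of_nonpos_of_nonneg h5 hn0.le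
  linarith

end CopQ

/-- `b_n ^ s₂ qq(s₂) ^ (2 n) ≤ aS s₂ 0 n ≤ 1` (`OT.SupAux.b_le_Zr`, `OT.X1.mom_block`) and
`b_n ≥ c n ^ (-e)` give `qq μ β hc s₂ ≤ 1`, i.e. `lmg (s₂ β) ≤ s₂ hc` (`OT.X1.qq_eq`). The function
`f t = lmg (t β) - t hc` is convex (`OT.X1.lmg_convex`), `f 0 = 0`, `f s₂ ≤ 0`, `f (s₂ / 2) < 0`
(`OT.X1.lmg_strict`), so `f s < 0` for `0 < s < s₂`. -/
theorem cop_q (hK : KerOK a b) {μ : Measure ℝ} [IsProbabilityMeasure μ] (hμ : ExpMom μ)
    (hvar : ∫ x, x ^ 2 ∂μ ≠ 0) (hmean : ∫ x, x ∂μ = 0) {β : ℝ} (hβ : 0 < β) (hc : ℝ) {s s₂ : ℝ}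
    (hs : 0 < s) (h1 : s < s₂) (h2 : s₂ ≤ 1) (hS : ∀ n, aS μ (Zc a b β hc) s₂ 0 n ≤ 1) :
    OT.X1.qq μ β hc s < 1 := by
  have hs2 : 0 < s₂ := hs.trans h1
  have hQ : OT.X1.qq μ β hc s₂ ≤ 1 := by
    refine CopQ.qq_le_one hK (γ := s₂) ?_ hs2.le fun n hn =>
      CopQ.block_le hK hμ β hc hs2.le h2 hn ?_
    · rw [OT.X1.qq_eq hμ]
      exact Real.exp_pos _
    · have h3 := hS n
      unfold aS Zc at h3
      simpa using h3
  rw [OT.X1.qq_eq hμ, Real.exp_le_one_iff] at hQ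
  rw [OT.X1.qq_eq hμ, Real.exp_lt_one_iff]
  have hst := OT.X1.lmg_strict hμ hvar hmean (β := s₂ * β) (by positivity)
  have hz := OT.X1.lmg_zero μ
  have hmid : lmg μ (s₂ * β / 2) - s₂ / 2 * hc < 0 := by linarith
  rcases le_total s (s₂ / 2) with hle | hle
  · have hθ0 : 0 < 2 * s / s₂ := by positivity
    have hθ1 : 2 * s / s₂ ≤ 1 := by
      rw [div_le_one hs2]
      linarith
    have h3 := OT.X1.lmg_convex hμ (s := s₂ * β / 2) (t := 0) hθ0.le hθ1
    have h4 : 2 * s / s₂ * (s₂ * β / 2) + (1 - 2 * s / s₂) * 0 = s * β := by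
      field_simp
      ring
    rw [h4, hz, mul_zero, add_zero] at h3
    have h5 := mul_lt_mul_of_pos_left hmid hθ0
    have h6 : 2 * s / s₂ * (s₂ / 2 * hc) = s * hc := by
      field_simp
    rw [mul_sub, h6, mul_zero] at h5
    linarith
  · have hθ0 : 0 < 2 * (s₂ - s) / s₂ := by
      have : 0 < s₂ - s := by linarith
      positivity
    have hθ1 : 2 * (s₂ - s) / s₂ ≤ 1 := by
      rw [div_le_one hs2]
      linarith
    have h3 := OT.X1.lmg_convex hμ (s := s₂ * β / 2) (t := s₂ * β) hθ0.le hθ1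
    have h4 : 2 * (s₂ - s) / s₂ * (s₂ * β / 2) + (1 - 2 * (s₂ - s) / s₂) * (s₂ * β) =
        s * β := by
      field_simp
      ring
    rw [h4] at h3
    have h5 := mul_lt_mul_of_pos_left hmid hθ0
    have h6 : 2 * (s₂ - s) / s₂ * (s₂ / 2 * hc) = (s₂ - s) * hc := by
      field_simp
    rw [mul_sub, h6, mul_zero] at h5
    have h7 := mul_le_mul_of_nonneg_left hQ (sub_nonneg.2 hθ1)
    have h8 : (1 - 2 * (s₂ - s) / s₂) * (lmg μ (s₂ * β) - s₂ * hc) =
        (1 - 2 * (s₂ - s) / s₂) * lmg μ (s₂ * β) - (2 * s - s₂) * hc := by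
      field_simp
      ring
    rw [h8, mul_zero] at h7
    linarith

end

end Pool.Agent.IOrd
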