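import Mathlib
import Pool.Agent.Lib.MP_daa227_pr_IO.CopDefs
import Pool.Agent.Lib.MP_daa227_pr_IO.CopMid
import Pool.Agent.Lib.MP_daa227_pr_IO.CopM
import Pool.Agent.Lib.MP_daa227_pr_IO.CopQ
import Pool.Agent.Lib.MP_daa227_pr_IO.Basic
import Pool.Agent.Lib.MP_daa227_pr_OT.Ins1

/-!
# MP_daa227_pr: infinite order. The copolymer: the two bounds.
-/

namespace Pool.Agent.IOrd

open MeasureTheory ProbabilityTheory Finset Filter Topology
open MP_daa227_pr (shift seqLaw ExpMom DepOn mom)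
open Pool.Agent.OT (Zr gW KerOK en lmg)

noncomputable section

variable {a b : ℕ → ℝ}

/-- `q₀ = qq μ β hc s < 1` (`cop_q`) and `qq μ β (hc - d) s = q₀ exp (s d)` (`OT.X1.qq_eq`): choose
`d₀ > 0` with `q₀ exp (s d₀) = q₁ < 1`; `R = 1`, `C = max 2 (1 + ∑' k, 2 k q₁ ^ (2 k))` (`b k ≤ 1`);
`n' ≤ n` a point where `cv` is maximal; `cop_deriv`, `cop_mid`. -/
theorem cop_bds (hK : KerOK a b) {μ : Measure ℝ} [IsProbabilityMeasure μ] (hμ : ExpMom μ)
    (hvar : ∫ x, x ^ 2 ∂μ ≠ 0) (hmean : ∫ x, x ∂μ = 0) {β : ℝ} (hβ : 0 < β) (hc : ℝ) {s s₂ : ℝ}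
    (hs : 0 < s) (h1 : s < s₂) (h2 : s₂ ≤ 1) (hS : ∀ n, aS μ (Zc a b β hc) s₂ 0 n ≤ 1) :
    Bds μ (Zc a b β hc) s := by
  have hs1 : s ≤ 1 := h1.le.trans h2
  set q₀ := OT.X1.qq μ β hc s with hq₀
  have hq1 : q₀ < 1 := cop_q hK hμ hvar hmean hβ hc hs h1 h2 hS
  have hq0 : 0 < q₀ := by
    rw [hq₀, OT.X1.qq_eq hμ]
    exact Real.exp_pos _
  set q₁ := (1 + q₀) / 2 with hq₁
  have hq10 : 0 < q₁ := by linarith
  have hq11 : q₁ < 1 := by linarith
  have hq01 : q₀ < q₁ := by linarith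
  have hlog : 0 < Real.log (q₁ / q₀) := Real.log_pos (by rwa [lt_div_iff₀ hq0, one_mul])
  have hsum : Summable (fun k : ℕ => 2 * (k : ℝ) * q₁ ^ (2 * k)) := by
    have h3 : ‖q₁ ^ 2‖ < 1 := by
      rw [Real.norm_of_nonneg (by positivity)]
      exact pow_lt_one₀ hq10.le hq11 two_ne_zero
    have h4 := (summable_pow_mul_geometric_of_norm_lt_one 1 h3).mul_left 2
    refine h4.congr fun k => ?_
    rw [pow_one, ← pow_mul]
    ring
  set C := max 2 (1 + ∑' k : ℕ, 2 * (k : ℝ) * q₁ ^ (2 * k)) with hC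
  refine ⟨Real.log (q₁ / q₀) / s, C, 1, div_pos hlog hs, ?_, fun d hd0 hd => ?_⟩
  · exact le_trans one_le_two (le_max_left _ _)
  have hqd : OT.X1.qq μ β (hc - d) s ≤ q₁ := by
    have e1 : OT.X1.qq μ β (hc - d) s = q₀ * Real.exp (s * d) := by
      rw [hq₀, OT.X1.qq_eq hμ, OT.X1.qq_eq hμ, ← Real.exp_add]
      congr 1
      ring
    have e2 : s * d ≤ Real.log (q₁ / q₀) := by
      rw [le_div_iff₀ hs] at hd
      linarith
    have e3 : Real.exp (s * d) ≤ q₁ / q₀ := by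
      rw [← Real.exp_log (div_pos hq10 hq0)]
      exact Real.exp_le_exp.2 e2
    rw [e1]
    calc q₀ * Real.exp (s * d) ≤ q₀ * (q₁ / q₀) := mul_le_mul_of_nonneg_left e3 hq0.le
      _ = q₁ := by field_simp
  have hqd0 : 0 ≤ OT.X1.qq μ β (hc - d) s := integral_nonneg fun _ => (Real.exp_pos _).le
  have hann : ∀ n, 0 ≤ aS μ (Zc a b β hc) s d n := fun n => aS_nonneg _ _ _ _ _
  have hcv : ∀ n, 0 ≤ cv (aS μ (Zc a b β hc) s d) n := fun n =>
    sum_nonneg fun x _ => mul_nonneg (hann _) (hann _)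
  refine ⟨fun n => ?_, fun m N hmN => ?_⟩
  · obtain ⟨n', hn', hmax⟩ := exists_max_image (range (n + 1))
      (fun k => cv (aS μ (Zc a b β hc) s d) k) ⟨0, by simp⟩
    have hn'' : n' ≤ n := by
      have := mem_range.1 hn'
      omega
    refine ⟨n', by omega, (cop_deriv hK hμ β hc hs hs1 hd0 n).trans ?_⟩
    set M := cv (aS μ (Zc a b β hc) s d) n' with hM
    have hM0 : 0 ≤ M := hcv n'
    have e1 : cv (aS μ (Zc a b β hc) s d) n ≤ M := hmax n (by simp)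
    have e2 : ∑ k ∈ Ioc 0 n, 2 * (k : ℝ) * (b k ^ s * OT.X1.qq μ β (hc - d) s ^ (2 * k)) *
        cv (aS μ (Zc a b β hc) s d) (n - k) ≤
        ∑ k ∈ Ioc 0 n, 2 * (k : ℝ) * q₁ ^ (2 * k) * M := by
      refine sum_le_sum fun k hk => ?_
      have hk1 : 1 ≤ k := (mem_Ioc.1 hk).1
      have f1 : b k ^ s ≤ 1 := Real.rpow_le_one (hK.b_pos k hk1).le (OT.I1.b_le_one hK k) hs.le
      have f2 : OT.X1.qq μ β (hc - d) s ^ (2 * k) ≤ q₁ ^ (2 * k) :=
        pow_le_pow_left₀ hqd0 hqd _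
      have f3 : b k ^ s * OT.X1.qq μ β (hc - d) s ^ (2 * k) ≤ q₁ ^ (2 * k) := by
        calc b k ^ s * OT.X1.qq μ β (hc - d) s ^ (2 * k) ≤ 1 * q₁ ^ (2 * k) :=
            mul_le_mul f1 f2 (pow_nonneg hqd0 _) zero_le_one
          _ = _ := one_mul _
      have f4 : cv (aS μ (Zc a b β hc) s d) (n - k) ≤ M := hmax (n - k) (by simp)
      refine mul_le_mul ?_ f4 (hcv _) (by positivity)
      exact mul_le_mul_of_nonneg_left f3 (by positivity)
    have e3 : ∑ k ∈ Ioc 0 n, 2 * (k : ℝ) * q₁ ^ (2 * k) ≤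
        ∑' k : ℕ, 2 * (k : ℝ) * q₁ ^ (2 * k) :=
      hsum.sum_le_tsum _ fun k _ => by positivity
    rw [← sum_mul] at e2
    have e4 := mul_le_mul_of_nonneg_right e3 hM0
    have e5 : 1 + ∑' k : ℕ, 2 * (k : ℝ) * q₁ ^ (2 * k) ≤ C := le_max_right _ _
    have e6 := mul_le_mul_of_nonneg_right e5 hM0
    have e7 : cv (aS μ (Zc a b β hc) s d) n +
        ∑ k ∈ Ioc 0 n, 2 * (k : ℝ) * (b k ^ s * OT.X1.qq μ β (hc - d) s ^ (2 * k)) *
        cv (aS μ (Zc a b β hc) s d) (n - k) ≤ C * M := by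
      rw [add_mul, one_mul] at e6
      linarith
    have e8 := mul_le_mul_of_nonneg_left e7 hd0
    linarith
  · refine (cop_mid hK hμ β hc hs hs1 (hqd.trans hq11.le) hmN).trans ?_
    have e1 : 0 ≤ ∑ f ∈ range (m + 1 + 1), aS μ (Zc a b β hc) s d f :=
      sum_nonneg fun f _ => hann f
    have e2 : 0 ≤ ∑ j ∈ range (N - m + 1), aS μ (Zc a b β hc) s d j :=
      sum_nonneg fun f _ => hann f
    exact mul_le_mul_of_nonneg_right (mul_le_mul_of_nonneg_right (le_max_left _ _) e1) e2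

end

end Pool.Agent.IOrd
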