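import Mathlib
import Pool.Agent.Lib.MP_daa227_pr_IO.Main
import Pool.Agent.Lib.MP_daa227_pr_IO.CopSys
import Pool.Agent.Lib.MP_daa227_pr_IO.CopH
import Pool.Agent.Lib.MP_daa227_pr_IO.CopBds

/-!
# MP_daa227_pr: infinite order. The copolymer: infinite order.
-/

namespace Pool.Agent.IOrd

open MeasureTheory ProbabilityTheory Finset Filter Topology
open MP_daa227_pr (shift seqLaw ExpMom DepOn mom)
open Pool.Agent.OT (Zr gW KerOK en lmg)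

noncomputable section

variable {a b : ℕ → ℝ}

/-- `main` for `Zc a b β hc`, `w = 2`, and `F' d = 2 F (hc - d)` -/
theorem cop_core (hK : KerOK a b) (μ : Measure ℝ) [IsProbabilityMeasure μ] (hμ : ExpMom μ)
    (hmean : ∫ x, x ∂μ = 0) (hvar : ∫ x, x ^ 2 ∂μ ≠ 0) {β : ℝ} (hβ : 0 < β) {F : ℝ → ℝ}
    (hF1 : ∀ h, Tendsto (fun n : ℕ =>
      (∫ ω, Real.log (Zr a b n (en β h ω)) ∂seqLaw μ) / (2 * n)) atTop (𝓝 (F h)))
    (hF2 : ∀ h (n : ℕ), ∫ ω, Real.log (Zr a b n (en β h ω)) ∂seqLaw μ ≤ 2 * n * F h)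
    (hF5 : ∀ h h', h ≤ h' → F h ≤ F h' + (h' - h)) {hc : ℝ} (hcF : F hc = 0)
    (hcl : hc < lmg μ β) {q : ℝ} (hq : 0 < q) :
    ∃ K : ℝ, ∀ δ, 0 ≤ δ → δ ≤ 1 → F (hc - δ) ≤ K * δ ^ q := by
  have hF : ∀ d : ℝ, 0 ≤ d → Tendsto (fun n : ℕ =>
      (∫ ω, Real.log (Zc a b β hc d n ω) ∂seqLaw μ) / n) atTop (𝓝 (2 * F (hc - d))) := by
    intro d _
    have h1 := (hF1 (hc - d)).const_mul 2
    refine h1.congr fun n => ?_
    rcases Nat.eq_zero_or_pos n with hn | hn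
    · subst hn
      simp
    · have h2 : (n : ℝ) ≠ 0 := by exact_mod_cast hn.ne'
      have h3 : ∀ ω, Zc a b β hc d n ω = Zr a b n (en β (hc - d) ω) := fun _ => rfl
      simp only [h3]
      field_simp
  have hFd : ∀ d : ℝ, 0 ≤ d → 2 * F (hc - d) ≤ 2 * d := by
    intro d hd
    have h1 := hF5 (hc - d) hc (by linarith)
    rw [hcF] at h1
    linarith
  have h0 : ∀ n : ℕ, ∫ ω, Real.log (Zr a b n (en β hc ω)) ∂seqLaw μ ≤ 0 := by
    intro n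
    have h1 := hF2 hc n
    rw [hcF, mul_zero] at h1
    exact h1
  obtain ⟨K, hK'⟩ := main (F := fun d => 2 * F (hc - d)) (cop_sys hK μ hμ β hc) hF hFd
    (cop_h0 hK μ hμ hβ h0) (cop_h1 hK μ hμ hcl)
    (fun s s₂ hs h1 h2 hS => cop_bds hK hμ hvar hmean hβ hc hs h1 h2 hS) hq
  refine ⟨K / 2, fun δ h1 h2 => ?_⟩
  have h3 := hK' δ h1 h2
  have h4 : (2:ℝ) * F (hc - δ) ≤ K * δ ^ q := h3
  linarith

end

end Pool.Agent.IOrd
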