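import Mathlib
import Pool.Agent.Lib.MP_daa227_pr_IO.CopDefs
import Pool.Agent.Lib.MP_daa227_pr_OTP.Hop

/-!
# MP_daa227_pr: infinite order. Pinning is a system.
-/

namespace Pool.Agent.IOrd

open MeasureTheory ProbabilityTheory Finset Filter Topology
open MP_daa227_pr (shift seqLaw ExpMom DepOn mom)
open Pool.Agent.OTP (Zp KerP LP)
open Pool.Agent.OT (en lmg)

noncomputable section

variable {K : ℕ → ℝ}

namespace PinSys

/-- Hoelder for finite sums of positive numbers -/
lemma holder_sum {ι : Type*} (s : Finset ι) (hs : s.Nonempty) {x y : ι → ℝ}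
    (hx : ∀ i ∈ s, 0 < x i) (hy : ∀ i ∈ s, 0 < y i) {t : ℝ} (ht0 : 0 ≤ t) (ht1 : t ≤ 1) :
    ∑ i ∈ s, x i ^ (1 - t) * y i ^ t ≤ (∑ i ∈ s, x i) ^ (1 - t) * (∑ i ∈ s, y i) ^ t := by
  have hX : 0 < ∑ i ∈ s, x i := sum_pos hx hs
  have hY : 0 < ∑ i ∈ s, y i := sum_pos hy hs
  set X := ∑ i ∈ s, x i with hXd
  set Y := ∑ i ∈ s, y i with hYd
  have hP : 0 < X ^ (1 - t) * Y ^ t := mul_pos (Real.rpow_pos_of_pos hX _)
    (Real.rpow_pos_of_pos hY _)
  have h1 : ∀ i ∈ s, x i ^ (1 - t) * y i ^ t ≤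
      (X ^ (1 - t) * Y ^ t) * ((1 - t) * (x i / X) + t * (y i / Y)) := by
    intro i hi
    have h2 := Real.geom_mean_le_arith_mean2_weighted (w₁ := 1 - t) (w₂ := t) (by linarith) ht0
      (div_pos (hx i hi) hX).le (div_pos (hy i hi) hY).le (by ring)
    rw [Real.div_rpow (hx i hi).le hX.le, Real.div_rpow (hy i hi).le hY.le,
      div_mul_div_comm, div_le_iff₀ hP] at h2
    linarith
  refine (sum_le_sum h1).trans ?_
  rw [← mul_sum, sum_add_distrib, ← mul_sum, ← mul_sum, ← sum_div, ← sum_div, ← hXd, ← hYd,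
    div_self hX.ne', div_self hY.ne']
  have : (1 - t) * 1 + t * 1 = 1 := by ring
  rw [this, mul_one]

end PinSys

/-- log-convexity in the energies: induction on `n` with `OTP.D.Zp_succ`, and Hoelder for finite sums
`∑ x_k ^ (1 - t) y_k ^ t ≤ (∑ x_k) ^ (1 - t) (∑ y_k) ^ t` -/
theorem Zp_conv (hK : KerP K) (n : ℕ) {t c : ℝ} (ht0 : 0 ≤ t) (ht1 : t ≤ 1) (θ : ℕ → ℝ) :
    Zp K n (fun i => θ i + t * c) ≤
      Zp K n θ ^ (1 - t) * Zp K n (fun i => θ i + c) ^ t := by
  induction n using Nat.strong_induction_on generalizing θ with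
  | _ n ih =>
    cases n with
    | zero => rw [OTP.D.Zp_zero, OTP.D.Zp_zero, OTP.D.Zp_zero]; simp
    | succ n =>
      rw [OTP.D.Zp_succ, OTP.D.Zp_succ, OTP.D.Zp_succ]
      refine le_trans (sum_le_sum fun k hk => ?_)
        (PinSys.holder_sum (range (n + 1)) ⟨0, mem_range.mpr (Nat.succ_pos _)⟩
          (x := fun k => K (k + 1) * Real.exp (θ k) * Zp K (n - k) (shift (k + 1) θ))
          (y := fun k => K (k + 1) * Real.exp (θ k + c) *
            Zp K (n - k) (shift (k + 1) (fun i => θ i + c)))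
          (fun k _ => mul_pos (mul_pos (hK.pos _ (by omega)) (Real.exp_pos _))
            (OTP.Zp_pos hK _ _))
          (fun k _ => mul_pos (mul_pos (hK.pos _ (by omega)) (Real.exp_pos _))
            (OTP.Zp_pos hK _ _)) ht0 ht1)
      rw [mem_range] at hk
      have e : ∀ c' : ℝ, shift (k + 1) (fun i => θ i + c') = fun i => shift (k + 1) θ i + c' := by
        intro c'
        funext i
        rw [MP_daa227_pr.shift_apply, MP_daa227_pr.shift_apply]
      rw [e, e]
      have h1 := ih (n - k) (by omega) (shift (k + 1) θ)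
      have hKp := hK.pos (k + 1) (by omega)
      have hz := OTP.Zp_pos hK (n - k) (shift (k + 1) θ)
      have hz2 := OTP.Zp_pos hK (n - k) (fun i => shift (k + 1) θ i + c)
      rw [Real.mul_rpow (mul_pos hKp (Real.exp_pos _)).le hz.le,
        Real.mul_rpow (mul_pos hKp (Real.exp_pos _)).le hz2.le,
        Real.mul_rpow hKp.le (Real.exp_pos _).le, Real.mul_rpow hKp.le (Real.exp_pos _).le,
        ← Real.exp_mul, ← Real.exp_mul]
      have h3 : K (k + 1) = K (k + 1) ^ (1 - t) * K (k + 1) ^ t := by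
        rw [← Real.rpow_add hKp]
        simp
      have h4 : Real.exp (θ k + t * c) =
          Real.exp (θ k * (1 - t)) * Real.exp ((θ k + c) * t) := by
        rw [← Real.exp_add]
        congr 1
        ring
      have h5 : K (k + 1) * Real.exp (θ k + t * c) = (K (k + 1) ^ (1 - t) * K (k + 1) ^ t) *
          (Real.exp (θ k * (1 - t)) * Real.exp ((θ k + c) * t)) := by
        rw [← h3, h4]
      calc K (k + 1) * Real.exp (θ k + t * c) *
            Zp K (n - k) (fun i => shift (k + 1) θ i + t * c)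
          ≤ K (k + 1) * Real.exp (θ k + t * c) * (Zp K (n - k) (shift (k + 1) θ) ^ (1 - t) *
              Zp K (n - k) (fun i => shift (k + 1) θ i + c) ^ t) :=
            mul_le_mul_of_nonneg_left h1 (mul_pos hKp (Real.exp_pos _)).le
        _ = _ := by rw [h5]; ring

/-- `OTP.Zp_pos`, `OTP.D.Zp_zero`, `OTP.Zp_congr`, `OTP.Zp_mul_le`, `OTP.Zp_mono`, `OTP.Zp_add_le`
(weaken `n` to `2 n`), the `good_Zen` of `OTP`, `OTP.integrable_logZp`, `MP_daa227_pr.mom_le_exp` -/
theorem pin_sys (hK : KerP K) (μ : Measure ℝ) [IsProbabilityMeasure μ] (hμ : ExpMom μ)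
    (β hc : ℝ) : Sys 1 μ (Zq K β hc) where
  meas := fun d n => (OTP.H1.good_Zen hK β (hc - d) n).meas
  pos := fun d n ω => OTP.Zp_pos hK n _
  zero := fun d ω => OTP.D.Zp_zero K _
  dep := fun d n => by
    rw [one_mul]
    exact (OTP.H1.good_Zen hK β (hc - d) n).depOn
  mul_le := fun d m n ω => by
    have h := OTP.Zp_mul_le hK m n (en β (hc - d) ω)
    rw [OT.SupAux.shift_en] at h
    rw [one_mul]
    exact h
  mono := fun d d' n ω hd => OTP.Zp_mono hK n fun i _ => by
    unfold en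
    nlinarith
  conv := fun d t n ω hd ht0 ht1 => by
    have h := Zp_conv hK n ht0 ht1 (c := d) (en β (hc - 0) ω)
    have e : ∀ c : ℝ, (fun i => en β (hc - 0) ω i + c) = en β (hc - c) ω := by
      intro c
      funext i
      unfold en
      ring
    rw [e, e] at h
    exact h
  lip := fun d n ω hd => by
    have h := OTP.Zp_add_le hK n (en β (hc - 0) ω) hd
    have e : (fun i => en β (hc - 0) ω i + d) = en β (hc - d) ω := by
      funext i
      unfold en
      ring
    rw [e] at h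
    refine h.trans (mul_le_mul_of_nonneg_right (Real.exp_le_exp.mpr ?_)
      (OTP.Zp_pos hK n _).le)
    have h1 : (0 : ℝ) ≤ n := Nat.cast_nonneg n
    nlinarith [mul_nonneg h1 hd]
  logint := fun d n => OTP.integrable_logZp hK μ hμ β (hc - d) n
  fin := fun s hs0 hs1 d n => ((MP_daa227_pr.mom_le_exp hμ hs0 hs1
    (OTP.H1.good_Zen hK β (hc - d) n) (fun ω => OTP.Zp_pos hK n _)).trans_lt
      ENNReal.ofReal_lt_top).ne

end

end Pool.Agent.IOrd
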