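import Mathlib
import Pool.Agent.Lib.MP_daa227_pr_IO.CopDefs
import Pool.Agent.Lib.MP_daa227_pr_IO.PinSys
import Pool.Agent.Lib.MP_daa227_pr_IO.PowStep

/-!
# MP_daa227_pr: infinite order. Pinning: the derivative in the energy and the decomposition.
-/

namespace Pool.Agent.IOrd

open MeasureTheory ProbabilityTheory Finset Filter Topology
open MP_daa227_pr (shift seqLaw ExpMom DepOn mom)
open Pool.Agent.OTP (Zp KerP LP)
open Pool.Agent.OT (en lmg)

noncomputable section

variable {K : ℕ → ℝ}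

namespace PinD

/-- the sum over the marked sites -/
def S (K : ℕ → ℝ) (n : ℕ) (θ : ℕ → ℝ) : ℝ :=
  ∑ y ∈ range (n + 1), Zp K y θ * Zp K (n - y) (shift y θ)

theorem S_zero (K : ℕ → ℝ) (θ : ℕ → ℝ) : S K 0 θ = 1 := by
  simp [S, OTP.D.Zp_zero]

/-- decomposition of the sum over the marked sites according to the first site -/
theorem S_succ (K : ℕ → ℝ) (n : ℕ) (θ : ℕ → ℝ) : S K (n + 1) θ = Zp K (n + 1) θ +
    ∑ k ∈ range (n + 1), K (k + 1) * Real.exp (θ k) * S K (n - k) (shift (k + 1) θ) := by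
  unfold S
  rw [sum_range_succ' _ (n + 1), add_comm]
  congr 1
  · rw [OTP.D.Zp_zero, MP_daa227_pr.shift_zero, one_mul, Nat.sub_zero]
  have h1 : ∀ y ∈ range (n + 1), Zp K (y + 1) θ * Zp K (n + 1 - (y + 1)) (shift (y + 1) θ) =
      ∑ k ∈ range (y + 1), K (k + 1) * Real.exp (θ k) * (Zp K (y - k) (shift (k + 1) θ) *
        Zp K (n - y) (shift (y + 1) θ)) := by
    intro y _
    rw [OTP.D.Zp_succ, sum_mul, Nat.add_sub_add_right]
    exact sum_congr rfl fun k _ => by ring
  rw [sum_congr rfl h1]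
  have h2 : ∀ k ∈ range (n + 1), K (k + 1) * Real.exp (θ k) *
      (∑ y ∈ range (n - k + 1), Zp K y (shift (k + 1) θ) *
        Zp K (n - k - y) (shift y (shift (k + 1) θ))) =
      ∑ y ∈ Ico k (n + 1), K (k + 1) * Real.exp (θ k) * (Zp K (y - k) (shift (k + 1) θ) *
        Zp K (n - y) (shift (y + 1) θ)) := by
    intro k hk
    rw [mem_range] at hk
    rw [sum_Ico_eq_sum_range, mul_sum, show n + 1 - k = n - k + 1 by omega]
    refine sum_congr rfl fun y hy => ?_
    rw [mem_range] at hy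
    rw [MP_daa227_pr.shift_shift, Nat.add_sub_cancel_left, show n - k - y = n - (k + y) by omega,
      show y + (k + 1) = k + y + 1 by ring]
  rw [sum_congr rfl h2]
  rw [sum_sigma', sum_sigma']
  refine sum_nbij' (fun p => ⟨p.2, p.1⟩) (fun p => ⟨p.2, p.1⟩) ?_ ?_ ?_ ?_ ?_
  · rintro ⟨y, k⟩ h
    simp only [mem_sigma, mem_range, mem_Ico] at h ⊢
    omega
  · rintro ⟨k, y⟩ h
    simp only [mem_sigma, mem_range, mem_Ico] at h ⊢
    omega
  · rintro ⟨y, k⟩ _
    rfl
  · rintro ⟨y, k⟩ _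
    rfl
  · rintro ⟨y, k⟩ _
    rfl

end PinD

/-- Induction on `n` (`OTP.D.Zp_succ`) gives `Z(θ + c) - Z(θ) ≤ c ∑_{x < y ≤ n} Z_x K_{y-x} e^{θ'_{y-1}}
Z_{n-y}` (all at `θ' = θ + c`), and `∑_{x < y} Z_x K_{y-x} e^{θ'_{y-1}} = Z_y` (`OTP.Zp_last`). -/
theorem Zp_deriv (hK : KerP K) (n : ℕ) {c : ℝ} (hc : 0 ≤ c) (θ θ' : ℕ → ℝ)
    (hθ : ∀ i, θ' i = θ i + c) :
    Zp K n θ' - Zp K n θ ≤ c * ∑ y ∈ range (n + 1), Zp K y θ' * Zp K (n - y) (shift y θ') := by
  suffices H : Zp K n θ' - Zp K n θ ≤ c * PinD.S K n θ' from H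
  induction n using Nat.strong_induction_on generalizing θ θ' with
  | _ n ih =>
    cases n with
    | zero =>
      rw [OTP.D.Zp_zero, OTP.D.Zp_zero, PinD.S_zero]
      linarith
    | succ n =>
      rw [PinD.S_succ, OTP.D.Zp_succ K n θ, OTP.D.Zp_succ K n θ', ← sum_sub_distrib,
        ← sum_add_distrib, mul_sum]
      refine sum_le_sum fun k hk => ?_
      rw [mem_range] at hk
      have h1 := ih (n - k) (by omega) (shift (k + 1) θ) (shift (k + 1) θ')
        (fun i => by rw [MP_daa227_pr.shift_apply, MP_daa227_pr.shift_apply]; exact hθ _)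
      have hKp := hK.pos (k + 1) (by omega)
      have hz := OTP.Zp_pos hK (n - k) (shift (k + 1) θ)
      have hz' : Zp K (n - k) (shift (k + 1) θ) ≤ Zp K (n - k) (shift (k + 1) θ') :=
        OTP.Zp_mono hK _ fun i _ => by
          rw [MP_daa227_pr.shift_apply, MP_daa227_pr.shift_apply, hθ]
          linarith
      have he : Real.exp (θ' k) - Real.exp (θ k) ≤ c * Real.exp (θ' k) := by
        have e1 : Real.exp (θ k) = Real.exp (θ' k) * Real.exp (-c) := by
          rw [← Real.exp_add, hθ k]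
          congr 1
          ring
        have e2 := Real.add_one_le_exp (-c)
        rw [e1]
        have e3 := Real.exp_pos (θ' k)
        nlinarith [mul_le_mul_of_nonneg_left e2 e3.le]
      set a := K (k + 1) with ha
      set E := Real.exp (θ k) with hE
      set E' := Real.exp (θ' k) with hE'
      set z := Zp K (n - k) (shift (k + 1) θ) with hzd
      set z' := Zp K (n - k) (shift (k + 1) θ') with hzd'
      set s' := PinD.S K (n - k) (shift (k + 1) θ') with hs'
      have hE0 : 0 < E' := Real.exp_pos _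
      have h2 : E' * (z' - z) ≤ E' * (c * s') := mul_le_mul_of_nonneg_left h1 hE0.le
      have h3 : (E' - E) * z ≤ c * E' * z' :=
        (mul_le_mul_of_nonneg_right he hz.le).trans
          (mul_le_mul_of_nonneg_left hz' (mul_nonneg hc hE0.le))
      calc a * E' * z' - a * E * z = a * (E' * (z' - z) + (E' - E) * z) := by ring
        _ ≤ a * (E' * (c * s') + c * E' * z') :=
          mul_le_mul_of_nonneg_left (add_le_add h2 h3) hKp.le
        _ = c * (a * E' * z' + a * E' * s') := by ring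

/-- `Zp_deriv`, `pow_step`, independence -/
theorem pin_deriv (hK : KerP K) {μ : Measure ℝ} [IsProbabilityMeasure μ] (hμ : ExpMom μ)
    (β hc : ℝ) {s : ℝ} (hs0 : 0 < s) (hs1 : s ≤ 1) {d : ℝ} (hd : 0 ≤ d) (n : ℕ) :
    aS μ (Zq K β hc) s d n ≤
      aS μ (Zq K β hc) s 0 n + d * cv (aS μ (Zq K β hc) s d) n := by
  have hS := pin_sys hK μ hμ β hc
  have hpt : ∀ ω, Zq K β hc d n ω ^ s ≤ Zq K β hc 0 n ω ^ s +
      d * ∑ y ∈ range (n + 1), (Zq K β hc d y ω * Zq K β hc d (n - y) (shift y ω)) ^ s := by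
    intro ω
    have h := pow_step (range (n + 1))
      (fun y => Zq K β hc d y ω * Zq K β hc d (n - y) (shift y ω)) (fun _ => 1)
      (hS.pos 0 n ω) (hS.mono 0 d n ω hd) hs0 hs1 hd
      (fun y _ => (mul_pos (hS.pos _ _ _) (hS.pos _ _ _)).le)
      (fun y hy => by
        rw [mem_range] at hy
        have h1 := hS.mul_le d y (n - y) ω
        rw [one_mul, show y + (n - y) = n by omega] at h1
        exact h1)
      (fun _ _ => zero_le_one)
      (by
        have h1 := Zp_deriv hK n hd (en β (hc - 0) ω) (en β (hc - d) ω)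
          (fun i => by unfold OT.en; ring)
        simp only [one_mul]
        exact h1)
    simp only [one_mul] at h
    exact h
  have hmul : ∀ y ∈ range (n + 1),
      mom μ s (fun ω => Zq K β hc d y ω * Zq K β hc d (n - y) (shift y ω)) =
        mom μ s (Zq K β hc d y) * mom μ s (Zq K β hc d (n - y)) := by
    intro y _
    have hdep := hS.dep d y
    rw [one_mul] at hdep
    exact MP_daa227_pr.mom_mul_shift hs0.le (hS.meas d y) (hS.meas d (n - y)) hdep
      (fun ω => (hS.pos _ _ _).le)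
  have hfin : ∀ d' m, mom μ s (Zq K β hc d' m) ≠ ⊤ := fun d' m => hS.fin s hs0.le hs1 d' m
  have hle : mom μ s (Zq K β hc d n) ≤ mom μ s (Zq K β hc 0 n) + ENNReal.ofReal d *
      ∑ y ∈ range (n + 1), mom μ s (Zq K β hc d y) * mom μ s (Zq K β hc d (n - y)) := by
    rw [← sum_congr rfl hmul]
    unfold MP_daa227_pr.mom
    rw [← lintegral_finsetSum, ← lintegral_const_mul, ← lintegral_add_left]
    · apply lintegral_mono
      intro ω
      have h0 : ∀ y, 0 < Zq K β hc d y ω * Zq K β hc d (n - y) (shift y ω) :=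
        fun y => mul_pos (hS.pos _ _ _) (hS.pos _ _ _)
      have e1 : ENNReal.ofReal (Zq K β hc d n ω) ^ s = ENNReal.ofReal (Zq K β hc d n ω ^ s) :=
        ENNReal.ofReal_rpow_of_pos (hS.pos _ _ _)
      have e2 : ENNReal.ofReal (Zq K β hc 0 n ω) ^ s = ENNReal.ofReal (Zq K β hc 0 n ω ^ s) :=
        ENNReal.ofReal_rpow_of_pos (hS.pos _ _ _)
      have e3 : ∀ y, ENNReal.ofReal (Zq K β hc d y ω * Zq K β hc d (n - y) (shift y ω)) ^ s =
          ENNReal.ofReal ((Zq K β hc d y ω * Zq K β hc d (n - y) (shift y ω)) ^ s) :=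
        fun y => ENNReal.ofReal_rpow_of_pos (h0 y)
      show ENNReal.ofReal (Zq K β hc d n ω) ^ s ≤ ENNReal.ofReal (Zq K β hc 0 n ω) ^ s +
        ENNReal.ofReal d * ∑ y ∈ range (n + 1),
          ENNReal.ofReal (Zq K β hc d y ω * Zq K β hc d (n - y) (shift y ω)) ^ s
      rw [e1, e2, sum_congr rfl fun y _ => e3 y,
        ← ENNReal.ofReal_sum_of_nonneg fun y _ => Real.rpow_nonneg (h0 y).le s,
        ← ENNReal.ofReal_mul hd, ← ENNReal.ofReal_add (Real.rpow_nonneg (hS.pos _ _ _).le s)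
          (mul_nonneg hd (sum_nonneg fun y _ => Real.rpow_nonneg (h0 y).le s))]
      exact ENNReal.ofReal_le_ofReal (hpt ω)
    · exact MP_daa227_pr.measurable_momf (hS.meas 0 n)
    · exact Finset.measurable_sum _ fun y _ => MP_daa227_pr.measurable_momf
        ((hS.meas d y).mul ((hS.meas d (n - y)).comp (MP_daa227_pr.measurable_shift y)))
    · exact fun y _ => MP_daa227_pr.measurable_momf
        ((hS.meas d y).mul ((hS.meas d (n - y)).comp (MP_daa227_pr.measurable_shift y)))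
  have hsumfin : ∑ y ∈ range (n + 1), mom μ s (Zq K β hc d y) * mom μ s (Zq K β hc d (n - y)) ≠ ⊤ :=
    (ENNReal.sum_lt_top.mpr fun y _ =>
      ENNReal.mul_lt_top (hfin d y).lt_top (hfin d (n - y)).lt_top).ne
  have h3 := ENNReal.toReal_mono
    (ENNReal.add_ne_top.mpr ⟨hfin 0 n, ENNReal.mul_ne_top ENNReal.ofReal_ne_top hsumfin⟩) hle
  rw [ENNReal.toReal_add (hfin 0 n) (ENNReal.mul_ne_top ENNReal.ofReal_ne_top hsumfin),
    ENNReal.toReal_mul, ENNReal.toReal_ofReal hd, ENNReal.toReal_sum fun y _ =>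
      ENNReal.mul_ne_top (hfin d y) (hfin d (n - y))] at h3
  simp only [ENNReal.toReal_mul] at h3
  exact h3

end

end Pool.Agent.IOrd
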