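import Mathlib
import Pool.Agent.Lib.MP_daa227_pr_IO.CopDefs
import Pool.Agent.Lib.MP_daa227_pr_IO.PinSys

/-!
# MP_daa227_pr: infinite order. Pinning: decomposition at an intermediate time.
-/

namespace Pool.Agent.IOrd

open MeasureTheory ProbabilityTheory Finset Filter Topology
open MP_daa227_pr (shift seqLaw ExpMom DepOn mom)
open Pool.Agent.OTP (Zp KerP LP)
open Pool.Agent.OT (en lmg)

noncomputable section

variable {K : ℕ → ℝ}

namespace PinMid

theorem K_le_one (hK : KerP K) {k : ℕ} (hk : 1 ≤ k) : K k ≤ 1 := by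
  obtain ⟨n, rfl⟩ : ∃ n, k = n + 1 := ⟨k - 1, by omega⟩
  have h1 : ∑ i ∈ range (n + 1 + 1), K i ≤ 1 :=
    sum_le_hasSum _ (fun i _ => by
      rcases i with _ | i
      · exact hK.zero.ge
      · exact (hK.pos _ (Nat.succ_pos i)).le) hK.sum_one
  have h2 : K (n + 1) ≤ ∑ i ∈ range (n + 1 + 1), K i :=
    single_le_sum (f := K) (fun i _ => by
      rcases i with _ | i
      · exact hK.zero.ge
      · exact (hK.pos _ (Nat.succ_pos i)).le) (mem_range.2 (Nat.lt_succ_self _))
  exact h2.trans h1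

theorem term {μ : Measure ℝ} [IsProbabilityMeasure μ] (hK : KerP K) (hμ : ExpMom μ)
    (β hc : ℝ) {s : ℝ} (hs0 : 0 < s) (d : ℝ) {x y N : ℕ} (hxy : x < y) :
    mom μ s (fun ω => Zp K x (en β (hc - d) ω) * (K (y - x) *
      Real.exp (en β (hc - d) ω (y - 1))) * Zp K (N - y) (shift y (en β (hc - d) ω))) ≤
      mom μ s (Zq K β hc d x) * (ENNReal.ofReal (OT.X1.qq μ β (hc - d) s) *
        mom μ s (Zq K β hc d (N - y))) := by
  have sys := pin_sys hK μ hμ β hc
  have hk : 0 ≤ K (y - x) := (hK.pos _ (by omega)).le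
  have hm2 : Measurable fun ω => K (y - x) * Real.exp (en β (hc - d) ω (y - x - 1)) :=
    (OT.X1.meas_en β (hc - d) (y - x - 1)).exp.const_mul _
  have e1 : mom μ s (fun ω => Zp K x (en β (hc - d) ω) * (K (y - x) *
      Real.exp (en β (hc - d) ω (y - 1))) * Zp K (N - y) (shift y (en β (hc - d) ω))) =
      mom μ s (Zq K β hc d x) *
        (mom μ s (fun ω => K (y - x) * Real.exp (en β (hc - d) ω (y - x - 1))) *
        mom μ s (Zq K β hc d (N - y))) := by
    rw [← MP_daa227_pr.mom_mul_shift hs0.le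
        (F := fun ω => K (y - x) * Real.exp (en β (hc - d) ω (y - x - 1)))
        (G := Zq K β hc d (N - y)) (k := y - x) hm2 (sys.meas d _) ?_
        (fun ω => mul_nonneg hk (Real.exp_pos _).le),
      ← MP_daa227_pr.mom_mul_shift hs0.le
        (G := fun ω => (K (y - x) * Real.exp (en β (hc - d) ω (y - x - 1))) *
          Zq K β hc d (N - y) (shift (y - x) ω)) (sys.meas d x)
        (hm2.mul ((sys.meas d (N - y)).comp (MP_daa227_pr.measurable_shift _))) (sys.dep d x)
        (fun ω => (sys.pos d x ω).le)]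
    · refine MP_daa227_pr.mom_congr fun ω => ?_
      rw [OT.X1.shift_en, MP_daa227_pr.shift_shift, one_mul,
        show y - x + x = y by omega, mul_assoc]
      have : en β (hc - d) (shift x ω) (y - x - 1) = en β (hc - d) ω (y - 1) := by
        simp only [en, MP_daa227_pr.shift_apply]
        rw [show y - x - 1 + x = y - 1 by omega]
      rw [this]
      rfl
    · intro ω ω' hω
      simp only [en, hω (y - x - 1) (by omega)]
  rw [e1, MP_daa227_pr.mom_const_mul hs0.le hk (OT.X1.meas_en β (hc - d) _).exp,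
    OT.X1.mom_site hμ]
  have e2 : ENNReal.ofReal (K (y - x)) ^ s ≤ 1 := by
    rw [← ENNReal.one_rpow s]
    refine ENNReal.rpow_le_rpow ?_ hs0.le
    rw [← ENNReal.ofReal_one]
    exact ENNReal.ofReal_le_ofReal (K_le_one hK (by omega))
  calc _ ≤ mom μ s (Zq K β hc d x) * (1 * ENNReal.ofReal (OT.X1.qq μ β (hc - d) s) *
        mom μ s (Zq K β hc d (N - y))) := by gcongr
    _ = _ := by rw [one_mul]

end PinMid

/-- `OTP.D.Zp_mid` with `j = m`, `MP_daa227_pr.mom_add_le`, `MP_daa227_pr.mom_sum_le`,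
`MP_daa227_pr.mom_mul_shift` (twice); the moment of `K_k e^{θ_{k-1}}` is `K_k ^ s qq ≤ qq`
(`OT.X1.mom_site`). The term `Z_m Z_{N-m}` is the term `f = m`, `j = N - m` of the product. -/
theorem pin_mid (hK : KerP K) {μ : Measure ℝ} [IsProbabilityMeasure μ] (hμ : ExpMom μ)
    (β hc : ℝ) {s : ℝ} (hs0 : 0 < s) (hs1 : s ≤ 1) {d C : ℝ} (hC : 1 ≤ C)
    (hq : OT.X1.qq μ β (hc - d) s ≤ C) {m N : ℕ} (hmN : m < N) :
    aS μ (Zq K β hc) s d N ≤ C * (∑ f ∈ range (m + 1 + 1), aS μ (Zq K β hc) s d f) *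
      ∑ j ∈ range (N - m + 1), aS μ (Zq K β hc) s d j := by
  have sys := pin_sys hK μ hμ β hc
  have hq0 : 0 ≤ OT.X1.qq μ β (hc - d) s := integral_nonneg fun _ => (Real.exp_pos _).le
  have ha : ∀ k, 0 ≤ aS μ (Zq K β hc) s d k := fun k => ENNReal.toReal_nonneg
  have hfin := sys.fin s hs0.le hs1 d
  have hmZ : ∀ k, Measurable fun ω => Zp K k (en β (hc - d) ω) := sys.meas d
  have hterm : ∀ x y, Measurable fun ω => Zp K x (en β (hc - d) ω) * (K (y - x) *
      Real.exp (en β (hc - d) ω (y - 1))) * Zp K (N - y) (shift y (en β (hc - d) ω)) := by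
    intro x y
    simp only [OT.X1.shift_en]
    exact ((hmZ x).mul ((OT.X1.meas_en β (hc - d) _).exp.const_mul _)).mul
      ((hmZ (N - y)).comp (MP_daa227_pr.measurable_shift _))
  have hpos : ∀ x ∈ range (m + 1), ∀ y ∈ Ioc m N, ∀ ω, 0 ≤ Zp K x (en β (hc - d) ω) *
      (K (y - x) * Real.exp (en β (hc - d) ω (y - 1))) *
      Zp K (N - y) (shift y (en β (hc - d) ω)) := by
    intro x hx y hy ω
    rw [mem_range] at hx
    rw [mem_Ioc] at hy
    exact mul_nonneg (mul_nonneg (OTP.Zp_pos hK _ _).le (mul_nonneg (hK.pos _ (by omega)).le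
      (Real.exp_pos _).le)) (OTP.Zp_pos hK _ _).le
  have e1 : mom μ s (Zq K β hc d N) ≤ ∑ x ∈ range (m + 1), ∑ y ∈ Ioc m N,
      mom μ s (Zq K β hc d x) * (ENNReal.ofReal (OT.X1.qq μ β (hc - d) s) *
        mom μ s (Zq K β hc d (N - y))) := by
    have h1 : mom μ s (Zq K β hc d N) = mom μ s (fun ω => ∑ x ∈ range (m + 1), ∑ y ∈ Ioc m N,
        Zp K x (en β (hc - d) ω) * (K (y - x) * Real.exp (en β (hc - d) ω (y - 1))) *
        Zp K (N - y) (shift y (en β (hc - d) ω))) :=
      MP_daa227_pr.mom_congr fun ω => OTP.Zp_cross K hmN _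
    rw [h1]
    refine (MP_daa227_pr.mom_sum_le hs0 hs1 _
      (fun x _ => Finset.measurable_sum _ fun y _ => hterm x y)
      (fun x hx ω => sum_nonneg fun y hy => hpos x hx y hy ω)).trans ?_
    refine sum_le_sum fun x hx => ?_
    refine (MP_daa227_pr.mom_sum_le hs0 hs1 _ (fun y _ => hterm x y)
      (fun y hy ω => hpos x hx y hy ω)).trans ?_
    refine sum_le_sum fun y hy => ?_
    rw [mem_range] at hx
    rw [mem_Ioc] at hy
    exact PinMid.term hK hμ β hc hs0 d (by omega)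
  have e2 : ∀ x ∈ range (m + 1), ∀ y ∈ Ioc m N, mom μ s (Zq K β hc d x) *
      (ENNReal.ofReal (OT.X1.qq μ β (hc - d) s) * mom μ s (Zq K β hc d (N - y))) ≠ ⊤ :=
    fun x _ y _ => ENNReal.mul_ne_top (hfin _) (ENNReal.mul_ne_top ENNReal.ofReal_ne_top (hfin _))
  have e3 := ENNReal.toReal_mono
    (ENNReal.sum_ne_top.2 fun x hx => ENNReal.sum_ne_top.2 fun y hy => e2 x hx y hy) e1
  rw [ENNReal.toReal_sum (fun x hx => ENNReal.sum_ne_top.2 fun y hy => e2 x hx y hy)] at e3
  have e4 : ∑ x ∈ range (m + 1), (∑ y ∈ Ioc m N, mom μ s (Zq K β hc d x) *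
      (ENNReal.ofReal (OT.X1.qq μ β (hc - d) s) * mom μ s (Zq K β hc d (N - y)))).toReal =
      OT.X1.qq μ β (hc - d) s * (∑ f ∈ range (m + 1), aS μ (Zq K β hc) s d f) *
        ∑ y ∈ Ioc m N, aS μ (Zq K β hc) s d (N - y) := by
    rw [mul_assoc, sum_mul, mul_sum]
    refine sum_congr rfl fun x hx => ?_
    rw [ENNReal.toReal_sum (fun y hy => e2 x hx y hy), mul_sum, mul_sum]
    refine sum_congr rfl fun y hy => ?_
    rw [ENNReal.toReal_mul, ENNReal.toReal_mul, ENNReal.toReal_ofReal hq0]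
    unfold aS
    ring
  rw [e4] at e3
  have e5 : ∑ y ∈ Ioc m N, aS μ (Zq K β hc) s d (N - y) =
      ∑ j ∈ range (N - m), aS μ (Zq K β hc) s d j := by
    refine sum_nbij' (fun y => N - y) (fun j => N - j) ?_ ?_ ?_ ?_ ?_
    · intro y hy
      rw [mem_Ioc] at hy
      rw [mem_range]
      omega
    · intro y hy
      rw [mem_range] at hy
      rw [mem_Ioc]
      omega
    · intro y hy
      rw [mem_Ioc] at hy
      show N - (N - y) = y
      omega
    · intro y hy
      rw [mem_range] at hy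
      show N - (N - y) = y
      omega
    · intro y _
      rfl
  rw [e5] at e3
  have s1 : ∑ f ∈ range (m + 1), aS μ (Zq K β hc) s d f ≤
      ∑ f ∈ range (m + 1 + 1), aS μ (Zq K β hc) s d f := by
    rw [sum_range_succ _ (m + 1)]
    exact le_add_of_nonneg_right (ha _)
  have s2 : ∑ j ∈ range (N - m), aS μ (Zq K β hc) s d j ≤
      ∑ j ∈ range (N - m + 1), aS μ (Zq K β hc) s d j := by
    rw [sum_range_succ _ (N - m)]
    exact le_add_of_nonneg_right (ha _)
  have s3 : 0 ≤ ∑ f ∈ range (m + 1), aS μ (Zq K β hc) s d f := sum_nonneg fun _ _ => ha _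
  have s4 : 0 ≤ ∑ j ∈ range (N - m), aS μ (Zq K β hc) s d j := sum_nonneg fun _ _ => ha _
  refine e3.trans ?_
  exact mul_le_mul (mul_le_mul hq s1 s3 (by linarith)) s2 s4
    (mul_nonneg (by linarith) (s3.trans s1))

end

end Pool.Agent.IOrd
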