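import Mathlib
import Pool.Agent.Lib.MP_daa227_pr_IO.CopDefs
import Pool.Agent.Lib.MP_daa227_pr_IO.PinMid
import Pool.Agent.Lib.MP_daa227_pr_IO.PinD
import Pool.Agent.Lib.MP_daa227_pr_IO.Basic

/-!
# MP_daa227_pr: infinite order. Pinning: the two bounds.
-/

namespace Pool.Agent.IOrd

open MeasureTheory ProbabilityTheory Finset Filter Topology
open MP_daa227_pr (shift seqLaw ExpMom DepOn mom)
open Pool.Agent.OTP (Zp KerP LP)
open Pool.Agent.OT (en lmg)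

noncomputable section

variable {K : ℕ → ℝ}

/-- `d₀ = 1`, `R = 1`, `C = max 1 (qq μ β (hc - 1) s)`, `n' = n`; `qq μ β (hc - d) s` is
nondecreasing in `d` (`OT.X1.qq_eq`); `pin_deriv`, `pin_mid`. -/
theorem pin_bds (hK : KerP K) {μ : Measure ℝ} [IsProbabilityMeasure μ] (hμ : ExpMom μ)
    (β hc : ℝ) {s : ℝ} (hs0 : 0 < s) (hs1 : s ≤ 1) : Bds μ (Zq K β hc) s := by
  refine ⟨1, max 1 (OT.X1.qq μ β (hc - 1) s), 1, one_pos, le_max_left _ _, fun d hd0 hd1 => ?_⟩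
  have hq : OT.X1.qq μ β (hc - d) s ≤ max 1 (OT.X1.qq μ β (hc - 1) s) := by
    refine le_trans ?_ (le_max_right _ _)
    rw [OT.X1.qq_eq hμ, OT.X1.qq_eq hμ, Real.exp_le_exp]
    have : s * (hc - 1) ≤ s * (hc - d) := mul_le_mul_of_nonneg_left (by linarith) hs0.le
    linarith
  refine ⟨fun n => ⟨n, Nat.le_add_right _ _, ?_⟩, fun m N hmN => ?_⟩
  · refine (pin_deriv hK hμ β hc hs0 hs1 hd0 n).trans ?_
    have hcv : 0 ≤ cv (aS μ (Zq K β hc) s d) n :=
      sum_nonneg fun x _ => mul_nonneg (aS_nonneg _ _ _ _ _) (aS_nonneg _ _ _ _ _)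
    have h1 : d ≤ d * max 1 (OT.X1.qq μ β (hc - 1) s) :=
      le_mul_of_one_le_right hd0 (le_max_left _ _)
    have h2 := mul_le_mul_of_nonneg_right h1 hcv
    linarith
  · exact pin_mid hK hμ β hc hs0 hs1 (le_max_left _ _) hq hmN

end

end Pool.Agent.IOrd
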