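import Mathlib
import Pool.Agent.Lib.MP_daa227_pr_IO.CopDefs
import Pool.Agent.Lib.MP_daa227_pr_IO.PinSys
import Pool.Agent.Lib.MP_daa227_pr_IO.Basic
import Pool.Agent.Lib.MP_daa227_pr_IO.Growth
import Pool.Agent.Lib.MP_daa227_pr_OTP.Hop
import Pool.Agent.Lib.MP_daa227_pr_OTP.Ann

/-!
# MP_daa227_pr: infinite order. Pinning: a small and a large moment at the critical point.
-/

namespace Pool.Agent.IOrd

open MeasureTheory ProbabilityTheory Finset Filter Topology
open MP_daa227_pr (shift seqLaw ExpMom DepOn mom)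
open Pool.Agent.OTP (Zp KerP LP)
open Pool.Agent.OT (en lmg)

noncomputable section

variable {K : ℕ → ℝ}

namespace PinH

/-- a supermultiplicative sequence of at most polynomial growth is at most one -/
theorem le_one_of_super {u : ℕ → ℝ} (h0 : ∀ n, 0 ≤ u n) (hm : ∀ m n, u m * u n ≤ u (m + n))
    (hu0 : u 0 ≤ 1) {A : ℝ} (hA : 0 ≤ A)
    (h : ∀ n : ℕ, 1 ≤ n → u n ≤ 2 * Real.exp (A * (1 + Real.log n))) (n : ℕ) : u n ≤ 1 := by
  -- polynomial growth is slower than every exponential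
  have hθ : ∀ θ : ℝ, 0 < θ → ∀ n : ℕ, u n ≤ Real.exp (θ * n) := by
    intro θ hθ
    have hA1 : 0 < A + 1 := by linarith
    refine le_exp_of_super h0 hm
      (C := 1 + 2 * Real.exp (A + 1 + (A + 1) * Real.log ((A + 1) / θ))) fun n => ?_
    have hE : 0 < 2 * Real.exp (A + 1 + (A + 1) * Real.log ((A + 1) / θ)) :=
      mul_pos two_pos (Real.exp_pos _)
    rcases Nat.eq_zero_or_pos n with hn | hn
    · rw [hn, Nat.cast_zero, mul_zero, Real.exp_zero, mul_one]
      linarith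
    · have hn' : (0 : ℝ) < n := Nat.cast_pos.mpr hn
      have hln : 0 ≤ Real.log n := Real.log_natCast_nonneg n
      refine (h n hn).trans ?_
      have h1 : Real.log n ≤ θ * n / (A + 1) - 1 + Real.log ((A + 1) / θ) := by
        have h2 := Real.log_le_sub_one_of_pos (x := θ * n / (A + 1))
          (div_pos (mul_pos hθ hn') hA1)
        have h3 : Real.log n = Real.log (θ * n / (A + 1)) + Real.log ((A + 1) / θ) := by
          rw [← Real.log_mul (div_pos (mul_pos hθ hn') hA1).ne' (div_pos hA1 hθ).ne']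
          congr 1
          field_simp
        linarith
      have h4 : A * (1 + Real.log n) ≤
          (A + 1 + (A + 1) * Real.log ((A + 1) / θ)) + θ * n := by
        have h5 : (A + 1) * Real.log n ≤
            (A + 1) * (θ * n / (A + 1) - 1 + Real.log ((A + 1) / θ)) :=
          mul_le_mul_of_nonneg_left h1 hA1.le
        have h6 : (A + 1) * (θ * n / (A + 1) - 1 + Real.log ((A + 1) / θ)) =
            θ * n - (A + 1) + (A + 1) * Real.log ((A + 1) / θ) := by
          field_simp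
        rw [h6] at h5
        linarith
      have h7 := Real.exp_le_exp.2 h4
      rw [Real.exp_add] at h7
      have h8 : 0 < Real.exp (θ * n) := Real.exp_pos _
      rw [add_mul, one_mul]
      linarith
  by_contra hc
  rw [not_le] at hc
  rcases Nat.eq_zero_or_pos n with hn | hn
  · rw [hn] at hc
    linarith
  · have hn' : (0 : ℝ) < n := Nat.cast_pos.mpr hn
    have hl : 0 < Real.log (u n) := Real.log_pos hc
    have h1 := hθ (Real.log (u n) / (2 * n)) (by positivity) n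
    rw [← Real.log_le_iff_le_exp (by linarith)] at h1
    have h2 : Real.log (u n) / (2 * n) * n = Real.log (u n) / 2 := by
      field_simp
    rw [h2] at h1
    linarith

theorem aS_le {μ : Measure ℝ} [IsProbabilityMeasure μ] {Z : ℝ → ℕ → (ℕ → ℝ) → ℝ} {s γ : ℝ}
    (hs0 : 0 ≤ s) (hsγ : s ≤ γ) {n : ℕ} (hpos : ∀ ω, 0 < Z 0 n ω)
    (hint : Integrable (fun ω => Z 0 n ω ^ γ) (seqLaw μ)) :
    aS μ Z s 0 n ≤ 1 + ∫ ω, Z 0 n ω ^ γ ∂seqLaw μ := by
  have hI : 0 ≤ ∫ ω, Z 0 n ω ^ γ ∂seqLaw μ :=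
    integral_nonneg fun ω => Real.rpow_nonneg (hpos ω).le _
  have h1 : mom μ s (Z 0 n) ≤ ENNReal.ofReal (1 + ∫ ω, Z 0 n ω ^ γ ∂seqLaw μ) := by
    rw [ENNReal.ofReal_add zero_le_one hI, ENNReal.ofReal_one,
      ofReal_integral_eq_lintegral_ofReal hint
        (Filter.Eventually.of_forall fun ω => Real.rpow_nonneg (hpos ω).le _)]
    have h2 : (1 : ENNReal) = ∫⁻ _ : ℕ → ℝ, 1 ∂seqLaw μ := by
      rw [lintegral_const, measure_univ, mul_one]
    conv_rhs => rw [h2]
    rw [← lintegral_add_left measurable_const]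
    unfold mom
    refine lintegral_mono fun ω => ?_
    show ENNReal.ofReal (Z 0 n ω) ^ s ≤ 1 + ENNReal.ofReal (Z 0 n ω ^ γ)
    rw [ENNReal.ofReal_rpow_of_pos (hpos ω), ← ENNReal.ofReal_one,
      ← ENNReal.ofReal_add zero_le_one (Real.rpow_nonneg (hpos ω).le _)]
    refine ENNReal.ofReal_le_ofReal ?_
    rcases le_total (Z 0 n ω) 1 with h | h
    · have h3 := Real.rpow_le_one (hpos ω).le h hs0
      have h4 := Real.rpow_nonneg (hpos ω).le γ
      linarith
    · have h3 := Real.rpow_le_rpow_of_exponent_le h hsγ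
      linarith
  unfold aS
  have h2 := ENNReal.toReal_mono ENNReal.ofReal_ne_top h1
  rwa [ENNReal.toReal_ofReal (by linarith)] at h2

end PinH

/-- `OTP.hopP` at `h = hc`: `log E Z_n ^ γ ≤ A (1 + log n)`; take `s₀ = min γ 1` (Lyapunov) and use
`aS_pow`: `a_n ^ k ≤ a_{k n} ≤ exp (A (1 + log (k n)))` for all `k`, so `a_n ≤ 1`. -/
theorem pin_h0 (hK : KerP K) (μ : Measure ℝ) [IsProbabilityMeasure μ] (hμ : ExpMom μ) {β : ℝ}
    (hβ : 0 < β) {hc : ℝ} (h0 : ∀ n, LP K μ β hc n ≤ 0) :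
    ∃ s₀, 0 < s₀ ∧ s₀ ≤ 1 ∧ ∀ n, aS μ (Zq K β hc) s₀ 0 n ≤ 1 := by
  obtain ⟨γ, A, hγ, hA, hop⟩ := Pool.Agent.OTP.hopP hK μ hμ hβ hc h0
  have hs0 : 0 < min γ 1 := lt_min hγ one_pos
  have hs1 : min γ 1 ≤ 1 := min_le_right _ _
  have hsys := pin_sys hK μ hμ β hc
  refine ⟨min γ 1, hs0, hs1, ?_⟩
  refine PinH.le_one_of_super (aS_nonneg μ _ _ _) (fun m n => aS_mul hsys hs0.le hs1 0 m n)
    (aS_zero hsys _ _).le hA (fun n hn => ?_)
  obtain ⟨hint, hlog⟩ := hop n hn
  have hpos : ∀ ω, 0 < Zq K β hc 0 n ω := fun ω => hsys.pos 0 n ω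
  have e0 : (fun ω => Zp K n (en β hc ω) ^ γ) = fun ω => Zq K β hc 0 n ω ^ γ := by
    funext ω
    unfold Zq
    rw [sub_zero]
  rw [e0] at hint hlog
  refine (PinH.aS_le (hs0.le) (min_le_left _ _) hpos hint).trans ?_
  have h1 : ∫ ω, Zq K β hc 0 n ω ^ γ ∂seqLaw μ ≤ Real.exp (A * (1 + Real.log n)) := by
    rcases le_or_gt (∫ ω, Zq K β hc 0 n ω ^ γ ∂seqLaw μ) 0 with h | h
    · exact h.trans (Real.exp_pos _).le
    · exact (Real.log_le_iff_le_exp h).1 hlog
  have h2 : 1 ≤ Real.exp (A * (1 + Real.log n)) := by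
    apply Real.one_le_exp
    have : 0 ≤ Real.log n := Real.log_natCast_nonneg n
    positivity
  linarith

/-- `E Z_n = Zp K n (fun _ => lmg β - hc)` (see `OTP/Ann.lean`, `ann_eq`) and `OTP.H1.growth` -/
theorem pin_h1 (hK : KerP K) (μ : Measure ℝ) [IsProbabilityMeasure μ] (hμ : ExpMom μ) {β hc : ℝ}
    (h : hc < lmg μ β) : ∃ n, 1 < aS μ (Zq K β hc) 1 0 n := by
  obtain ⟨n, -, hn⟩ := Pool.Agent.OTP.Zp_growth hK (sub_pos.2 h) 2
  refine ⟨n, ?_⟩
  obtain ⟨hint, he⟩ := Pool.Agent.OTP.ann_eq hK μ hμ β hc n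
  have hpos : ∀ ω, 0 ≤ Zp K n (en β hc ω) := fun ω => Pool.Agent.OTP.A1.Zp_nonneg hK n _
  have e0 : Zq K β hc 0 n = fun ω => Zp K n (en β hc ω) := by
    funext ω
    unfold Zq
    rw [sub_zero]
  unfold aS
  rw [e0, MP_daa227_pr.mom_one, ← ofReal_integral_eq_lintegral_ofReal hint
    (Filter.Eventually.of_forall hpos), he, ENNReal.toReal_ofReal (by linarith)]
  linarith

end

end Pool.Agent.IOrd
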