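import Mathlib
import Pool.Agent.Lib.MP_daa227_pr_IO.Main
import Pool.Agent.Lib.MP_daa227_pr_IO.PinSys
import Pool.Agent.Lib.MP_daa227_pr_IO.PinH
import Pool.Agent.Lib.MP_daa227_pr_IO.PinBds

/-!
# MP_daa227_pr: infinite order. Pinning: infinite order.
-/

namespace Pool.Agent.IOrd

open MeasureTheory ProbabilityTheory Finset Filter Topology
open MP_daa227_pr (shift seqLaw ExpMom DepOn mom)
open Pool.Agent.OTP (Zp KerP LP)
open Pool.Agent.OT (en lmg)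

noncomputable section

variable {K : ℕ → ℝ}

/-- `main` for `Zq K β hc`, `w = 1`, and `F' d = F (hc - d)` -/
theorem pin_core (hK : KerP K) (μ : Measure ℝ) [IsProbabilityMeasure μ] (hμ : ExpMom μ)
    {β : ℝ} (hβ : 0 < β) {F : ℝ → ℝ}
    (hF1 : ∀ h, Tendsto (fun n : ℕ => LP K μ β h n / n) atTop (𝓝 (F h)))
    (hF2 : ∀ h (n : ℕ), LP K μ β h n ≤ n * F h)
    (hF5 : ∀ h h', h ≤ h' → F h ≤ F h' + (h' - h)) {hc : ℝ} (hcF : F hc = 0)
    (hcl : hc < lmg μ β) {q : ℝ} (hq : 0 < q) :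
    ∃ C : ℝ, ∀ δ, 0 ≤ δ → δ ≤ 1 → F (hc - δ) ≤ C * δ ^ q := by
  refine main (pin_sys hK μ hμ β hc) (F := fun d => F (hc - d)) (fun d _ => hF1 (hc - d))
    (fun d hd => ?_) (pin_h0 hK μ hμ hβ fun n => ?_) (pin_h1 hK μ hμ hcl)
    (fun s s₂ hs hs2 hs3 _ => pin_bds hK hμ β hc hs (hs2.le.trans hs3)) hq
  · have h1 := hF5 (hc - d) hc (by linarith)
    rw [hcF] at h1
    show F (hc - d) ≤ 2 * d
    linarith
  · have h1 := hF2 hc n
    rwa [hcF, mul_zero] at h1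

end

end Pool.Agent.IOrd
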